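import Mathlib

/-!
# Existence of unbalanced lossless expanders by counting
-/

set_option autoImplicit false

namespace Pool.Agent.K3h39.LT

open Finset

/-- the numerical heart of the counting argument -/
theorem choose_bound (R n u : ℕ) (hR : 1 ≤ R) (hu : 1 ≤ u) (hun : 160000 * R * u ≤ n) :
    (((R * n).choose u : ℕ) : ℝ) * ((n.choose (6 * u) : ℕ) : ℝ) * (6 * (u : ℝ)) ^ (8 * u) ≤
      (n : ℝ) ^ (8 * u) * (1 / 4) ^ u := by
  have hu0 : (0 : ℝ) < u := by exact_mod_cast hu
  have hR0 : (0 : ℝ) < R := by exact_mod_cast hR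
  have hn0 : (0 : ℝ) < n := by
    have : 0 < n := lt_of_lt_of_le (by positivity) hun
    exact_mod_cast this
  have h1 : (((R * n).choose u : ℕ) : ℝ) ≤ (R * n * Real.exp 1 / u) ^ u := by
    refine (Nat.choose_le_pow_div u (R * n)).trans ?_
    have h2 := Real.pow_div_factorial_le_exp (u : ℝ) hu0.le u
    have h3 : (0 : ℝ) < (u.factorial : ℝ) := by exact_mod_cast Nat.factorial_pos u
    have h4 : (0 : ℝ) < (u : ℝ) ^ u := by positivity
    have h5 : (1 : ℝ) / u.factorial ≤ Real.exp u / (u : ℝ) ^ u := by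
      rw [div_le_div_iff₀ h3 h4]
      rw [div_le_iff₀ h3] at h2
      linarith
    calc ((R * n : ℕ) : ℝ) ^ u / u.factorial = (R * n : ℝ) ^ u * (1 / u.factorial) := by
          push_cast; ring
      _ ≤ (R * n : ℝ) ^ u * (Real.exp u / (u : ℝ) ^ u) := by
        apply mul_le_mul le_rfl h5 (by positivity) (by positivity)
      _ = (R * n * Real.exp 1 / u) ^ u := by
        rw [div_pow, mul_pow _ (Real.exp 1), ← Real.exp_nat_mul, mul_one]
        ring
  have h2 : ((n.choose (6 * u) : ℕ) : ℝ) ≤ (n * Real.exp 1 / (6 * u)) ^ (6 * u) := by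
    refine (Nat.choose_le_pow_div (6 * u) n).trans ?_
    have h2 := Real.pow_div_factorial_le_exp ((6 * u : ℕ) : ℝ) (by positivity) (6 * u)
    have h3 : (0 : ℝ) < ((6 * u).factorial : ℝ) := by exact_mod_cast Nat.factorial_pos (6 * u)
    have h4 : (0 : ℝ) < ((6 * u : ℕ) : ℝ) ^ (6 * u) := by positivity
    have h5 : (1 : ℝ) / (6 * u).factorial ≤ Real.exp (6 * u : ℕ) / ((6 * u : ℕ) : ℝ) ^ (6 * u) := by
      rw [div_le_div_iff₀ h3 h4]
      rw [div_le_iff₀ h3] at h2
      linarith
    calc (n : ℝ) ^ (6 * u) / (6 * u).factorial = (n : ℝ) ^ (6 * u) * (1 / (6 * u).factorial) := by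
          ring
      _ ≤ (n : ℝ) ^ (6 * u) * (Real.exp (6 * u : ℕ) / ((6 * u : ℕ) : ℝ) ^ (6 * u)) := by
        apply mul_le_mul le_rfl h5 (by positivity) (by positivity)
      _ = (n * Real.exp 1 / (6 * u)) ^ (6 * u) := by
        rw [div_pow, mul_pow _ (Real.exp 1), ← Real.exp_nat_mul, mul_one]
        push_cast
        ring
  have h3 : (((R * n).choose u : ℕ) : ℝ) * ((n.choose (6 * u) : ℕ) : ℝ) * (6 * (u : ℝ)) ^ (8 * u)
      ≤ (R * n * Real.exp 1 / u) ^ u * (n * Real.exp 1 / (6 * u)) ^ (6 * u) *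
        (6 * (u : ℝ)) ^ (8 * u) := by
    apply mul_le_mul_of_nonneg_right _ (by positivity)
    exact mul_le_mul h1 h2 (by positivity) (by positivity)
  refine h3.trans ?_
  have h4 : (R * n * Real.exp 1 / u) ^ u * (n * Real.exp 1 / (6 * u)) ^ (6 * u) *
        (6 * (u : ℝ)) ^ (8 * u) = (n : ℝ) ^ (8 * u) * (36 * (Real.exp 1) ^ 7 * (R * u / n)) ^ u := by
    rw [pow_mul, pow_mul, pow_mul, ← mul_pow, ← mul_pow, ← mul_pow]
    congr 1
    field_simp
    norm_num
  rw [h4]
  apply mul_le_mul_of_nonneg_left _ (by positivity)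
  apply pow_le_pow_left₀ (by positivity)
  have h5 : (R * u : ℝ) / n ≤ 1 / 160000 := by
    rw [div_le_div_iff₀ hn0 (by norm_num)]
    have : ((160000 * R * u : ℕ) : ℝ) ≤ n := by exact_mod_cast hun
    push_cast at this
    linarith
  have h6 : (Real.exp 1) ^ 7 ≤ 1100 := by
    have := Real.exp_one_lt_d9
    have h7 : (Real.exp 1) ^ 7 ≤ (2.7182818286 : ℝ) ^ 7 :=
      pow_le_pow_left₀ (Real.exp_pos 1).le this.le 7
    refine h7.trans (by norm_num)
  have h7 : 36 * (Real.exp 1) ^ 7 * (R * u / n) ≤ 36 * 1100 * (1 / 160000) := by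
    apply mul_le_mul _ h5 (by positivity) (by norm_num)
    linarith
  refine h7.trans (by norm_num)

theorem geom_quarter (m : ℕ) : ∑ u ∈ Icc 1 m, ((1 : ℝ) / 4) ^ u ≤ 1 / 3 := by
  have h : ∀ m : ℕ, ∑ u ∈ Icc 1 m, ((1 : ℝ) / 4) ^ u = (1 - (1 / 4) ^ m) / 3 := by
    intro m
    induction m with
    | zero => simp
    | succ m ih =>
      rw [sum_Icc_succ_top (by omega), ih]
      rw [pow_succ]
      ring
  rw [h]
  have : (0 : ℝ) ≤ (1 / 4) ^ m := by positivity
  linarith

/-- The maps sending all pairs with first coordinate in `U` into `Q`. -/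
def gset {M n : ℕ} (U : Finset (Fin M)) (Q : Finset (Fin n)) : Finset (Fin M × Fin 8 → Fin n) :=
  Fintype.piFinset fun p => if p.1 ∈ U then Q else univ

theorem card_gset {M n : ℕ} (U : Finset (Fin M)) (Q : Finset (Fin n)) :
    (gset U Q).card = Q.card ^ (8 * U.card) * n ^ (8 * (M - U.card)) := by
  unfold gset
  rw [Fintype.card_piFinset]
  rw [Fintype.prod_prod_type]
  have h1 : ∀ v : Fin M, ∏ j : Fin 8, (if (v, j).1 ∈ U then Q else (univ : Finset (Fin n))).card =
      (if v ∈ U then Q.card else n) ^ 8 := by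
    intro v
    by_cases hv : v ∈ U
    · simp [hv]
    · simp [hv]
  rw [prod_congr rfl fun v _ => h1 v, prod_pow, prod_ite, prod_const, prod_const]
  have h2 : (univ.filter fun v => v ∈ U) = U := by ext v; simp
  have h3 : (univ.filter fun v => v ∉ U).card = M - U.card := by
    have : (univ.filter fun v => v ∉ U) = Uᶜ := by ext v; simp
    rw [this, card_compl, Fintype.card_fin]
  rw [h2, h3, mul_pow, ← pow_mul, ← pow_mul]
  congr 2 <;> ring

/-- A map `h` under which small sets of rows see many columns. -/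
theorem exists_good_map (R n : ℕ) (hR : 1 ≤ R) (hn : 0 < n) : ∃ h : Fin (R * n) × Fin 8 → Fin n,
    ∀ U : Finset (Fin (R * n)), U.Nonempty → 160000 * R * U.card ≤ n →
      6 * U.card < ((U ×ˢ (univ : Finset (Fin 8))).image h).card := by
  classical
  by_contra hcon
  push Not at hcon
  have hcover : (univ : Finset (Fin (R * n) × Fin 8 → Fin n)) ⊆
      (Icc 1 (n / (160000 * R))).biUnion fun u =>
        (powersetCard u (univ : Finset (Fin (R * n))) ×ˢ
          powersetCard (6 * u) (univ : Finset (Fin n))).biUnion fun q => gset q.1 q.2 := by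
    intro h _
    obtain ⟨U, hne, hU, hc⟩ := hcon h
    have hU1 : 1 ≤ U.card := card_pos.mpr hne
    obtain ⟨Q, hQ1, hQ2⟩ := exists_superset_card_eq (n := 6 * U.card) hc
      (by rw [Fintype.card_fin]
          have : 6 * U.card ≤ 160000 * R * U.card := by
            refine Nat.mul_le_mul_right _ ?_
            omega
          omega)
    rw [mem_biUnion]
    refine ⟨U.card, mem_Icc.mpr ⟨hU1, ?_⟩, ?_⟩
    · rw [Nat.le_div_iff_mul_le (by positivity), mul_comm]
      exact hU
    rw [mem_biUnion]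
    refine ⟨(U, Q), ?_, ?_⟩
    · simp [mem_powersetCard, hQ2]
    · simp only [gset, Fintype.mem_piFinset]
      intro p
      by_cases hp : p.1 ∈ U
      · simp only [hp, if_true]
        apply hQ1
        rw [mem_image]
        exact ⟨p, by simp [hp], rfl⟩
      · simp [hp]
  have hcard := (card_le_card hcover).trans card_biUnion_le
  have hcard2 : n ^ (8 * (R * n)) ≤ ∑ u ∈ Icc 1 (n / (160000 * R)),
      (R * n).choose u * n.choose (6 * u) * ((6 * u) ^ (8 * u) * n ^ (8 * (R * n - u))) := by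
    have e0 : (univ : Finset (Fin (R * n) × Fin 8 → Fin n)).card = n ^ (8 * (R * n)) := by
      rw [card_univ, Fintype.card_fun]
      simp only [Fintype.card_fin, Fintype.card_prod]
      congr 1
      ring
    rw [e0] at hcard
    refine hcard.trans (sum_le_sum fun u _ => ?_)
    refine card_biUnion_le.trans ?_
    have : ∀ q ∈ (powersetCard u (univ : Finset (Fin (R * n))) ×ˢ
          powersetCard (6 * u) (univ : Finset (Fin n))),
        (gset q.1 q.2).card = (6 * u) ^ (8 * u) * n ^ (8 * (R * n - u)) := by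
      intro q hq
      rw [mem_product, mem_powersetCard, mem_powersetCard] at hq
      rw [card_gset, hq.1.2, hq.2.2]
    rw [sum_congr rfl this, sum_const, card_product, card_powersetCard, card_powersetCard,
      card_univ, card_univ, Fintype.card_fin, Fintype.card_fin, smul_eq_mul]
  have hn0 : (0 : ℝ) < n := by exact_mod_cast hn
  have hreal : ((n : ℝ)) ^ (8 * (R * n)) ≤ ∑ u ∈ Icc 1 (n / (160000 * R)),
      (n : ℝ) ^ (8 * (R * n)) * (1 / 4) ^ u := by
    have : ((n ^ (8 * (R * n)) : ℕ) : ℝ) ≤ ((∑ u ∈ Icc 1 (n / (160000 * R)),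
      (R * n).choose u * n.choose (6 * u) * ((6 * u) ^ (8 * u) * n ^ (8 * (R * n - u))) : ℕ) : ℝ) :=
      by exact_mod_cast hcard2
    rw [Nat.cast_sum, Nat.cast_pow] at this
    refine this.trans (sum_le_sum fun u hu => ?_)
    rw [mem_Icc] at hu
    have hu2 : 160000 * R * u ≤ n := by
      have := (Nat.le_div_iff_mul_le (by positivity)).1 hu.2
      rwa [mul_comm] at this
    have hb := choose_bound R n u hR hu.1 hu2
    have hle : u ≤ R * n := by
      have : u ≤ 160000 * R * u := Nat.le_mul_of_pos_left u (by positivity)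
      have h3 : n ≤ R * n := Nat.le_mul_of_pos_left n hR
      omega
    have hexp : (n : ℝ) ^ (8 * (R * n)) = (n : ℝ) ^ (8 * u) * (n : ℝ) ^ (8 * (R * n - u)) := by
      rw [← pow_add]
      congr 1
      omega
    rw [hexp]
    have hp : (0 : ℝ) ≤ (n : ℝ) ^ (8 * (R * n - u)) := by positivity
    push_cast
    calc (((R * n).choose u : ℕ) : ℝ) * ((n.choose (6 * u) : ℕ) : ℝ) *
          ((6 * (u : ℝ)) ^ (8 * u) * (n : ℝ) ^ (8 * (R * n - u)))
        = ((((R * n).choose u : ℕ) : ℝ) * ((n.choose (6 * u) : ℕ) : ℝ) *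
          (6 * (u : ℝ)) ^ (8 * u)) * (n : ℝ) ^ (8 * (R * n - u)) := by ring
      _ ≤ ((n : ℝ) ^ (8 * u) * (1 / 4) ^ u) * (n : ℝ) ^ (8 * (R * n - u)) :=
        mul_le_mul_of_nonneg_right hb hp
      _ = (n : ℝ) ^ (8 * u) * (n : ℝ) ^ (8 * (R * n - u)) * (1 / 4) ^ u := by ring
  rw [← mul_sum] at hreal
  have hg := geom_quarter (n / (160000 * R))
  have hp : (0 : ℝ) < (n : ℝ) ^ (8 * (R * n)) := by positivity
  nlinarith

end Pool.Agent.K3h39.LT
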