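import Pool.Agent.K3h39.LT.Cay
import Pool.Agent.K3h39.LT.Loss

/-!
# Good locally testable codes of large constant query complexity
-/

set_option autoImplicit false
set_option linter.unusedSectionVars false

namespace Pool.Agent.K3h39.LT

open Finset

section

variable {G A Y : Type} [Group G] [Fintype G] [DecidableEq G] [Fintype A] [DecidableEq A]
  [Fintype Y] [DecidableEq Y]

open Classical in
/-- bad vertices -/
noncomputable def Bad (α : A → G) (D : Submodule (ZMod 2) (A → ZMod 2)) (w : A × A × G → ZMod 2) :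
    Finset (Vx G) := univ.filter fun v => ¬ InT D (view α w v)

open Classical in
/-- initial assignment -/
noncomputable def z0 (α : A → G) (D : Submodule (ZMod 2) (A → ZMod 2)) (w : A × A × G → ZMod 2) :
    Asg (Vx G) A := fun v => if InT D (view α w v) then view α w v else 0

theorem z0_InT (α : A → G) (D : Submodule (ZMod 2) (A → ZMod 2)) (w : A × A × G → ZMod 2)
    (v : Vx G) : InT D (z0 α D w v) := by
  unfold z0
  split_ifs with h
  · exact h
  · exact ⟨fun a => D.zero_mem, fun b => D.zero_mem⟩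

theorem z0_good {α : A → G} {D : Submodule (ZMod 2) (A → ZMod 2)} {w : A × A × G → ZMod 2}
    {v : Vx G} (h : v ∉ Bad α D w) : z0 α D w v = view α w v := by
  classical
  have : InT D (view α w v) := by
    by_contra hcon
    apply h
    unfold Bad
    simp [hcon]
  unfold z0; rw [if_pos this]

theorem SS_z0 {α : A → G} {lam : ℝ} (hm : Mix α lam) (D : Submodule (ZMod 2) (A → ZMod 2))
    (w : A × A × G → ZMod 2) :
    SS (nL α) (nR α) (z0 α D w) ≤ 4 * Fintype.card A * (Bad α D w).card := by
  classical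
  have h := lrc_of_mix hm
  set F : Vx G → ℕ := fun v => if v ∈ Bad α D w then 1 else 0 with hF
  have hFs : ∑ v, F v = (Bad α D w).card := by
    rw [hF]; simp
  have h1 : ∀ a v, iA (nL α) (z0 α D w) a v ≤ F v + F (nL α a v) := by
    intro a v
    unfold iA
    by_cases b1 : v ∈ Bad α D w
    · have : F v = 1 := by simp only [hF]; rw [if_pos b1]
      split_ifs <;> omega
    · by_cases b2 : nL α a v ∈ Bad α D w
      · have : F (nL α a v) = 1 := by simp only [hF]; rw [if_pos b2]
        split_ifs <;> omega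
      · rw [if_neg]
        · omega
        · rw [z0_good b1, z0_good b2, not_not]
          funext b
          rw [view_nL]
  have h2 : ∀ a v, iB (nR α) (z0 α D w) a v ≤ F v + F (nR α a v) := by
    intro a v
    unfold iB
    by_cases b1 : v ∈ Bad α D w
    · have : F v = 1 := by simp only [hF]; rw [if_pos b1]
      split_ifs <;> omega
    · by_cases b2 : nR α a v ∈ Bad α D w
      · have : F (nR α a v) = 1 := by simp only [hF]; rw [if_pos b2]
        split_ifs <;> omega
      · rw [if_neg]
        · omega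
        · rw [z0_good b1, z0_good b2, not_not]
          funext b
          rw [view_nR]
  have e1 : ∀ a, ∑ v, F (nL α a v) = ∑ v, F v := fun a =>
    Equiv.sum_comp (⟨nL α a, nL α a, h.invA a, h.invA a⟩ : Vx G ≃ Vx G) F
  have e2 : ∀ a, ∑ v, F (nR α a v) = ∑ v, F v := fun a =>
    Equiv.sum_comp (⟨nR α a, nR α a, h.invB a, h.invB a⟩ : Vx G ≃ Vx G) F
  rw [SS_eq]
  calc ∑ a, ∑ v, iA (nL α) (z0 α D w) a v + ∑ a, ∑ v, iB (nR α) (z0 α D w) a v
      ≤ ∑ a : A, ∑ v, (F v + F (nL α a v)) + ∑ a : A, ∑ v, (F v + F (nR α a v)) :=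
        add_le_add (sum_le_sum fun a _ => sum_le_sum fun v _ => h1 a v)
          (sum_le_sum fun a _ => sum_le_sum fun v _ => h2 a v)
    _ = 4 * Fintype.card A * (Bad α D w).card := by
        simp only [sum_add_distrib, e1, e2, hFs, sum_const, card_univ, smul_eq_mul]
        ring

theorem ltc_C {α : A → G} {lam : ℝ} (hm : Mix α lam) {h : A × Fin 8 → Y} {B : ℕ}
    (hE : Expd h B) (hB : 0 < B) {c0 : ℝ} (hc0 : 1 ≤ c0) (hc : (Fintype.card A : ℝ) ≤ c0 * B)
    (hlam : 256 * c0 ^ 2 * lam ≤ 1) (hd : 0 < Fintype.card A) (w : A × A × G → ZMod 2) :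
    ∃ c : A × A × G → ZMod 2, InC α (Dc h) c ∧
      ((univ.filter fun s => w s ≠ c s).card : ℝ) ≤
        ((Fintype.card A : ℝ) ^ 2 * (1 + 4 * Fintype.card A) +
          (Fintype.card A : ℝ) ^ 2 * (4 * Fintype.card A * (2048 * c0 ^ 3))) *
        (Bad α (Dc h) w).card := by
  classical
  have hlrc := lrc_of_mix hm
  have hG : (0 : ℝ) < Fintype.card G := by exact_mod_cast Fintype.card_pos
  have hc00 : (0 : ℝ) < c0 := by linarith
  set d : ℝ := (Fintype.card A : ℝ) with hd'
  have hd0 : 0 < d := by rw [hd']; exact_mod_cast hd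
  set β := (Bad α (Dc h) w).card with hβ
  have hSS := SS_z0 hm (Dc h) w
  have hSS' : (SS (nL α) (nR α) (z0 α (Dc h) w) : ℝ) ≤ 4 * d * β := by
    rw [hd', hβ]; exact_mod_cast hSS
  by_cases hs : (SS (nL α) (nR α) (z0 α (Dc h) w) : ℝ) ≤ 1 / (2048 * c0 ^ 3) * Fintype.card G
  · obtain ⟨z, hz, hz0, hch⟩ := consistency hlrc hG hE hB hc0 hc hlam hd (z0 α (Dc h) w)
      (z0_InT α (Dc h) w) hs
    have hall : ∀ v, dd (nL α) (nR α) z v = 0 := by
      intro v
      have := (Finset.sum_eq_zero_iff.1 hz0) v (mem_univ v)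
      exact this
    have cA : ∀ a v, z v a = z (nL α a v) a := by
      intro a v
      have h1 : dA (nL α) z v = 0 := by
        have := hall v; unfold dd at this; omega
      by_contra hcon
      have : a ∈ univ.filter fun a => z v a ≠ z (nL α a v) a := mem_filter.2 ⟨mem_univ _, hcon⟩
      unfold dA at h1
      rw [card_eq_zero] at h1
      rw [h1] at this
      simp at this
    have cB : ∀ b v, (fun a => z v a b) = fun a => z (nR α b v) a b := by
      intro b v
      have h1 : dB (nR α) z v = 0 := by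
        have := hall v; unfold dd at this; omega
      by_contra hcon
      have : b ∈ univ.filter fun b => (fun a => z v a b) ≠ fun a => z (nR α b v) a b :=
        mem_filter.2 ⟨mem_univ _, hcon⟩
      unfold dB at h1
      rw [card_eq_zero] at h1
      rw [h1] at this
      simp at this
    set c : A × A × G → ZMod 2 := fun s => z (s.2.2, false, false) s.1 s.2.1 with hcdef
    have hview : ∀ v, view α c v = z v := by
      rintro ⟨g, i, j⟩
      funext a b
      have k1 : ∀ v, z v a b = z (nL α a v) a b := fun v => congrFun (cA a v) b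
      have k2 : ∀ v, z v a b = z (nR α b v) a b := fun v => congrFun (cB b v) a
      cases i <;> cases j
      · simp [view, sq, hcdef]
      · rw [k2]; simp [view, sq, hcdef, nR]
      · rw [k1]; simp [view, sq, hcdef, nL]
      · rw [k1, k2]; simp [view, sq, hcdef, nL, nR]
    refine ⟨c, fun v => by rw [hview]; exact hz v, ?_⟩
    have hsub : (univ.filter fun s => w s ≠ c s) ⊆
        ((Bad α (Dc h) w) ∪ (univ.filter fun v => z v ≠ z0 α (Dc h) w v)).biUnion fun v =>
          (univ : Finset (A × A)).image fun p => (p.1, p.2, v.1) := by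
      rintro ⟨a, b, g⟩ hs
      have hs := (mem_filter.1 hs).2
      rw [mem_biUnion]
      refine ⟨(g, false, false), ?_, ?_⟩
      · rw [mem_union]
        by_contra hcon
        rw [not_or] at hcon
        apply hs
        have h1 := z0_good hcon.1
        have h2 : z (g, false, false) = z0 α (Dc h) w (g, false, false) := by
          by_contra hne
          exact hcon.2 (mem_filter.2 ⟨mem_univ _, hne⟩)
        have h3 : c (a, b, g) = z (g, false, false) a b := rfl
        rw [h3, h2, h1]
        simp [view, sq]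
      · rw [mem_image]
        exact ⟨(a, b), mem_univ _, rfl⟩
    have hcard : (univ.filter fun s => w s ≠ c s).card ≤
        (β + SS (nL α) (nR α) (z0 α (Dc h) w)) * (Fintype.card A * Fintype.card A) := by
      refine (card_le_card hsub).trans (card_biUnion_le.trans ?_)
      calc _ ≤ ∑ v ∈ (Bad α (Dc h) w) ∪ (univ.filter fun v => z v ≠ z0 α (Dc h) w v),
            Fintype.card A * Fintype.card A := by
              refine sum_le_sum fun v _ => card_image_le.trans ?_
              rw [card_univ, Fintype.card_prod]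
        _ = _ := by rw [sum_const, smul_eq_mul]
        _ ≤ _ := Nat.mul_le_mul_right _ ((card_union_le _ _).trans (Nat.add_le_add_left hch _))
    have hcard' : ((univ.filter fun s => w s ≠ c s).card : ℝ) ≤
        (β + SS (nL α) (nR α) (z0 α (Dc h) w)) * (d * d) := by
      rw [hd']; exact_mod_cast hcard
    refine hcard'.trans ?_
    have h1 : ((β : ℝ) + SS (nL α) (nR α) (z0 α (Dc h) w)) * (d * d) ≤
        (β + 4 * d * β) * (d * d) := by gcongr
    refine h1.trans ?_
    have hβ0 : (0 : ℝ) ≤ β := Nat.cast_nonneg _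
    have h3 : (0 : ℝ) ≤ d ^ 2 * (4 * d * (2048 * c0 ^ 3)) :=
      mul_nonneg (sq_nonneg _) (mul_nonneg (by linarith) (mul_nonneg (by norm_num)
        (pow_nonneg hc00.le 3)))
    have h2 : (0 : ℝ) ≤ d ^ 2 * (4 * d * (2048 * c0 ^ 3)) * β := mul_nonneg h3 hβ0
    nlinarith
  · push Not at hs
    refine ⟨0, fun v => ⟨fun a => (Dc h).zero_mem, fun b => (Dc h).zero_mem⟩, ?_⟩
    have h1 : ((univ.filter fun s => w s ≠ (0 : A × A × G → ZMod 2) s).card : ℝ) ≤
        d ^ 2 * Fintype.card G := by
      have := card_le_univ (univ.filter fun s => w s ≠ (0 : A × A × G → ZMod 2) s)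
      rw [Fintype.card_prod, Fintype.card_prod] at this
      have h2 : ((univ.filter fun s => w s ≠ (0 : A × A × G → ZMod 2) s).card : ℝ) ≤
          (Fintype.card A : ℝ) * (Fintype.card A * Fintype.card G) := by exact_mod_cast this
      refine h2.trans (le_of_eq ?_)
      rw [hd']; ring
    have h2 : (Fintype.card G : ℝ) ≤ 2048 * c0 ^ 3 * (4 * d * β) := by
      have h3 : 1 / (2048 * c0 ^ 3) * Fintype.card G ≤ 4 * d * β := hs.le.trans hSS'
      have h4 : (0 : ℝ) < 2048 * c0 ^ 3 := by positivity
      have h5 := mul_le_mul_of_nonneg_left h3 h4.le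
      have h6 : 2048 * c0 ^ 3 * (1 / (2048 * c0 ^ 3) * (Fintype.card G : ℝ)) = Fintype.card G := by
        field_simp
      rwa [h6] at h5
    refine h1.trans ?_
    have h3 : d ^ 2 * (Fintype.card G : ℝ) ≤ d ^ 2 * (2048 * c0 ^ 3 * (4 * d * β)) := by gcongr
    refine h3.trans ?_
    have h4 : (0 : ℝ) ≤ d ^ 2 * (1 + 4 * d) * β := by positivity
    nlinarith

end

/-- A code given by checks of bounded weight which is good and strongly locally testable. -/
structure Base (I J Q : Type) [Fintype I] [Fintype J] [Fintype Q] [DecidableEq I]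
    (f : J → Q → I) (ε : J → Q → ZMod 2) (Δ : ℕ) (δ0 K0 : ℝ) : Prop where
  card : 12 * Fintype.card J ≤ Fintype.card I
  deg : ∀ i, (univ.filter fun p : J × Q => f p.1 p.2 = i).card ≤ Δ
  dist : ∀ x : I → ZMod 2, (∀ j, ∑ q, ε j q * x (f j q) = 0) → x ≠ 0 →
    δ0 * Fintype.card I ≤ (univ.filter fun i => x i ≠ 0).card
  ltc : ∀ w : I → ZMod 2, ∃ c : I → ZMod 2, (∀ j, ∑ q, ε j q * c (f j q) = 0) ∧
    ((univ.filter fun i => w i ≠ c i).card : ℝ) ≤
      K0 * (univ.filter fun j => ∑ q, ε j q * w (f j q) ≠ 0).card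

section

variable {G A Y : Type} [Group G] [Fintype G] [DecidableEq G] [Fintype A] [DecidableEq A]
  [Fintype Y] [DecidableEq Y]

/-- check coefficients -/
def coef (h : A × Fin 8 → Y) (y : Y) (a : A) : ZMod 2 := ∑ j : Fin 8, if h (a, j) = y then 1 else 0

theorem chk_coef (h : A × Fin 8 → Y) (y : Y) (x : A → ZMod 2) :
    chk h y x = ∑ a, coef h y a * x a := by
  rw [chk_apply, sum_filter, Fintype.sum_prod_type]
  refine sum_congr rfl fun a _ => ?_
  unfold coef
  rw [sum_mul]
  refine sum_congr rfl fun j _ => ?_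
  simp

/-- checks -/
abbrev Jt (G A Y : Type) : Type := Bool × Vx G × A × Y

/-- positions -/
def fB (α : A → G) (j : Jt G A Y) (q : A) : A × A × G :=
  if j.1 then sq α q j.2.2.1 j.2.1 else sq α j.2.2.1 q j.2.1

/-- coefficients -/
def eB (h : A × Fin 8 → Y) (j : Jt G A Y) (q : A) : ZMod 2 := coef h j.2.2.2 q

theorem sum_fB (α : A → G) (h : A × Fin 8 → Y) (w : A × A × G → ZMod 2) (j : Jt G A Y) :
    ∑ q, eB h j q * w (fB α j q) = if j.1 then chk h j.2.2.2 (fun a => view α w j.2.1 a j.2.2.1)
      else chk h j.2.2.2 (view α w j.2.1 j.2.2.1) := by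
  obtain ⟨s, v, a, y⟩ := j
  cases s
  · simp only [fB, eB, Bool.false_eq_true, if_false, chk_coef]
    rfl
  · simp only [fB, eB, if_true, chk_coef]
    rfl

theorem InC_iff (α : A → G) (h : A × Fin 8 → Y) (w : A × A × G → ZMod 2) :
    InC α (Dc h) w ↔ ∀ j : Jt G A Y, ∑ q, eB h j q * w (fB α j q) = 0 := by
  constructor
  · rintro hw ⟨s, v, a, y⟩
    rw [sum_fB]
    cases s
    · simp only [Bool.false_eq_true, if_false]
      exact mem_Dc.1 ((hw v).1 a) y
    · simp only [if_true]
      exact mem_Dc.1 ((hw v).2 a) y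
  · intro hw v
    constructor
    · intro a
      rw [mem_Dc]
      intro y
      have := hw (false, v, a, y)
      rw [sum_fB] at this
      simpa using this
    · intro b
      rw [mem_Dc]
      intro y
      have := hw (true, v, b, y)
      rw [sum_fB] at this
      simpa using this

theorem bad_le (α : A → G) (h : A × Fin 8 → Y) (w : A × A × G → ZMod 2) :
    (Bad α (Dc h) w).card ≤
      (univ.filter fun j : Jt G A Y => ∑ q, eB h j q * w (fB α j q) ≠ 0).card := by
  classical
  have : Bad α (Dc h) w ⊆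
      (univ.filter fun j : Jt G A Y => ∑ q, eB h j q * w (fB α j q) ≠ 0).image fun j => j.2.1 := by
    intro v hv
    have hv := (mem_filter.1 hv).2
    rw [mem_image]
    by_contra hcon
    push Not at hcon
    apply hv
    have h1 : ∀ s a y, ∑ q, eB h (s, v, a, y) q * w (fB α (s, v, a, y) q) = 0 := by
      intro s a y
      by_contra hne
      exact hcon (s, v, a, y) (mem_filter.2 ⟨mem_univ _, hne⟩) rfl
    constructor
    · intro a
      rw [mem_Dc]
      intro y
      have := h1 false a y
      rw [sum_fB] at this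
      simpa using this
    · intro b
      rw [mem_Dc]
      intro y
      have := h1 true b y
      rw [sum_fB] at this
      simpa using this
  exact (card_le_card this).trans card_image_le

theorem deg_fB (α : A → G) (i : A × A × G) :
    (univ.filter fun p : Jt G A Y × A => fB α p.1 p.2 = i).card ≤ 8 * Fintype.card Y := by
  have h : (univ.filter fun p : Jt G A Y × A => fB α p.1 p.2 = i).card ≤
      (univ : Finset (Bool × (Bool × Bool) × Y)).card := by
    refine card_le_card_of_injOn (fun p => (p.1.1, p.1.2.1.2, p.1.2.2.2)) ?_ ?_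
    · intro p _; exact mem_coe.2 (mem_univ _)
    · rintro ⟨⟨s, v, a, y⟩, q⟩ hp ⟨⟨s', v', a', y'⟩, q'⟩ hp' heq
      simp only [Prod.mk.injEq] at heq
      obtain ⟨rfl, hv, rfl⟩ := heq
      have hp := (mem_filter.1 (mem_coe.1 hp)).2
      have hp' := (mem_filter.1 (mem_coe.1 hp')).2
      have e := hp.trans hp'.symm
      cases s
      · simp only [fB, Bool.false_eq_true, if_false] at e
        obtain ⟨rfl, rfl, rfl⟩ := sq_inj α e hv
        rfl
      · simp only [fB, if_true] at e
        obtain ⟨rfl, rfl, rfl⟩ := sq_inj α e hv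
        rfl
  refine h.trans (le_of_eq ?_)
  rw [card_univ, Fintype.card_prod, Fintype.card_prod, Fintype.card_prod, Fintype.card_bool]
  ring

theorem base_of {α : A → G} {lam : ℝ} (hm : Mix α lam) {h : A × Fin 8 → Y} {B : ℕ}
    (hE : Expd h B) (hB : 0 < B) {c0 : ℝ} (hc0 : 1 ≤ c0) (hc : (Fintype.card A : ℝ) ≤ c0 * B)
    (hlam : 256 * c0 ^ 2 * lam ≤ 1) (hd : 0 < Fintype.card A)
    (hY : 96 * Fintype.card Y ≤ Fintype.card A) :
    Base (A × A × G) (Jt G A Y) A (fB α) (eB h) (8 * Fintype.card Y)
      (1 / (16 * c0 * (Fintype.card A : ℝ) ^ 2))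
      ((Fintype.card A : ℝ) ^ 2 * (1 + 4 * Fintype.card A) +
          (Fintype.card A : ℝ) ^ 2 * (4 * Fintype.card A * (2048 * c0 ^ 3))) where
  card := by
    simp only [Fintype.card_prod, Fintype.card_bool]
    calc 12 * (2 * (Fintype.card G * (2 * 2) * (Fintype.card A * Fintype.card Y)))
        = (Fintype.card A * Fintype.card G) * (96 * Fintype.card Y) := by ring
      _ ≤ (Fintype.card A * Fintype.card G) * Fintype.card A := Nat.mul_le_mul_left _ hY
      _ = _ := by ring
  deg i := deg_fB α i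
  dist x hx hne := by
    have hc00 : (0 : ℝ) < c0 := by linarith
    have hC := (InC_iff α h x).2 hx
    have h1 := dist_C hm (comp_dist hE hc0 hc) hd hC hne
    have hl : lam ≤ 1 / (4 * c0) := by
      have h2 : lam ≤ 1 / (256 * c0 ^ 2) := by
        rw [le_div_iff₀ (by positivity)]; linarith
      refine h2.trans ?_
      rw [div_le_div_iff₀ (by positivity) (by positivity)]
      nlinarith
    have hG : (0 : ℝ) < Fintype.card G := by exact_mod_cast Fintype.card_pos
    have hA : (0 : ℝ) < Fintype.card A := by exact_mod_cast hd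
    have h2 : 1 / (4 * c0) * Fintype.card G ≤ 4 * (univ.filter fun s => x s ≠ 0).card := by
      refine le_trans ?_ h1
      refine mul_le_mul_of_nonneg_right ?_ hG.le
      have : 1 / (2 * c0) = 1 / (4 * c0) + 1 / (4 * c0) := by field_simp; norm_num
      linarith
    rw [Fintype.card_prod, Fintype.card_prod]
    push_cast
    have h3 : 1 / (16 * c0 * (Fintype.card A : ℝ) ^ 2) *
        ((Fintype.card A : ℝ) * (Fintype.card A * Fintype.card G)) =
        (1 / (4 * c0) * Fintype.card G) / 4 := by field_simp; norm_num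
    rw [h3]
    linarith
  ltc w := by
    obtain ⟨c, hcC, hcd⟩ := ltc_C hm hE hB hc0 hc hlam hd w
    refine ⟨c, (InC_iff α h c).1 hcC, hcd.trans ?_⟩
    have hc00 : (0 : ℝ) < c0 := by linarith
    have := bad_le α h w
    gcongr

end

/-- Existence. -/
theorem exists_base : ∃ (Q : Type) (_ : Fintype Q) (Δ : ℕ) (δ0 K0 : ℝ),
    0 < δ0 ∧ 0 ≤ K0 ∧ ∀ n : ℕ, ∃ (I J : Type) (_ : Fintype I) (_ : DecidableEq I) (_ : Fintype J)
      (f : J → Q → I) (ε : J → Q → ZMod 2), n ≤ Fintype.card I ∧ Base I J Q f ε Δ δ0 K0 := by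
  classical
  obtain ⟨K, hK⟩ : ∃ K : ℕ, K = 160000 * 225 := ⟨_, rfl⟩
  obtain ⟨c0, hc0⟩ : ∃ c0 : ℝ, c0 = 450 * K := ⟨_, rfl⟩
  have hK0 : 0 < K := by rw [hK]; norm_num
  have hK1 : (1 : ℝ) ≤ K := by exact_mod_cast hK0
  have hc01 : (1 : ℝ) ≤ c0 := by rw [hc0]; linarith
  obtain ⟨k0, hk0⟩ := exists_mix (lam := 1 / (256 * c0 ^ 2)) (by positivity)
  set k : ℕ := k0 + K + 2 with hk
  set n' : ℕ := 15 ^ (k - 2) with hn'
  have hn'K : K ≤ n' := by
    rw [hn']
    have h1 : k - 2 < 15 ^ (k - 2) := Nat.lt_pow_self (by norm_num)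
    have h2 : K ≤ k - 2 := by omega
    omega
  have hn'0 : 0 < n' := lt_of_lt_of_le hK0 hn'K
  obtain ⟨h, hh⟩ := exists_good_map 225 n' (by norm_num) hn'0
  have hcardA : Fintype.card (Fin k → Lb) = 225 * n' := by
    rw [Fintype.card_fun, Fintype.card_fin, card_Lb, hn']
    have : k = (k - 2) + 2 := by omega
    conv_lhs => rw [this]
    rw [pow_add]
    ring
  let e : (Fin k → Lb) ≃ Fin (225 * n') := Fintype.equivFinOfCardEq hcardA
  let hm : (Fin k → Lb) × Fin 8 → Fin n' := fun p => h (e p.1, p.2)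
  set B : ℕ := n' / K with hB
  have hB0 : 0 < B := Nat.div_pos hn'K hK0
  have hE : Expd hm B := by
    intro U hU
    rcases U.eq_empty_or_nonempty with h0 | h0
    · subst h0; simp
    · have h1 := hh (U.image e) (h0.image e) (by
        rw [card_image_of_injective _ e.injective]
        have : K * U.card ≤ K * B := Nat.mul_le_mul_left K hU
        have h2 : K * B ≤ n' := Nat.mul_div_le n' K
        rw [← hK]
        exact this.trans h2)
      rw [card_image_of_injective _ e.injective] at h1
      have h2 : ((U.image e) ×ˢ (univ : Finset (Fin 8))).image h = nb hm U := by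
        ext y
        rw [mem_nb, mem_image]
        constructor
        · rintro ⟨⟨i, j⟩, hp, rfl⟩
          rw [mem_product] at hp
          obtain ⟨a, ha, hai⟩ := mem_image.1 hp.1
          exact ⟨(a, j), ha, by simp only [hm]; rw [hai]⟩
        · rintro ⟨⟨a, j⟩, hp, rfl⟩
          exact ⟨(e a, j), mem_product.2 ⟨mem_image_of_mem _ hp, mem_univ _⟩, rfl⟩
      rw [h2] at h1
      exact h1.le
  have hc : (Fintype.card (Fin k → Lb) : ℝ) ≤ c0 * B := by
    rw [hcardA, hc0]
    have h1 : n' < K * (B + 1) := by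
      have := Nat.lt_div_mul_add (a := n') hK0
      rw [hB]
      calc n' < n' / K * K + K := this
        _ = K * (n' / K + 1) := by ring
    have h2 : n' ≤ 2 * (K * B) := by
      have : K * (B + 1) ≤ 2 * (K * B) := by nlinarith
      omega
    have h3 : (n' : ℝ) ≤ 2 * (K * B) := by exact_mod_cast h2
    push_cast
    nlinarith
  have hd : 0 < Fintype.card (Fin k → Lb) := by rw [hcardA]; positivity
  have hY : 96 * Fintype.card (Fin n') ≤ Fintype.card (Fin k → Lb) := by
    rw [hcardA, Fintype.card_fin]; omega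
  have hlam : 256 * c0 ^ 2 * (1 / (256 * c0 ^ 2)) ≤ 1 := by
    rw [mul_one_div_cancel (by positivity)]
  refine ⟨Fin k → Lb, inferInstance, 8 * Fintype.card (Fin n'),
    1 / (16 * c0 * (Fintype.card (Fin k → Lb) : ℝ) ^ 2),
    ((Fintype.card (Fin k → Lb) : ℝ) ^ 2 * (1 + 4 * Fintype.card (Fin k → Lb)) +
          (Fintype.card (Fin k → Lb) : ℝ) ^ 2 * (4 * Fintype.card (Fin k → Lb) * (2048 * c0 ^ 3))),
    ?_, by positivity, fun n => ?_⟩
  · have : (0 : ℝ) < Fintype.card (Fin k → Lb) := by exact_mod_cast hd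
    positivity
  · obtain ⟨G, gG, fG, α, hn, hmix⟩ := hk0 k (by omega) n
    refine ⟨(Fin k → Lb) × (Fin k → Lb) × G, Jt G (Fin k → Lb) (Fin n'), inferInstance,
      inferInstance, inferInstance, fB α, eB hm, ?_, base_of hmix hE hB0 hc01 hc hlam hd hY⟩
    rw [Fintype.card_prod, Fintype.card_prod]
    calc n ≤ Fintype.card G := hn
      _ ≤ Fintype.card (Fin k → Lb) * (Fintype.card (Fin k → Lb) * Fintype.card G) := by
        rw [← mul_assoc]
        exact Nat.le_mul_of_pos_left _ (Nat.mul_pos hd hd)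

end Pool.Agent.K3h39.LT
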