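import Pool.Agent.K3h39.LT.Exp1

/-!
# Expander mixing for finite groups with labelled generators
-/

set_option autoImplicit false
set_option linter.unusedSectionVars false

namespace Pool.Agent.K3h39.LT

open Pool.Agent.H494R3.GT

/-- labels of the generators -/
abbrev Lb : Type := Fin 3 × ZMod 5

theorem card_Lb : Fintype.card Lb = 15 := by
  rw [Fintype.card_prod, Fintype.card_fin, ZMod.card]

theorem tri_Gn (n : ℕ) : Tri (G := Gn n) (fun i a => ⟨sh n i a, sh_mem n i a⟩)
    (fun i a => ⟨zh n i a, zh_mem n i a⟩) where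
  w0 i := Subtype.ext (sh_zero n i)
  wadd i a b := Subtype.ext (sh_add n i a b)
  z0 i := Subtype.ext (zh_zero n i)
  zadd i a b := Subtype.ext (zh_add n i a b)
  rel0 a b := Subtype.ext (rel0 n a b)
  rel1 a b := Subtype.ext (rel1 n a b)
  rel2 a b := Subtype.ext (rel2 n a b)
  zw i a b := Subtype.ext (zrel n i a b)
  zw' i a b := Subtype.ext (zrel' n i a b)
  gen := by
    have h := Subgroup.closure_closure_coe_preimage
      (k := Set.range fun p : Fin 3 × ZMod 5 => sh n p.1 p.2)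
    have e : (Set.range fun p : Fin 3 × ZMod 5 => (⟨sh n p.1 p.2, sh_mem n p.1 p.2⟩ : Gn n)) =
        (((↑) : Gn n → Equiv.Perm (V3 n)) ⁻¹' (Set.range fun p : Fin 3 × ZMod 5 => sh n p.1 p.2)) := by
      ext x
      constructor
      · rintro ⟨p, rfl⟩; exact ⟨p, rfl⟩
      · rintro ⟨p, hp⟩; exact ⟨p, Subtype.ext hp⟩
    rw [e]
    exact h

section
variable {G : Type} [Group G] [Fintype G] {S : Type} [Fintype S] (s : S → G)

/-- one step -/
def step (f : G → ℝ) (x : G) : ℝ := ∑ p, f (s p * x)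

/-- products -/
def word {k : ℕ} (a : Fin k → S) : G := (List.ofFn fun i => s (a i)).prod

theorem word_cons {k : ℕ} (p : S) (a : Fin k → S) :
    word s (Fin.cons p a : Fin (k + 1) → S) = s p * word s a := by
  unfold word
  rw [List.ofFn_succ, List.prod_cons, Fin.cons_zero]
  simp only [Fin.cons_succ]

theorem step_sum (f : G → ℝ) : ∑ x, step s f x = Fintype.card S * ∑ x, f x := by
  unfold step
  rw [Finset.sum_comm]
  have : ∀ p, ∑ x, f (s p * x) = ∑ x, f x := fun p => Equiv.sum_comp (Equiv.mulLeft (s p)) f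
  rw [Finset.sum_congr rfl fun p _ => this p, Finset.sum_const, Finset.card_univ, nsmul_eq_mul]

theorem step_iter (k : ℕ) : ∀ (f : G → ℝ) (x : G),
    (step s)^[k] f x = ∑ a : Fin k → S, f (word s a * x) := by
  induction k with
  | zero =>
    intro f x
    rw [Function.iterate_zero, id]
    have : ∀ a : Fin 0 → S, f (word s a * x) = f x := by
      intro a; unfold word; simp
    rw [Finset.sum_congr rfl fun a _ => this a]
    simp
  | succ k ih =>
    intro f x
    rw [Function.iterate_succ_apply, ih]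
    rw [← Equiv.sum_comp (Fin.consEquiv fun _ => S), Fintype.sum_prod_type, Finset.sum_comm]
    refine Finset.sum_congr rfl fun a _ => ?_
    unfold step
    refine Finset.sum_congr rfl fun p _ => ?_
    congr 1
    have : word s ((Fin.consEquiv fun _ => S) (p, a)) = s p * word s a := word_cons s p a
    rw [this, mul_assoc]

theorem iter_bound {c : ℝ} (hc : 0 ≤ c) (h : ∀ f : G → ℝ, ∑ x, f x = 0 →
    ∑ x, (step s f x) ^ 2 ≤ c * ∑ x, (f x) ^ 2) (k : ℕ) : ∀ f : G → ℝ, ∑ x, f x = 0 →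
    ∑ x, ((step s)^[k] f x) ^ 2 ≤ c ^ k * ∑ x, (f x) ^ 2 := by
  induction k with
  | zero => intro f _; simp
  | succ k ih =>
    intro f hf
    have h1 : ∑ x, step s f x = 0 := by rw [step_sum, hf, mul_zero]
    calc ∑ x, ((step s)^[k + 1] f x) ^ 2 = ∑ x, ((step s)^[k] (step s f) x) ^ 2 := by
          rw [Function.iterate_succ]; rfl
      _ ≤ c ^ k * ∑ x, (step s f x) ^ 2 := ih _ h1
      _ ≤ c ^ k * (c * ∑ x, (f x) ^ 2) := mul_le_mul_of_nonneg_left (h f hf) (pow_nonneg hc k)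
      _ = c ^ (k + 1) * ∑ x, (f x) ^ 2 := by ring

end

/-- expander mixing for a labelled family of group elements -/
def Mix {G : Type} [Group G] [Fintype G] {A : Type} [Fintype A] (α : A → G) (lam : ℝ) : Prop :=
  ∀ f h : G → ℝ, ∑ a, ∑ g, f g * h (α a * g) ≤
    (Fintype.card A : ℝ) * (lam / 2 * (∑ g, f g ^ 2 + ∑ g, h g ^ 2) +
      (∑ g, f g) * (∑ g, h g) / Fintype.card G)

theorem Mix.right {G : Type} [Group G] [Fintype G] {A : Type} [Fintype A] {α : A → G} {lam : ℝ}
    (hm : Mix α lam) (f h : G → ℝ) : ∑ a, ∑ g, f g * h (g * (α a)⁻¹) ≤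
    (Fintype.card A : ℝ) * (lam / 2 * (∑ g, f g ^ 2 + ∑ g, h g ^ 2) +
      (∑ g, f g) * (∑ g, h g) / Fintype.card G) := by
  have h1 := hm (fun g => f g⁻¹) (fun g => h g⁻¹)
  have e : ∀ F : G → ℝ, ∑ g, F g⁻¹ = ∑ g, F g := fun F => Equiv.sum_comp (Equiv.inv G) F
  rw [e (fun g => f g ^ 2), e (fun g => h g ^ 2), e f, e h] at h1
  refine le_trans (le_of_eq ?_) h1
  refine Finset.sum_congr rfl fun a _ => ?_
  rw [← e (fun g => f g * h (g * (α a)⁻¹))]
  refine Finset.sum_congr rfl fun g _ => ?_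
  simp only [mul_inv_rev]

theorem mix_of_bound {G : Type} [Group G] [Fintype G] {A : Type} [Fintype A] {α : A → G}
    {lam c : ℝ} (hlam : 0 < lam) (hA : 0 < Fintype.card A)
    (hc : c ≤ (Fintype.card A : ℝ) ^ 2 * lam ^ 2)
    (hb : ∀ f : G → ℝ, ∑ x, f x = 0 → ∑ x, (∑ a, f (α a * x)) ^ 2 ≤ c * ∑ x, (f x) ^ 2) :
    Mix α lam := by
  intro f h
  have hG : (0 : ℝ) < Fintype.card G := by exact_mod_cast Fintype.card_pos
  set D : ℝ := (Fintype.card A : ℝ) with hD
  have hD0 : 0 < D := by rw [hD]; exact_mod_cast hA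
  set m : ℝ := (∑ g, h g) / (Fintype.card G : ℝ) with hm
  set h0 : G → ℝ := fun g => h g - m with hh0
  have hz : ∑ g, h0 g = 0 := by
    simp only [hh0, Finset.sum_sub_distrib, Finset.sum_const, Finset.card_univ, nsmul_eq_mul]
    rw [hm]; field_simp; ring
  have hsq : ∑ g, h0 g ^ 2 ≤ ∑ g, h g ^ 2 := by
    have e1 : ∑ g, h0 g ^ 2 = ∑ g, h g ^ 2 - 2 * m * ∑ g, h g + Fintype.card G * m ^ 2 := by
      simp only [hh0, sub_sq, Finset.sum_add_distrib, Finset.sum_sub_distrib, Finset.sum_const,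
        Finset.card_univ, nsmul_eq_mul]
      rw [Finset.mul_sum]
      congr 2
      refine Finset.sum_congr rfl fun g _ => by ring
    have e2 : ∑ g, h g = Fintype.card G * m := by rw [hm]; field_simp
    rw [e1, e2]
    have : 0 ≤ (Fintype.card G : ℝ) * m ^ 2 := by positivity
    nlinarith
  have hsplit : ∑ a, ∑ g, f g * h (α a * g) =
      ∑ g, f g * (∑ a, h0 (α a * g)) + D * m * ∑ g, f g := by
    rw [Finset.sum_comm]
    rw [Finset.mul_sum, ← Finset.sum_add_distrib]
    refine Finset.sum_congr rfl fun g _ => ?_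
    have : ∑ a, h0 (α a * g) = ∑ a, h (α a * g) - D * m := by
      simp only [hh0, Finset.sum_sub_distrib, Finset.sum_const, Finset.card_univ, nsmul_eq_mul]
      rfl
    rw [this, ← Finset.mul_sum]
    ring
  have hcs : ∑ g, f g * (∑ a, h0 (α a * g)) ≤
      D * lam / 2 * ∑ g, f g ^ 2 + 1 / (2 * D * lam) * ∑ g, (∑ a, h0 (α a * g)) ^ 2 := by
    rw [Finset.mul_sum, Finset.mul_sum, ← Finset.sum_add_distrib]
    refine Finset.sum_le_sum fun g _ => ?_
    set y := ∑ a, h0 (α a * g)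
    have e : D * lam / 2 * f g ^ 2 + 1 / (2 * D * lam) * y ^ 2 - f g * y =
        1 / (2 * D * lam) * (D * lam * f g - y) ^ 2 := by
      field_simp
      ring
    have : 0 ≤ 1 / (2 * D * lam) * (D * lam * f g - y) ^ 2 := by positivity
    linarith
  have h5 : 1 / (2 * D * lam) * ∑ g, (∑ a, h0 (α a * g)) ^ 2 ≤ D * lam / 2 * ∑ g, h g ^ 2 := by
    have h6 := hb h0 hz
    have h7 : 0 ≤ ∑ g, h0 g ^ 2 := Finset.sum_nonneg fun g _ => sq_nonneg _
    calc 1 / (2 * D * lam) * ∑ g, (∑ a, h0 (α a * g)) ^ 2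
        ≤ 1 / (2 * D * lam) * (D ^ 2 * lam ^ 2 * ∑ g, h0 g ^ 2) := by
          refine mul_le_mul_of_nonneg_left (h6.trans ?_) (by positivity)
          exact mul_le_mul_of_nonneg_right hc h7
      _ = D * lam / 2 * ∑ g, h0 g ^ 2 := by field_simp
      _ ≤ _ := mul_le_mul_of_nonneg_left hsq (by positivity)
  rw [hsplit]
  have e3 : D * m * ∑ g, f g = D * ((∑ g, f g) * (∑ g, h g) / Fintype.card G) := by
    rw [hm]; ring
  rw [e3]
  nlinarith

/-- Existence of the expanders. -/
theorem exists_mix {lam : ℝ} (hlam : 0 < lam) : ∃ k0 : ℕ, ∀ k, k0 ≤ k → ∀ n : ℕ,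
    ∃ (G : Type) (_ : Group G) (_ : Fintype G) (α : (Fin k → Lb) → G),
      n ≤ Fintype.card G ∧ Mix α lam := by
  obtain ⟨k0, hk0⟩ := exists_pow_lt_of_lt_one (show 0 < lam ^ 2 by positivity) lam0_lt
  refine ⟨k0, fun k hk n => ?_⟩
  classical
  let _ : Fintype (Gn n) := Fintype.ofFinite _
  refine ⟨Gn n, inferInstance, inferInstance,
    word (fun p : Lb => (⟨sh n p.1 p.2, sh_mem n p.1 p.2⟩ : Gn n)), ?_, ?_⟩
  · have := card_Gn n
    rwa [Nat.card_eq_fintype_card] at this
  · have hcard : Fintype.card (Fin k → Lb) = 15 ^ k := by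
      rw [Fintype.card_fun, Fintype.card_fin, card_Lb]
    refine mix_of_bound (c := (225 * lam0) ^ k) hlam (by rw [hcard]; positivity) ?_ ?_
    · rw [hcard]
      have h1 : lam0 ^ k ≤ lam ^ 2 :=
        (pow_le_pow_of_le_one lam0_pos.le lam0_lt.le hk).trans hk0.le
      push_cast
      rw [mul_pow, ← pow_mul, mul_comm k 2, pow_mul]
      have : (225 : ℝ) = 15 ^ 2 := by norm_num
      rw [this]
      exact mul_le_mul_of_nonneg_left h1 (by positivity)
    · intro f hf
      have h2 := iter_bound (fun p : Lb => (⟨sh n p.1 p.2, sh_mem n p.1 p.2⟩ : Gn n))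
        (c := 225 * lam0) (by have := lam0_pos; positivity)
        (fun f hf => (tri_Gn n).real_bound f hf) k f hf
      simp only [step_iter] at h2
      exact h2

end Pool.Agent.K3h39.LT
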