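import Pool.Agent.K3h39.LT.Cx2
import Pool.Agent.K3h39.LT.Exp2

/-!
# The quadripartite left-right Cayley complex and its code
-/

set_option autoImplicit false
set_option linter.unusedSectionVars false

namespace Pool.Agent.K3h39.LT

open Finset

section

variable {G A Y : Type} [Group G] [Fintype G] [DecidableEq G] [Fintype A] [DecidableEq A]
  [Fintype Y] [DecidableEq Y]

/-- vertices -/
abbrev Vx (G : Type) : Type := G × Bool × Bool

/-- left neighbours -/
def nL (α : A → G) (a : A) (v : Vx G) : Vx G :=
  (if v.2.1 then (α a)⁻¹ * v.1 else α a * v.1, !v.2.1, v.2.2)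

/-- right neighbours -/
def nR (α : A → G) (b : A) (v : Vx G) : Vx G :=
  (if v.2.2 then v.1 * α b else v.1 * (α b)⁻¹, v.2.1, !v.2.2)

/-- the square at `v` with labels `a`, `b` -/
def sq (α : A → G) (a b : A) (v : Vx G) : A × A × G :=
  (a, b, (if v.2.1 then (α a)⁻¹ else 1) * v.1 * (if v.2.2 then α b else 1))

theorem sq_nL (α : A → G) (a b : A) (v : Vx G) : sq α a b (nL α a v) = sq α a b v := by
  obtain ⟨g, i, j⟩ := v
  cases i <;> cases j <;> simp [sq, nL, mul_assoc]

theorem sq_nR (α : A → G) (a b : A) (v : Vx G) : sq α a b (nR α b v) = sq α a b v := by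
  obtain ⟨g, i, j⟩ := v
  cases i <;> cases j <;> simp [sq, nR, mul_assoc]

theorem sum_Vx (F : Vx G → ℝ) : ∑ v, F v = ∑ g, F (g, false, false) + ∑ g, F (g, false, true) +
    ∑ g, F (g, true, false) + ∑ g, F (g, true, true) := by
  rw [Fintype.sum_prod_type]
  simp only [Fintype.sum_prod_type, Fintype.sum_bool]
  simp only [sum_add_distrib]
  ring

theorem lrc_of_mix {α : A → G} {lam : ℝ} (hm : Mix α lam) :
    LRC (nL α) (nR α) lam (Fintype.card G : ℝ) where
  invA a v := by
    obtain ⟨g, i, j⟩ := v
    cases i <;> cases j <;> simp [nL]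
  invB a v := by
    obtain ⟨g, i, j⟩ := v
    cases i <;> cases j <;> simp [nR]
  comm a b v := by
    obtain ⟨g, i, j⟩ := v
    cases i <;> cases j <;> simp [nL, nR, mul_assoc]
  neA a v := by
    obtain ⟨g, i, j⟩ := v
    intro h
    have := congrArg (fun v : Vx G => v.2.1) h
    cases i <;> simp [nL] at this
  neB a v := by
    obtain ⟨g, i, j⟩ := v
    intro h
    have := congrArg (fun v : Vx G => v.2.2) h
    cases j <;> simp [nR] at this
  mixA f h hf hh := by
    have m : ∀ j, ∑ a, ∑ g, f (g, false, j) * h (α a * g, true, j) ≤ _ := fun j =>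
      hm (fun g => f (g, false, j)) (fun g => h (g, true, j))
    have m' : ∀ j, ∑ a, ∑ g, h (g, false, j) * f (α a * g, true, j) ≤ _ := fun j =>
      hm (fun g => h (g, false, j)) (fun g => f (g, true, j))
    have e : ∀ a j, ∑ g, f (g, true, j) * h ((α a)⁻¹ * g, false, j) =
        ∑ g, h (g, false, j) * f (α a * g, true, j) := by
      intro a j
      rw [← Equiv.sum_comp (Equiv.mulLeft (α a))]
      refine sum_congr rfl fun g _ => ?_
      simp [mul_comm]
    have key : ∑ a, ∑ v, f v * h (nL α a v) =
        ∑ a, ∑ g, f (g, false, false) * h (α a * g, true, false) +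
        ∑ a, ∑ g, f (g, false, true) * h (α a * g, true, true) +
        ∑ a, ∑ g, h (g, false, false) * f (α a * g, true, false) +
        ∑ a, ∑ g, h (g, false, true) * f (α a * g, true, true) := by
      rw [← sum_add_distrib, ← sum_add_distrib, ← sum_add_distrib]
      refine sum_congr rfl fun a _ => ?_
      rw [sum_Vx, ← e, ← e]
      simp [nL]
    rw [key, sum_Vx (fun v => f v ^ 2), sum_Vx (fun v => h v ^ 2), sum_Vx f, sum_Vx h]
    have h1 := m false
    have h2 := m true
    have h3 := m' false
    have h4 := m' true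
    have nf : ∀ i j, 0 ≤ ∑ g, f (g, i, j) := fun i j => sum_nonneg fun g _ => hf _
    have nh : ∀ i j, 0 ≤ ∑ g, h (g, i, j) := fun i j => sum_nonneg fun g _ => hh _
    have hG : (0 : ℝ) < Fintype.card G := by exact_mod_cast Fintype.card_pos
    have hA : (0 : ℝ) ≤ Fintype.card A := by positivity
    have f00 := nf false false
    have f01 := nf false true
    have f10 := nf true false
    have f11 := nf true true
    have h00 := nh false false
    have h01 := nh false true
    have h10 := nh true false
    have h11 := nh true true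
    refine (add_le_add (add_le_add (add_le_add h1 h2) h3) h4).trans ?_
    rw [← mul_add, ← mul_add, ← mul_add]
    refine mul_le_mul_of_nonneg_left ?_ hA
    generalize ∑ g, f (g, false, false) = F00 at *
    generalize ∑ g, f (g, false, true) = F01 at *
    generalize ∑ g, f (g, true, false) = F10 at *
    generalize ∑ g, f (g, true, true) = F11 at *
    generalize ∑ g, h (g, false, false) = H00 at *
    generalize ∑ g, h (g, false, true) = H01 at *
    generalize ∑ g, h (g, true, false) = H10 at *
    generalize ∑ g, h (g, true, true) = H11 at *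
    have key2 : F00 * H10 / (Fintype.card G : ℝ) + F01 * H11 / (Fintype.card G : ℝ) +
        H00 * F10 / (Fintype.card G : ℝ) + H01 * F11 / (Fintype.card G : ℝ) ≤
        (F00 + F01 + F10 + F11) * (H00 + H01 + H10 + H11) / (Fintype.card G : ℝ) := by
      rw [← add_div, ← add_div, ← add_div]
      refine div_le_div_of_nonneg_right ?_ hG.le
      have p1 := mul_nonneg f00 h00
      have p2 := mul_nonneg f00 h01
      have p3 := mul_nonneg f00 h11
      have p4 := mul_nonneg f01 h00
      have p5 := mul_nonneg f01 h01
      have p6 := mul_nonneg f01 h10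
      have p7 := mul_nonneg f10 h01
      have p8 := mul_nonneg f10 h10
      have p9 := mul_nonneg f10 h11
      have p10 := mul_nonneg f11 h00
      have p11 := mul_nonneg f11 h10
      have p12 := mul_nonneg f11 h11
      nlinarith
    linarith
  mixB f h hf hh := by
    have m : ∀ i, ∑ a, ∑ g, f (g, i, false) * h (g * (α a)⁻¹, i, true) ≤ _ := fun i =>
      hm.right (fun g => f (g, i, false)) (fun g => h (g, i, true))
    have m' : ∀ i, ∑ a, ∑ g, h (g, i, false) * f (g * (α a)⁻¹, i, true) ≤ _ := fun i =>
      hm.right (fun g => h (g, i, false)) (fun g => f (g, i, true))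
    have e : ∀ a i, ∑ g, f (g, i, true) * h (g * α a, i, false) =
        ∑ g, h (g, i, false) * f (g * (α a)⁻¹, i, true) := by
      intro a i
      rw [← Equiv.sum_comp (Equiv.mulRight (α a)⁻¹)]
      refine sum_congr rfl fun g _ => ?_
      simp [mul_comm]
    have key : ∑ a, ∑ v, f v * h (nR α a v) =
        ∑ a, ∑ g, f (g, false, false) * h (g * (α a)⁻¹, false, true) +
        ∑ a, ∑ g, h (g, false, false) * f (g * (α a)⁻¹, false, true) +
        ∑ a, ∑ g, f (g, true, false) * h (g * (α a)⁻¹, true, true) +
        ∑ a, ∑ g, h (g, true, false) * f (g * (α a)⁻¹, true, true) := by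
      rw [← sum_add_distrib, ← sum_add_distrib, ← sum_add_distrib]
      refine sum_congr rfl fun a _ => ?_
      rw [sum_Vx, ← e, ← e]
      simp [nR]
    rw [key, sum_Vx (fun v => f v ^ 2), sum_Vx (fun v => h v ^ 2), sum_Vx f, sum_Vx h]
    have h1 := m false
    have h2 := m' false
    have h3 := m true
    have h4 := m' true
    have nf : ∀ i j, 0 ≤ ∑ g, f (g, i, j) := fun i j => sum_nonneg fun g _ => hf _
    have nh : ∀ i j, 0 ≤ ∑ g, h (g, i, j) := fun i j => sum_nonneg fun g _ => hh _
    have hG : (0 : ℝ) < Fintype.card G := by exact_mod_cast Fintype.card_pos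
    have hA : (0 : ℝ) ≤ Fintype.card A := by positivity
    have f00 := nf false false
    have f01 := nf false true
    have f10 := nf true false
    have f11 := nf true true
    have h00 := nh false false
    have h01 := nh false true
    have h10 := nh true false
    have h11 := nh true true
    refine (add_le_add (add_le_add (add_le_add h1 h2) h3) h4).trans ?_
    rw [← mul_add, ← mul_add, ← mul_add]
    refine mul_le_mul_of_nonneg_left ?_ hA
    generalize ∑ g, f (g, false, false) = F00 at *
    generalize ∑ g, f (g, false, true) = F01 at *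
    generalize ∑ g, f (g, true, false) = F10 at *
    generalize ∑ g, f (g, true, true) = F11 at *
    generalize ∑ g, h (g, false, false) = H00 at *
    generalize ∑ g, h (g, false, true) = H01 at *
    generalize ∑ g, h (g, true, false) = H10 at *
    generalize ∑ g, h (g, true, true) = H11 at *
    have key2 : F00 * H01 / (Fintype.card G : ℝ) + H00 * F01 / (Fintype.card G : ℝ) +
        F10 * H11 / (Fintype.card G : ℝ) + H10 * F11 / (Fintype.card G : ℝ) ≤
        (F00 + F01 + F10 + F11) * (H00 + H01 + H10 + H11) / (Fintype.card G : ℝ) := by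
      rw [← add_div, ← add_div, ← add_div]
      refine div_le_div_of_nonneg_right ?_ hG.le
      have p1 := mul_nonneg f00 h00
      have p2 := mul_nonneg f00 h10
      have p3 := mul_nonneg f00 h11
      have p4 := mul_nonneg f01 h01
      have p5 := mul_nonneg f01 h11
      have p6 := mul_nonneg f01 h10
      have p7 := mul_nonneg f10 h00
      have p8 := mul_nonneg f10 h10
      have p9 := mul_nonneg f10 h01
      have p10 := mul_nonneg f11 h00
      have p11 := mul_nonneg f11 h01
      have p12 := mul_nonneg f11 h11
      nlinarith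
    linarith

/-- local view -/
def view (α : A → G) (w : A × A × G → ZMod 2) (v : Vx G) (a b : A) : ZMod 2 := w (sq α a b v)

theorem view_nL (α : A → G) (w : A × A × G → ZMod 2) (v : Vx G) (a b : A) :
    view α w (nL α a v) a b = view α w v a b := by unfold view; rw [sq_nL]

theorem view_nR (α : A → G) (w : A × A × G → ZMod 2) (v : Vx G) (a b : A) :
    view α w (nR α b v) a b = view α w v a b := by unfold view; rw [sq_nR]

/-- the code -/
def InC (α : A → G) (D : Submodule (ZMod 2) (A → ZMod 2)) (w : A × A × G → ZMod 2) : Prop :=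
  ∀ v, InT D (view α w v)

/-- a square at `v` determines `v` up to its type -/
theorem sq_inj (α : A → G) {a b a' b' : A} {v v' : Vx G} (h : sq α a b v = sq α a' b' v')
    (hv : v.2 = v'.2) : a = a' ∧ b = b' ∧ v = v' := by
  obtain ⟨g, i, j⟩ := v
  obtain ⟨g', i', j'⟩ := v'
  simp only [Prod.mk.injEq] at hv
  obtain ⟨rfl, rfl⟩ := hv
  simp only [sq, Prod.mk.injEq] at h
  obtain ⟨rfl, rfl, h⟩ := h
  refine ⟨rfl, rfl, ?_⟩
  cases i <;> cases j <;> simp at h <;> rw [h]

theorem four_count (α : A → G) (P : Vx G → A → A → Prop)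
    [∀ v a b, Decidable (P v a b)] (S : Finset (A × A × G))
    (hP : ∀ v a b, P v a b → sq α a b v ∈ S) :
    (univ.filter fun p : Vx G × A × A => P p.1 p.2.1 p.2.2).card ≤ 4 * S.card := by
  have h : (univ.filter fun p : Vx G × A × A => P p.1 p.2.1 p.2.2).card ≤
      ((univ : Finset (Bool × Bool)) ×ˢ S).card := by
    refine card_le_card_of_injOn (fun p => (p.1.2, sq α p.2.1 p.2.2 p.1)) ?_ ?_
    · intro p hp
      have := (mem_filter.1 (Finset.mem_coe.1 hp)).2
      rw [Finset.mem_coe, mem_product]
      exact ⟨mem_univ _, hP _ _ _ this⟩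
    · rintro ⟨v, a, b⟩ _ ⟨v', a', b'⟩ _ heq
      simp only [Prod.mk.injEq] at heq
      have := sq_inj α heq.2 (by
        rw [Prod.ext_iff]; exact Prod.ext_iff.1 heq.1)
      obtain ⟨rfl, rfl, rfl⟩ := this
      rfl
  rw [card_product, card_univ, Fintype.card_prod, Fintype.card_bool] at h
  exact h

/-- distance of the code -/
theorem dist_C {α : A → G} {lam δ : ℝ} (hm : Mix α lam) {D : Submodule (ZMod 2) (A → ZMod 2)}
    (hδ : ∀ x ∈ D, x ≠ 0 → δ * Fintype.card A ≤ (sp x).card) (hd : 0 < Fintype.card A)
    {w : A × A × G → ZMod 2} (hw : InC α D w) (hne : w ≠ 0) :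
    (δ - lam) * Fintype.card G ≤ 4 * (univ.filter fun s => w s ≠ 0).card := by
  classical
  have h := lrc_of_mix hm
  set f : Vx G → ℝ := fun v => if view α w v ≠ 0 then 1 else 0 with hf
  have f0 : ∀ v, 0 ≤ f v := fun v => by simp only [hf]; split_ifs <;> norm_num
  have fsq : ∀ v, f v ^ 2 = f v := fun v => by simp only [hf]; split_ifs <;> norm_num
  set U : ℝ := ∑ v, f v with hU
  have h1 := h.mixA f f f0 f0
  simp only [fsq] at h1
  rw [← hU] at h1
  have h2 : δ * Fintype.card A * U ≤ ∑ a, ∑ v, f v * f (nL α a v) := by
    rw [sum_comm, hU, mul_sum]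
    refine sum_le_sum fun v _ => ?_
    by_cases hv : view α w v = 0
    · have : f v = 0 := by simp only [hf]; rw [if_neg (by simpa using hv)]
      rw [this]; simp
    · have e1 : f v = 1 := by simp only [hf]; rw [if_pos hv]
      rw [e1]
      simp only [one_mul, mul_one]
      obtain ⟨a0, b0, hab⟩ : ∃ a0 b0, view α w v a0 b0 ≠ 0 := by
        by_contra hcon
        push Not at hcon
        exact hv (funext fun a => funext fun b => hcon a b)
      have h3 := hδ _ ((hw v).2 b0) (fun h0 => hab (congrFun h0 a0))
      refine h3.trans ?_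
      unfold sp
      rw [card_filter]
      push_cast
      refine sum_le_sum fun a _ => ?_
      split_ifs with h4
      · have : f (nL α a v) = 1 := by
          simp only [hf]
          rw [if_pos]
          intro h0
          apply h4
          rw [← view_nL, h0]
          rfl
        rw [this]
      · exact f0 _
  have hUpos : 0 < U := by
    obtain ⟨⟨a, b, g⟩, hs⟩ : ∃ s, w s ≠ 0 := by
      by_contra hcon
      push Not at hcon
      exact hne (funext hcon)
    have hv : view α w (g, false, false) ≠ 0 := by
      intro h0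
      apply hs
      have := congrFun (congrFun h0 a) b
      simpa [view, sq] using this
    have : f (g, false, false) = 1 := by simp only [hf]; rw [if_pos hv]
    have h3 : f (g, false, false) ≤ U := single_le_sum (fun v _ => f0 v) (mem_univ _)
    linarith
  have hG : (0 : ℝ) < Fintype.card G := by exact_mod_cast Fintype.card_pos
  have hA : (0 : ℝ) < Fintype.card A := by exact_mod_cast hd
  have h5 : (δ - lam) * Fintype.card G ≤ U := by
    have h6 : δ * Fintype.card A * U ≤ Fintype.card A * (lam * U + U * U / Fintype.card G) := by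
      refine h2.trans (h1.trans (le_of_eq ?_)); ring
    have h7 : Fintype.card A * (δ * U) ≤ Fintype.card A * (lam * U + U * U / Fintype.card G) := by
      linarith
    have h8 := le_of_mul_le_mul_left h7 hA
    have h9 : (δ - lam) * U ≤ U / Fintype.card G * U := by
      have : U * U / Fintype.card G = U / Fintype.card G * U := by ring
      rw [this] at h8
      linarith
    have h10 := le_of_mul_le_mul_right h9 hUpos
    rwa [le_div_iff₀ hG] at h10
  refine h5.trans ?_
  have h11 : U ≤ ((univ.filter fun p : Vx G × A × A => w (sq α p.2.1 p.2.2 p.1) ≠ 0).card : ℝ) := by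
    have e1 : ((univ.filter fun p : Vx G × A × A => w (sq α p.2.1 p.2.2 p.1) ≠ 0).card : ℝ) =
        ∑ v : Vx G, ∑ p : A × A, (if w (sq α p.1 p.2 v) ≠ 0 then (1 : ℝ) else 0) := by
      rw [card_filter, Fintype.sum_prod_type]
      push_cast
      rfl
    rw [e1, hU]
    refine sum_le_sum fun v _ => ?_
    simp only [hf]
    split_ifs with hv
    · obtain ⟨a0, b0, hab⟩ : ∃ a0 b0, view α w v a0 b0 ≠ 0 := by
        by_contra hcon
        push Not at hcon
        exact hv (funext fun a => funext fun b => hcon a b)
      have h12 : (if w (sq α a0 b0 v) ≠ 0 then (1 : ℝ) else 0) ≤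
          ∑ p : A × A, (if w (sq α p.1 p.2 v) ≠ 0 then (1 : ℝ) else 0) :=
        single_le_sum (f := fun p : A × A => if w (sq α p.1 p.2 v) ≠ 0 then (1 : ℝ) else 0)
          (fun p _ => by split_ifs <;> norm_num) (mem_univ (a0, b0))
      refine le_trans ?_ h12
      rw [if_pos (show w (sq α a0 b0 v) ≠ 0 from hab)]
    · exact sum_nonneg (f := fun p : A × A => if w (sq α p.1 p.2 v) ≠ 0 then (1 : ℝ) else 0)
        fun p _ => by split_ifs <;> norm_num
  refine h11.trans ?_
  have h12 := four_count α (fun v a b => w (sq α a b v) ≠ 0) (univ.filter fun s => w s ≠ 0)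
    (fun v a b h => mem_filter.2 ⟨mem_univ _, h⟩)
  exact_mod_cast h12

end

end Pool.Agent.K3h39.LT
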