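import Mathlib

/-!
# Counting short dual words of a masked code
-/

set_option autoImplicit false
set_option linter.unusedSectionVars false

namespace Pool.Agent.K3h39.LT

open Finset

section

variable {I Γ : Type} [Fintype I] [DecidableEq I] [Fintype Γ] [DecidableEq Γ]

/-- orthogonality to a code -/
def Perp (C : Submodule (ZMod 2) (I → ZMod 2)) (T : I → ZMod 2) : Prop :=
  ∀ y ∈ C, ∑ i, T i * y i = 0

theorem Perp.add {C : Submodule (ZMod 2) (I → ZMod 2)} {T T' : I → ZMod 2} (h : Perp C T)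
    (h' : Perp C T') : Perp C (T + T') := by
  intro y hy
  simp only [Pi.add_apply, add_mul, sum_add_distrib]
  rw [h y hy, h' y hy, add_zero]

/-- indicator -/
def ind (m : Finset I) : I → ZMod 2 := fun i => if i ∈ m then 1 else 0

theorem sum_ind (m : Finset I) (y : I → ZMod 2) : ∑ i, ind m i * y i = ∑ i ∈ m, y i := by
  simp [ind, ite_mul, sum_ite_mem]

theorem ind_inj {m m' : Finset I} (h : ind m = ind m') : m = m' := by
  ext i
  have := congrFun h i
  unfold ind at this
  by_cases h1 : i ∈ m <;> by_cases h2 : i ∈ m' <;> simp_all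

theorem zmod2_cases (a : ZMod 2) : a = 0 ∨ a = 1 := by
  revert a; decide

theorem zmod2_add_self (a : ZMod 2) : a + a = 0 := by
  revert a; decide

theorem zmod2_eq_of_add {a b : ZMod 2} (h : a + b = 0) : a = b := by
  revert a b; decide

theorem vec_add_self (a : I → ZMod 2) : a + a = 0 := by
  funext i; exact zmod2_add_self _

/-- abstract data of a masked code -/
structure Sys (C : Submodule (ZMod 2) (I → ZMod 2)) (G0 : Finset I) (ty : Γ → ZMod 3)
    (A : Γ → I → ZMod 2) (m : Γ → Finset I) (F : ℕ) : Prop where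
  good : ∀ T : I → ZMod 2, (∀ i, T i ≠ 0 → i ∈ G0) → hammingNorm T ≤ 6 → Perp C T → T = 0
  sub : ∀ γ, m γ ⊆ G0
  ne : ∀ γ, (m γ).Nonempty
  le2 : ∀ γ, (m γ).card ≤ 2
  sh : ∀ γ, (univ.filter fun γ' => ty γ' = ty γ ∧ ¬ Disjoint (m γ) (m γ')).card ≤ F

/-- same type and intersecting masks -/
def Sh (ty : Γ → ZMod 3) (m : Γ → Finset I) (γ : Γ) : Finset Γ :=
  univ.filter fun γ' => ty γ' = ty γ ∧ ¬ Disjoint (m γ) (m γ')

open Classical in
/-- candidates -/
noncomputable def Cand (C : Submodule (ZMod 2) (I → ZMod 2)) (ty : Γ → ZMod 3) (m : Γ → Finset I)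
    (t : ZMod 3) (X : I → ZMod 2) : Finset Γ :=
  univ.filter fun γ' => ty γ' = t ∧ Perp C (X + ind (m γ'))

/-- dual condition -/
def DualS (C : Submodule (ZMod 2) (I → ZMod 2)) (ty : Γ → ZMod 3)
    (A : Γ → I → ZMod 2) (m : Γ → Finset I) (S : Finset Γ) : Prop :=
  ∀ x : ZMod 3 → I → ZMod 2, (∀ t, x t ∈ C) →
    ∑ γ ∈ S, (∑ i, A γ i * x (ty γ) i + ∑ j ∈ m γ, x (ty γ + 1) j) = 0

variable {C : Submodule (ZMod 2) (I → ZMod 2)} {G0 : Finset I} {ty : Γ → ZMod 3}
    {A : Γ → I → ZMod 2} {m : Γ → Finset I} {F : ℕ}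

theorem mem_Sh {γ γ' : Γ} : γ' ∈ Sh ty m γ ↔ ty γ' = ty γ ∧ ¬ Disjoint (m γ) (m γ') := by
  simp [Sh]

theorem mem_Cand {t : ZMod 3} {X : I → ZMod 2} {γ' : Γ} :
    γ' ∈ Cand C ty m t X ↔ ty γ' = t ∧ Perp C (X + ind (m γ')) := by
  classical
  simp [Cand]

theorem norm_ind_le (m : Finset I) : hammingNorm (ind m) ≤ m.card := by
  unfold hammingNorm
  refine card_le_card fun i hi => ?_
  have := (mem_filter.1 hi).2
  by_contra h
  exact this (by simp [ind, h])

theorem norm_add_le (a b : I → ZMod 2) : hammingNorm (a + b) ≤ hammingNorm a + hammingNorm b := by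
  unfold hammingNorm
  refine le_trans (card_le_card fun i hi => ?_) (card_union_le _ _)
  have := (mem_filter.1 hi).2
  rw [mem_union, mem_filter, mem_filter]
  by_contra h
  push Not at h
  simp only [mem_univ, true_implies] at h
  apply this
  simp [h.1, h.2]

theorem norm_sum_le (S : Finset Γ) (g : Γ → I → ZMod 2) :
    hammingNorm (∑ γ ∈ S, g γ) ≤ ∑ γ ∈ S, hammingNorm (g γ) := by
  induction S using Finset.induction_on with
  | empty => simp
  | insert a s ha ih =>
    rw [sum_insert ha, sum_insert ha]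
    exact (norm_add_le _ _).trans (Nat.add_le_add_left ih _)

theorem Sys.cand_card (h : Sys C G0 ty A m F) (t : ZMod 3) (X : I → ZMod 2) :
    (Cand C ty m t X).card ≤ F := by
  rcases (Cand C ty m t X).eq_empty_or_nonempty with h0 | ⟨γ, hγ⟩
  · rw [h0]; simp
  · refine le_trans (card_le_card fun γ' hγ' => ?_) (h.sh γ)
    rw [mem_Cand] at hγ hγ'
    rw [mem_filter]
    refine ⟨mem_univ _, hγ'.1.trans hγ.1.symm, ?_⟩
    have h1 := hγ.2.add hγ'.2
    have h2 : X + ind (m γ) + (X + ind (m γ')) = ind (m γ) + ind (m γ') := by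
      have := vec_add_self X
      calc X + ind (m γ) + (X + ind (m γ')) = (X + X) + (ind (m γ) + ind (m γ')) := by abel
        _ = _ := by rw [this, zero_add]
    rw [h2] at h1
    have h3 : ind (m γ) + ind (m γ') = 0 := by
      refine h.good _ ?_ ?_ h1
      · intro i hi
        by_contra hcon
        apply hi
        have e1 : i ∉ m γ := fun h' => hcon (h.sub γ h')
        have e2 : i ∉ m γ' := fun h' => hcon (h.sub γ' h')
        simp [ind, e1, e2]
      · have a1 := norm_ind_le (m γ)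
        have a2 := norm_ind_le (m γ')
        have a3 := h.le2 γ
        have a4 := h.le2 γ'
        have a5 := norm_add_le (ind (m γ)) (ind (m γ'))
        omega
    have h4 : ind (m γ) = ind (m γ') := by
      funext i
      exact zmod2_eq_of_add (congrFun h3 i)
    rw [ind_inj h4, disjoint_self]
    exact (h.ne γ').ne_empty

theorem Sys.sh_card (h : Sys C G0 ty A m F) (γ : Γ) : (Sh ty m γ).card ≤ F := h.sh γ

theorem DualS.perp {S : Finset Γ} (hS : DualS C ty A m S) (t : ZMod 3) :
    Perp C (∑ γ ∈ S.filter (fun γ => ty γ = t + 1), A γ +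
      ∑ γ ∈ S.filter (fun γ => ty γ = t), ind (m γ)) := by
  intro y hy
  have h := hS (fun s => if s = t + 1 then y else 0) (fun s => by
    by_cases hs : s = t + 1
    · simp only [if_pos hs]; exact hy
    · simp only [if_neg hs]; exact C.zero_mem)
  rw [← h, sum_add_distrib]
  simp only [Pi.add_apply, add_mul, sum_add_distrib, Finset.sum_apply, sum_mul]
  congr 1
  · rw [sum_comm, sum_filter]
    refine sum_congr rfl fun γ _ => ?_
    by_cases hs : ty γ = t + 1
    · simp only [if_pos hs]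
    · simp [if_neg hs]
  · rw [sum_comm, sum_filter]
    refine sum_congr rfl fun γ _ => ?_
    by_cases hs : ty γ = t
    · rw [if_pos hs, sum_ind, if_pos (by rw [hs])]
    · have : ¬ ty γ + 1 = t + 1 := fun h => hs (add_right_cancel h)
      rw [if_neg hs, if_neg this]
      simp

theorem exists_other {S : Finset Γ} (h0 : ∑ γ ∈ S, ind (m γ) = 0) {γ : Γ} (hγ : γ ∈ S) {j : I}
    (hj : j ∈ m γ) : ∃ γ' ∈ S, γ' ≠ γ ∧ j ∈ m γ' := by
  by_contra hcon
  push Not at hcon
  have h1 := congrFun h0 j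
  rw [Finset.sum_apply, sum_eq_single_of_mem γ hγ] at h1
  · simp [ind, hj] at h1
  · intro b hb hne
    simp [ind, hcon b hb hne]

theorem zmod3_cases (s t : ZMod 3) : s = t ∨ s = t + 1 ∨ s = t - 1 := by
  revert s t; decide

theorem zmod3_aux (a t0 : ZMod 3) (h1 : a ≠ t0) (h2 : a + 1 ≠ t0) : a + 1 + 1 = t0 := by
  revert a t0; decide

theorem zmod3_ne (t : ZMod 3) : t ≠ t - 1 := by
  revert t; decide

theorem Sys.triple (h : Sys C G0 ty A m F) {S : Finset Γ} (hne : S.Nonempty) (hc : S.card ≤ 3)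
    (hS : DualS C ty A m S) :
    ∃ γ1 γ2 γ3, S = {γ1, γ2, γ3} ∧
      γ2 ∈ Sh ty m γ1 ∪ Cand C ty m (ty γ1 - 1) (A γ1) ∧
      γ3 ∈ Sh ty m γ1 ∪ Sh ty m γ2 ∪ Cand C ty m (ty γ2 - 1) (A γ2) ∪
        Cand C ty m (ty γ1 - 1) (A γ1 + A γ2) := by
  by_cases hall : ∀ t, ∃ γ ∈ S, ty γ = t
  · obtain ⟨g0, h0, t0⟩ := hall 0
    obtain ⟨g1, h1, t1⟩ := hall 1
    obtain ⟨g2, h2, t2⟩ := hall 2
    have n01 : g0 ≠ g1 := by rintro rfl; rw [t0] at t1; exact absurd t1 (by decide)
    have n02 : g0 ≠ g2 := by rintro rfl; rw [t0] at t2; exact absurd t2 (by decide)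
    have n12 : g1 ≠ g2 := by rintro rfl; rw [t1] at t2; exact absurd t2 (by decide)
    have hSe : ({g0, g1, g2} : Finset Γ) = S := by
      refine eq_of_subset_of_card_le ?_ ?_
      · intro x hx
        simp only [mem_insert, mem_singleton] at hx
        rcases hx with rfl | rfl | rfl <;> assumption
      · have : ({g0, g1, g2} : Finset Γ).card = 3 := card_eq_three.2 ⟨g0, g1, g2, n01, n02, n12, rfl⟩
        rw [this]; exact hc
    have f0 : S.filter (fun γ => ty γ = 0) = {g0} := by
      rw [← hSe]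
      ext x
      simp only [mem_filter, mem_insert, mem_singleton]
      constructor
      · rintro ⟨rfl | rfl | rfl, hx⟩
        · rfl
        · rw [t1] at hx; exact absurd hx (by decide)
        · rw [t2] at hx; exact absurd hx (by decide)
      · rintro rfl; exact ⟨Or.inl rfl, t0⟩
    have f1 : S.filter (fun γ => ty γ = 1) = {g1} := by
      rw [← hSe]
      ext x
      simp only [mem_filter, mem_insert, mem_singleton]
      constructor
      · rintro ⟨rfl | rfl | rfl, hx⟩
        · rw [t0] at hx; exact absurd hx (by decide)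
        · rfl
        · rw [t2] at hx; exact absurd hx (by decide)
      · rintro rfl; exact ⟨Or.inr (Or.inl rfl), t1⟩
    have f2 : S.filter (fun γ => ty γ = 2) = {g2} := by
      rw [← hSe]
      ext x
      simp only [mem_filter, mem_insert, mem_singleton]
      constructor
      · rintro ⟨rfl | rfl | rfl, hx⟩
        · rw [t0] at hx; exact absurd hx (by decide)
        · rw [t1] at hx; exact absurd hx (by decide)
        · rfl
      · rintro rfl; exact ⟨Or.inr (Or.inr rfl), t2⟩
    refine ⟨g0, g2, g1, ?_, ?_, ?_⟩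
    · rw [← hSe]
      ext x
      simp only [mem_insert, mem_singleton]
      tauto
    · rw [mem_union]; right
      rw [mem_Cand, t0, t2]
      refine ⟨by decide, ?_⟩
      have := hS.perp 2
      rw [show (2 : ZMod 3) + 1 = 0 by decide, f0, f2, sum_singleton, sum_singleton] at this
      exact this
    · rw [mem_union, mem_union]; left; right
      rw [mem_Cand, t2, t1]
      refine ⟨by decide, ?_⟩
      have := hS.perp 1
      rw [show (1 : ZMod 3) + 1 = 2 by decide, f2, f1, sum_singleton, sum_singleton] at this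
      exact this
  · push Not at hall
    obtain ⟨t0, ht0⟩ := hall
    have hex : ∃ t, (∃ γ ∈ S, ty γ = t) ∧ ∀ γ ∈ S, ty γ ≠ t + 1 := by
      obtain ⟨γ, hγ⟩ := hne
      by_cases h1 : ∀ γ' ∈ S, ty γ' ≠ ty γ + 1
      · exact ⟨ty γ, ⟨γ, hγ, rfl⟩, h1⟩
      · push Not at h1
        obtain ⟨γ', hγ', h2⟩ := h1
        refine ⟨ty γ + 1, ⟨γ', hγ', h2⟩, ?_⟩
        have : ty γ + 1 + 1 = t0 := by
          have e1 : ty γ ≠ t0 := ht0 γ hγ
          have e2 : ty γ + 1 ≠ t0 := by rw [← h2]; exact ht0 γ' hγ'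
          exact zmod3_aux _ _ e1 e2
        rw [this]; exact ht0
    obtain ⟨t, ⟨γ, hγ, hγt⟩, ht⟩ := hex
    have hemp : S.filter (fun γ => ty γ = t + 1) = ∅ := filter_eq_empty_iff.2 fun {x} hx => ht x hx
    have hp := hS.perp t
    rw [hemp, sum_empty, zero_add] at hp
    have hz : ∑ γ ∈ S.filter (fun γ => ty γ = t), ind (m γ) = 0 := by
      refine h.good _ ?_ ?_ hp
      · intro i hi
        by_contra hcon
        apply hi
        rw [Finset.sum_apply]
        refine sum_eq_zero fun γ' _ => ?_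
        have : i ∉ m γ' := fun h' => hcon (h.sub γ' h')
        simp [ind, this]
      · refine (norm_sum_le _ _).trans ?_
        calc ∑ γ ∈ S.filter (fun γ => ty γ = t), hammingNorm (ind (m γ))
            ≤ ∑ γ ∈ S.filter (fun γ => ty γ = t), 2 :=
              sum_le_sum fun γ _ => (norm_ind_le _).trans (h.le2 γ)
          _ = (S.filter (fun γ => ty γ = t)).card * 2 := by rw [sum_const, smul_eq_mul]
          _ ≤ 3 * 2 := Nat.mul_le_mul_right _ ((card_filter_le _ _).trans hc)
          _ = 6 := rfl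
    have hoth : ∀ γ ∈ S, ty γ = t → ∃ γ' ∈ S, γ' ≠ γ ∧ γ' ∈ Sh ty m γ ∧ ty γ' = t := by
      intro γ hγ hγt
      obtain ⟨j, hj⟩ := h.ne γ
      obtain ⟨γ', h1, h2, h3⟩ := exists_other hz (mem_filter.2 ⟨hγ, hγt⟩) hj
      rw [mem_filter] at h1
      refine ⟨γ', h1.1, h2, ?_, h1.2⟩
      rw [mem_Sh]
      refine ⟨h1.2.trans hγt.symm, ?_⟩
      rw [not_disjoint_iff]
      exact ⟨j, hj, h3⟩
    obtain ⟨γ', hγ', hne', hsh, hγ't⟩ := hoth γ hγ hγt
    by_cases hrest : ∀ x ∈ S, x = γ ∨ x = γ'
    · refine ⟨γ, γ', γ', ?_, mem_union_left _ hsh, ?_⟩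
      · ext x
        simp only [mem_insert, mem_singleton]
        constructor
        · intro hx; rcases hrest x hx with h | h <;> tauto
        · rintro (rfl | rfl | rfl) <;> assumption
      · rw [mem_union, mem_union, mem_union]; left; left; right
        rw [mem_Sh]
        refine ⟨rfl, ?_⟩
        rw [disjoint_self]; exact (h.ne γ').ne_empty
    · push Not at hrest
      obtain ⟨γ'', hγ'', n1, n2⟩ := hrest
      have hSe : ({γ, γ', γ''} : Finset Γ) = S := by
        refine eq_of_subset_of_card_le ?_ ?_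
        · intro x hx
          simp only [mem_insert, mem_singleton] at hx
          rcases hx with rfl | rfl | rfl <;> assumption
        · have : ({γ, γ', γ''} : Finset Γ).card = 3 :=
            card_eq_three.2 ⟨γ, γ', γ'', hne'.symm, n1.symm, n2.symm, rfl⟩
          rw [this]; exact hc
      refine ⟨γ, γ', γ'', hSe.symm, mem_union_left _ hsh, ?_⟩
      by_cases h3 : ty γ'' = t
      · obtain ⟨γ3, a1, a2, a3, a4⟩ := hoth γ'' hγ'' h3
        rw [mem_Sh] at a3
        have hmem : γ3 ∈ ({γ, γ', γ''} : Finset Γ) := by rw [hSe]; exact a1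
        simp only [mem_insert, mem_singleton] at hmem
        rw [mem_union, mem_union, mem_union]; left; left
        rcases hmem with rfl | rfl | rfl
        · left; rw [mem_Sh]
          exact ⟨a3.1.symm, fun hd => a3.2 hd.symm⟩
        · right; rw [mem_Sh]
          exact ⟨a3.1.symm, fun hd => a3.2 hd.symm⟩
        · exact absurd rfl a2
      · have h4 : ty γ'' ≠ t + 1 := ht _ hγ''
        have h5 : ty γ'' = t - 1 := by
          rcases zmod3_cases (ty γ'') t with h | h | h
          · exact absurd h h3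
          · exact absurd h h4
          · exact h
        rw [mem_union]; right
        rw [mem_Cand, hγt]
        refine ⟨h5, ?_⟩
        have hp' := hS.perp (t - 1)
        have f1 : S.filter (fun γ => ty γ = t - 1 + 1) = {γ, γ'} := by
          rw [← hSe, sub_add_cancel]
          ext x
          simp only [mem_filter, mem_insert, mem_singleton]
          constructor
          · rintro ⟨rfl | rfl | rfl, hx⟩
            · exact Or.inl rfl
            · exact Or.inr rfl
            · exact absurd hx h3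
          · rintro (rfl | rfl)
            · exact ⟨Or.inl rfl, hγt⟩
            · exact ⟨Or.inr (Or.inl rfl), hγ't⟩
        have hne3 : t ≠ t - 1 := zmod3_ne t
        have f2 : S.filter (fun γ => ty γ = t - 1) = {γ''} := by
          rw [← hSe]
          ext x
          simp only [mem_filter, mem_insert, mem_singleton]
          constructor
          · rintro ⟨rfl | rfl | rfl, hx⟩
            · rw [hγt] at hx; exact absurd hx hne3
            · rw [hγ't] at hx; exact absurd hx hne3
            · rfl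
          · rintro rfl; exact ⟨Or.inr (Or.inr rfl), h5⟩
        rw [f1, f2, sum_singleton, sum_pair hne'.symm] at hp'
        exact hp'

open Classical in
theorem Sys.count (h : Sys C G0 ty A m F) :
    ((univ : Finset (Finset Γ)).filter fun S => S.Nonempty ∧ S.card ≤ 3 ∧
      DualS C ty A m S).card ≤ 8 * F ^ 2 * Fintype.card Γ := by
  set N1 : Γ → Finset Γ := fun γ1 => Sh ty m γ1 ∪ Cand C ty m (ty γ1 - 1) (A γ1) with hN1
  set N2 : Γ → Γ → Finset Γ := fun γ1 γ2 => Sh ty m γ1 ∪ Sh ty m γ2 ∪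
    Cand C ty m (ty γ2 - 1) (A γ2) ∪ Cand C ty m (ty γ1 - 1) (A γ1 + A γ2) with hN2
  have c1 : ∀ γ1, (N1 γ1).card ≤ 2 * F := by
    intro γ1
    have a1 := h.sh_card γ1
    have a2 := h.cand_card (ty γ1 - 1) (A γ1)
    have a3 := card_union_le (Sh ty m γ1) (Cand C ty m (ty γ1 - 1) (A γ1))
    simp only [hN1]
    omega
  have c2 : ∀ γ1 γ2, (N2 γ1 γ2).card ≤ 4 * F := by
    intro γ1 γ2
    have a1 := h.sh_card γ1
    have a2 := h.sh_card γ2
    have a3 := h.cand_card (ty γ2 - 1) (A γ2)
    have a4 := h.cand_card (ty γ1 - 1) (A γ1 + A γ2)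
    have b1 := card_union_le (Sh ty m γ1 ∪ Sh ty m γ2 ∪ Cand C ty m (ty γ2 - 1) (A γ2))
      (Cand C ty m (ty γ1 - 1) (A γ1 + A γ2))
    have b2 := card_union_le (Sh ty m γ1 ∪ Sh ty m γ2) (Cand C ty m (ty γ2 - 1) (A γ2))
    have b3 := card_union_le (Sh ty m γ1) (Sh ty m γ2)
    simp only [hN2]
    omega
  have hsub : ((univ : Finset (Finset Γ)).filter fun S => S.Nonempty ∧ S.card ≤ 3 ∧
      DualS C ty A m S) ⊆
      (univ : Finset Γ).biUnion fun γ1 => (N1 γ1).biUnion fun γ2 =>
        (N2 γ1 γ2).image fun γ3 => ({γ1, γ2, γ3} : Finset Γ) := by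
    intro S hS
    obtain ⟨-, hS1, hS2, hS3⟩ := mem_filter.1 hS
    obtain ⟨γ1, γ2, γ3, rfl, h1, h2⟩ := h.triple hS1 hS2 hS3
    rw [mem_biUnion]
    refine ⟨γ1, mem_univ _, ?_⟩
    rw [mem_biUnion]
    refine ⟨γ2, h1, ?_⟩
    rw [mem_image]
    exact ⟨γ3, h2, rfl⟩
  refine (card_le_card hsub).trans (card_biUnion_le.trans ?_)
  calc ∑ γ1 : Γ, ((N1 γ1).biUnion fun γ2 =>
        (N2 γ1 γ2).image fun γ3 => ({γ1, γ2, γ3} : Finset Γ)).card
      ≤ ∑ γ1 : Γ, 2 * F * (4 * F) := by
        refine sum_le_sum fun γ1 _ => card_biUnion_le.trans ?_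
        calc ∑ γ2 ∈ N1 γ1, ((N2 γ1 γ2).image fun γ3 => ({γ1, γ2, γ3} : Finset Γ)).card
            ≤ ∑ γ2 ∈ N1 γ1, 4 * F :=
              sum_le_sum fun γ2 _ => card_image_le.trans (c2 γ1 γ2)
          _ = (N1 γ1).card * (4 * F) := by rw [sum_const, smul_eq_mul]
          _ ≤ 2 * F * (4 * F) := Nat.mul_le_mul_right _ (c1 γ1)
    _ = 8 * F ^ 2 * Fintype.card Γ := by
        rw [sum_const, smul_eq_mul, card_univ]; ring

end

end Pool.Agent.K3h39.LT
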