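import Mathlib

/-!
# Expander codes and robust testability of their tensor squares
-/

set_option autoImplicit false
set_option linter.unusedSectionVars false

namespace Pool.Agent.K3h39.LT

open Finset

section

variable {A Y : Type} [Fintype A] [DecidableEq A] [Fintype Y] [DecidableEq Y]

/-- the check `y` -/
def chk (h : A × Fin 8 → Y) (y : Y) : (A → ZMod 2) →ₗ[ZMod 2] ZMod 2 :=
  ∑ p ∈ univ.filter (fun p => h p = y), LinearMap.proj p.1

theorem chk_apply (h : A × Fin 8 → Y) (y : Y) (x : A → ZMod 2) :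
    chk h y x = ∑ p ∈ univ.filter (fun p => h p = y), x p.1 := by
  unfold chk
  rw [LinearMap.sum_apply]
  rfl

/-- the code -/
def Dc (h : A × Fin 8 → Y) : Submodule (ZMod 2) (A → ZMod 2) :=
  ⨅ y, LinearMap.ker (chk h y)

theorem mem_Dc {h : A × Fin 8 → Y} {x : A → ZMod 2} : x ∈ Dc h ↔ ∀ y, chk h y x = 0 := by
  unfold Dc
  simp only [Submodule.mem_iInf, LinearMap.mem_ker]

/-- neighbours -/
def nb (h : A × Fin 8 → Y) (U : Finset A) : Finset Y := (U ×ˢ (univ : Finset (Fin 8))).image h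

/-- support -/
def sp (x : A → ZMod 2) : Finset A := univ.filter fun a => x a ≠ 0

/-- expansion -/
def Expd (h : A × Fin 8 → Y) (B : ℕ) : Prop :=
  ∀ U : Finset A, U.card ≤ B → 6 * U.card ≤ (nb h U).card

theorem mem_nb {h : A × Fin 8 → Y} {U : Finset A} {y : Y} :
    y ∈ nb h U ↔ ∃ p : A × Fin 8, p.1 ∈ U ∧ h p = y := by
  unfold nb
  rw [mem_image]
  constructor
  · rintro ⟨p, hp, e⟩
    exact ⟨p, (mem_product.1 hp).1, e⟩
  · rintro ⟨p, hp, e⟩
    exact ⟨p, mem_product.2 ⟨hp, mem_univ _⟩, e⟩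

theorem nb_union (h : A × Fin 8 → Y) (U V : Finset A) : nb h (U ∪ V) = nb h U ∪ nb h V := by
  unfold nb
  rw [union_product, image_union]

/-- unique neighbours -/
theorem unique_nb {h : A × Fin 8 → Y} {S : Finset A} {Z : Finset Y}
    (hS : 4 * S.card < (nb h S \ Z).card) :
    ∃ y, y ∉ Z ∧ ∃ p : A × Fin 8, p.1 ∈ S ∧ h p = y ∧ ∀ p' : A × Fin 8, p'.1 ∈ S → h p' = y →
      p' = p := by
  by_contra hcon
  push Not at hcon
  have h2 : ∀ y ∈ nb h S \ Z, 2 ≤ ((S ×ˢ (univ : Finset (Fin 8))).filter (fun p => h p = y)).card := by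
    intro y hy
    rw [Finset.mem_sdiff] at hy
    obtain ⟨p, hp, hpy⟩ := mem_nb.1 hy.1
    obtain ⟨p', hp', hpy', hne⟩ := hcon y hy.2 p hp hpy
    have hsub : ({p, p'} : Finset (A × Fin 8)) ⊆
        (S ×ˢ (univ : Finset (Fin 8))).filter (fun p => h p = y) := by
      intro q hq
      rw [mem_insert, mem_singleton] at hq
      rcases hq with rfl | rfl
      · exact mem_filter.2 ⟨mem_product.2 ⟨hp, mem_univ _⟩, hpy⟩
      · exact mem_filter.2 ⟨mem_product.2 ⟨hp', mem_univ _⟩, hpy'⟩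
    have := card_le_card hsub
    rwa [card_pair (Ne.symm hne)] at this
  have h3 : 2 * (nb h S \ Z).card ≤ (S ×ˢ (univ : Finset (Fin 8))).card := by
    calc 2 * (nb h S \ Z).card = ∑ y ∈ nb h S \ Z, 2 := by rw [sum_const, smul_eq_mul, mul_comm]
      _ ≤ ∑ y ∈ nb h S \ Z, ((S ×ˢ (univ : Finset (Fin 8))).filter (fun p => h p = y)).card :=
        sum_le_sum h2
      _ = ((nb h S \ Z).biUnion fun y =>
          (S ×ˢ (univ : Finset (Fin 8))).filter (fun p => h p = y)).card := by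
        rw [card_biUnion]
        intro y _ y' _ hne
        refine disjoint_left.2 fun p hp hp' => hne ?_
        rw [← (mem_filter.1 hp).2, ← (mem_filter.1 hp').2]
      _ ≤ _ := by
        refine card_le_card fun p hp => ?_
        rw [mem_biUnion] at hp
        obtain ⟨y, -, hp⟩ := hp
        exact (mem_filter.1 hp).1
  rw [card_product, card_univ, Fintype.card_fin] at h3
  omega

/-- smoothness -/
theorem smooth {h : A × Fin 8 → Y} {B : ℕ} (hE : Expd h B) (Y0 : Finset Y)
    (hY : 2 * Y0.card ≤ B) : ∃ X : Finset A, X.card ≤ Y0.card ∧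
      ∀ x : A → ZMod 2, (∀ y, y ∉ Y0 → chk h y x = 0) → (sp x \ X).Nonempty →
        B < 2 * (sp x \ X).card := by
  have hne : ((univ : Finset (Finset A)).filter fun X => X.card ≤ B).Nonempty :=
    ⟨∅, by simp⟩
  obtain ⟨X, hX, hmin⟩ := exists_min_image _
    (fun X : Finset A => ((nb h X ∪ Y0).card : ℤ) - 5 * X.card) hne
  rw [mem_filter] at hX
  have h0 := hmin ∅ (by simp)
  have hnb0 : nb h (∅ : Finset A) = ∅ := by unfold nb; simp
  rw [hnb0] at h0
  simp only [empty_union, card_empty, Nat.cast_zero, mul_zero, sub_zero] at h0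
  have h1 := hE X hX.2
  have h2 : (nb h X).card ≤ (nb h X ∪ Y0).card := card_le_card subset_union_left
  have hXY : X.card ≤ Y0.card := by
    have h3 : ((nb h X ∪ Y0).card : ℤ) ≤ Y0.card + 5 * X.card := by linarith
    have h4 : (6 * X.card : ℤ) ≤ (nb h X ∪ Y0).card := by exact_mod_cast h1.trans h2
    omega
  refine ⟨X, hXY, fun x hx hne => ?_⟩
  by_contra hlt
  push Not at hlt
  set S := sp x \ X with hS
  have hdisj : Disjoint X S := by
    rw [hS]; exact disjoint_sdiff
  have hcard : (X ∪ S).card = X.card + S.card := card_union_of_disjoint hdisj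
  have h5 := hmin (X ∪ S) (by rw [mem_filter]; exact ⟨mem_univ _, by omega⟩)
  rw [hcard, nb_union] at h5
  have h6 : (nb h X ∪ nb h S ∪ Y0) = (nb h X ∪ Y0) ∪ (nb h S \ (nb h X ∪ Y0)) := by
    ext y; simp only [mem_union, Finset.mem_sdiff]; tauto
  have h7 : (nb h X ∪ nb h S ∪ Y0).card = (nb h X ∪ Y0).card +
      (nb h S \ (nb h X ∪ Y0)).card := by
    rw [h6, card_union_of_disjoint disjoint_sdiff]
  rw [h7] at h5
  have hSpos : 0 < S.card := card_pos.2 hne
  have h8 : 4 * S.card < (nb h S \ (nb h X ∪ Y0)).card := by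
    push_cast at h5
    have : (5 * S.card : ℤ) ≤ (nb h S \ (nb h X ∪ Y0)).card := by linarith
    omega
  obtain ⟨y, hyZ, p, hpS, hpy, huniq⟩ := unique_nb h8
  rw [mem_union, not_or] at hyZ
  have h9 := hx y hyZ.2
  rw [chk_apply, sum_eq_single p] at h9
  · have : p.1 ∈ sp x := (Finset.mem_sdiff.1 (hS ▸ hpS)).1
    exact (mem_filter.1 this).2 h9
  · intro p' hp' hne'
    by_contra hcon
    have hp'y := (mem_filter.1 hp').2
    have hsp : p'.1 ∈ sp x := mem_filter.2 ⟨mem_univ _, hcon⟩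
    by_cases hpX : p'.1 ∈ X
    · exact hyZ.1 (mem_nb.2 ⟨p', hpX, hp'y⟩)
    · exact hne' (huniq p' (by rw [hS]; exact Finset.mem_sdiff.2 ⟨hsp, hpX⟩) hp'y)
  · intro hcon
    exact (hcon (mem_filter.2 ⟨mem_univ _, hpy⟩)).elim

/-- distance -/
theorem dist_Dc {h : A × Fin 8 → Y} {B : ℕ} (hE : Expd h B) {x : A → ZMod 2} (hx : x ∈ Dc h)
    (hne : x ≠ 0) : B < 2 * (sp x).card := by
  obtain ⟨X, hX, hs⟩ := smooth hE ∅ (by simp)
  rw [card_empty, Nat.le_zero, card_eq_zero] at hX
  subst hX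
  have h1 : (sp x \ ∅) = sp x := sdiff_empty
  have := hs x (fun y _ => mem_Dc.1 hx y)
  rw [h1] at this
  apply this
  by_contra hcon
  rw [not_nonempty_iff_eq_empty] at hcon
  apply hne
  funext a
  by_contra ha
  have : a ∈ sp x := mem_filter.2 ⟨mem_univ _, ha⟩
  rw [hcon] at this
  simp at this

theorem small_zero {h : A × Fin 8 → Y} {B : ℕ} (hE : Expd h B) {x : A → ZMod 2} (hx : x ∈ Dc h)
    {X : Finset A} (hX : 2 * X.card ≤ B) (hsub : ∀ a, a ∉ X → x a = 0) : x = 0 := by
  by_contra hne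
  have h1 := dist_Dc hE hx hne
  have h2 : sp x ⊆ X := by
    intro a ha
    by_contra hcon
    exact (mem_filter.1 ha).2 (hsub a hcon)
  have := card_le_card h2
  omega

/-- number of rows meeting defects -/
theorem count_bad {h : A × Fin 8 → Y} {B : ℕ} (hE : Expd h B) {W1 W2 : A → A → ZMod 2}
    (h1 : ∀ a, W1 a ∈ Dc h) (h2 : ∀ b, (fun a => W2 a b) ∈ Dc h) :
    B * (univ.filter fun y => ∃ b, chk h y (fun a => W1 a b) ≠ 0).card ≤
      16 * (univ.filter fun p : A × A => W1 p.1 p.2 ≠ W2 p.1 p.2).card := by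
  set Y1 := univ.filter fun y => ∃ b, chk h y (fun a => W1 a b) ≠ 0 with hY1
  set e : A → ℕ := fun a => (univ.filter fun b => W1 a b ≠ W2 a b).card with he
  have hE' : (univ.filter fun p : A × A => W1 p.1 p.2 ≠ W2 p.1 p.2).card = ∑ a, e a := by
    rw [card_filter, Fintype.sum_prod_type]
    refine sum_congr rfl fun a _ => ?_
    rw [he]
    simp only [card_filter]
  have key : ∀ y ∈ Y1, B ≤ 2 * ∑ p ∈ univ.filter (fun p => h p = y), e p.1 := by
    intro y hy
    obtain ⟨b0, hb0⟩ := (mem_filter.1 hy).2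
    set r : A → ZMod 2 := fun b => chk h y (fun a => W1 a b) with hr
    have hrD : r ∈ Dc h := by
      have : r = ∑ p ∈ univ.filter (fun p => h p = y), W1 p.1 := by
        funext b
        rw [hr]
        simp only [chk_apply, Finset.sum_apply]
      rw [this]
      exact Submodule.sum_mem _ fun p _ => h1 p.1
    have hrne : r ≠ 0 := fun h0 => hb0 (congrFun h0 b0)
    have h3 := dist_Dc hE hrD hrne
    have h4 : sp r ⊆ (univ.filter (fun p => h p = y)).biUnion fun p =>
        univ.filter fun b => W1 p.1 b ≠ W2 p.1 b := by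
      intro b hb
      have hb := (mem_filter.1 hb).2
      have h5 : r b = ∑ p ∈ univ.filter (fun p => h p = y), (W1 p.1 b + W2 p.1 b) := by
        have h6 := mem_Dc.1 (h2 b) y
        rw [chk_apply] at h6
        rw [sum_add_distrib, h6, add_zero, hr]
        simp only [chk_apply]
      by_contra hcon
      apply hb
      rw [h5]
      refine sum_eq_zero fun p hp => ?_
      by_contra hne
      apply hcon
      rw [mem_biUnion]
      refine ⟨p, hp, mem_filter.2 ⟨mem_univ _, fun heq => hne ?_⟩⟩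
      rw [heq]
      exact CharTwo.add_self_eq_zero _
    have h5 := (card_le_card h4).trans card_biUnion_le
    have h6 : B ≤ 2 * (sp r).card := h3.le
    exact h6.trans (Nat.mul_le_mul_left 2 h5)
  calc B * Y1.card = ∑ y ∈ Y1, B := by rw [sum_const, smul_eq_mul, mul_comm]
    _ ≤ ∑ y ∈ Y1, 2 * ∑ p ∈ univ.filter (fun p => h p = y), e p.1 := sum_le_sum key
    _ ≤ ∑ y, 2 * ∑ p ∈ univ.filter (fun p => h p = y), e p.1 :=
        sum_le_sum_of_subset (subset_univ _)
    _ = 2 * ∑ p : A × Fin 8, e p.1 := by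
        rw [← mul_sum]
        congr 1
        exact sum_fiberwise univ h (fun p => e p.1)
    _ = 16 * ∑ a, e a := by
        rw [Fintype.sum_prod_type]
        simp only [sum_const, card_univ, Fintype.card_fin, smul_eq_mul]
        rw [← mul_sum]
        ring
    _ = _ := by rw [hE']

/-- robust testability of the tensor square -/
theorem agree {h : A × Fin 8 → Y} {B : ℕ} (hE : Expd h B) (hB : 0 < B) {W1 W2 : A → A → ZMod 2}
    (h1 : ∀ a, W1 a ∈ Dc h) (h2 : ∀ b, (fun a => W2 a b) ∈ Dc h)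
    (hsmall : 32 * (univ.filter fun p : A × A => W1 p.1 p.2 ≠ W2 p.1 p.2).card ≤ B ^ 2) :
    ∃ z : A → A → ZMod 2, (∀ a, z a ∈ Dc h) ∧ (∀ b, (fun a => z a b) ∈ Dc h) ∧
      B * ((univ.filter fun a => z a ≠ W1 a).card +
        (univ.filter fun b => (fun a => z a b) ≠ fun a => W2 a b).card) ≤
      32 * (univ.filter fun p : A × A => W1 p.1 p.2 ≠ W2 p.1 p.2).card := by
  classical
  set Ec := (univ.filter fun p : A × A => W1 p.1 p.2 ≠ W2 p.1 p.2).card with hEc
  set Y1 := univ.filter fun y => ∃ b, chk h y (fun a => W1 a b) ≠ 0 with hY1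
  set Y2 := univ.filter fun y => ∃ a, chk h y (fun b => W2 a b) ≠ 0 with hY2
  have c1 : B * Y1.card ≤ 16 * Ec := count_bad hE h1 h2
  have c2 : B * Y2.card ≤ 16 * Ec := by
    have := count_bad hE (W1 := fun b a => W2 a b) (W2 := fun b a => W1 a b) h2 h1
    refine this.trans (le_of_eq ?_)
    congr 1
    refine card_bij (fun p _ => (p.2, p.1)) ?_ ?_ ?_
    · intro p hp
      rw [mem_filter] at hp ⊢
      exact ⟨mem_univ _, Ne.symm hp.2⟩
    · rintro ⟨a, b⟩ _ ⟨a', b'⟩ _ heq
      simp only [Prod.mk.injEq] at heq ⊢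
      exact ⟨heq.2, heq.1⟩
    · rintro ⟨a, b⟩ hp
      rw [mem_filter] at hp
      exact ⟨(b, a), by rw [mem_filter]; exact ⟨mem_univ _, Ne.symm hp.2⟩, rfl⟩
  have b1 : 2 * Y1.card ≤ B := by
    have : B * (2 * Y1.card) ≤ B * B := by nlinarith
    exact Nat.le_of_mul_le_mul_left this hB
  have b2 : 2 * Y2.card ≤ B := by
    have : B * (2 * Y2.card) ≤ B * B := by nlinarith
    exact Nat.le_of_mul_le_mul_left this hB
  obtain ⟨X1, hX1, s1⟩ := smooth hE Y1 b1
  obtain ⟨X2, hX2, s2⟩ := smooth hE Y2 b2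
  -- the difference vanishes outside
  have hF : ∀ a0, a0 ∉ X1 → ∀ b0, b0 ∉ X2 → W1 a0 b0 = W2 a0 b0 := by
    intro a0 ha0 b0 hb0
    by_contra hne
    have hcol : ∀ b y, y ∉ Y1 → chk h y (fun a => W1 a b - W2 a b) = 0 := by
      intro b y hy
      have e1 : (fun a => W1 a b - W2 a b) = (fun a => W1 a b) - fun a => W2 a b := rfl
      rw [e1, map_sub, mem_Dc.1 (h2 b) y, sub_zero]
      by_contra hcon
      exact hy (mem_filter.2 ⟨mem_univ _, b, hcon⟩)
    have hrow : ∀ a y, y ∉ Y2 → chk h y (fun b => W1 a b - W2 a b) = 0 := by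
      intro a y hy
      have e1 : (fun b => W1 a b - W2 a b) = (W1 a) - fun b => W2 a b := rfl
      rw [e1, map_sub, mem_Dc.1 (h1 a) y, zero_sub, neg_eq_zero]
      by_contra hcon
      exact hy (mem_filter.2 ⟨mem_univ _, a, hcon⟩)
    have k1 := s1 (fun a => W1 a b0 - W2 a b0) (hcol b0)
      ⟨a0, Finset.mem_sdiff.2 ⟨mem_filter.2 ⟨mem_univ _, sub_ne_zero.2 hne⟩, ha0⟩⟩
    set S1 := sp (fun a => W1 a b0 - W2 a b0) \ X1 with hS1
    have k2 : ∀ a ∈ S1, B < 2 * (univ.filter fun b => W1 a b ≠ W2 a b).card := by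
      intro a ha
      have hab : W1 a b0 - W2 a b0 ≠ 0 := (mem_filter.1 (Finset.mem_sdiff.1 ha).1).2
      have k3 := s2 (fun b => W1 a b - W2 a b) (hrow a)
        ⟨b0, Finset.mem_sdiff.2 ⟨mem_filter.2 ⟨mem_univ _, hab⟩, hb0⟩⟩
      refine lt_of_lt_of_le k3 (Nat.mul_le_mul_left 2 (card_le_card ?_))
      intro b hb
      exact mem_filter.2 ⟨mem_univ _, sub_ne_zero.1 (mem_filter.1 (Finset.mem_sdiff.1 hb).1).2⟩
    have k4 : ∑ a ∈ S1, (univ.filter fun b => W1 a b ≠ W2 a b).card ≤ Ec := by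
      rw [hEc, card_filter, Fintype.sum_prod_type]
      refine (sum_le_sum_of_subset (subset_univ S1)).trans (le_of_eq ?_)
      refine sum_congr rfl fun a _ => ?_
      rw [card_filter]
    have k5 : S1.card * B ≤ 2 * Ec := by
      calc S1.card * B = ∑ a ∈ S1, B := by rw [sum_const, smul_eq_mul]
        _ ≤ ∑ a ∈ S1, 2 * (univ.filter fun b => W1 a b ≠ W2 a b).card :=
          sum_le_sum fun a ha => (k2 a ha).le
        _ = 2 * ∑ a ∈ S1, (univ.filter fun b => W1 a b ≠ W2 a b).card := by rw [mul_sum]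
        _ ≤ 2 * Ec := Nat.mul_le_mul_left 2 k4
    nlinarith
  -- extension
  let ρ : Dc h →ₗ[ZMod 2] ({a // a ∉ X1} → ZMod 2) :=
    { toFun := fun x a => x.1 a.1
      map_add' := fun x y => rfl
      map_smul' := fun c x => rfl }
  have hker : LinearMap.ker ρ = ⊥ := by
    rw [LinearMap.ker_eq_bot']
    intro x hx
    apply Subtype.ext
    exact small_zero hE x.2 (X := X1) (by omega) fun a ha => congrFun hx ⟨a, ha⟩
  obtain ⟨g, hg⟩ := ρ.exists_leftInverse_of_injective hker
  have hg' : ∀ x : Dc h, g (ρ x) = x := fun x => by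
    have := congrArg (fun T : Dc h →ₗ[ZMod 2] Dc h => T x) hg
    exact this
  let z : A → A → ZMod 2 := fun a b => (g (fun a' => W1 a'.1 b)).1 a
  have hzc : ∀ b, (fun a => z a b) ∈ Dc h := fun b => (g (fun a' => W1 a'.1 b)).2
  have hzr : ∀ a, z a ∈ Dc h := by
    intro a
    rw [mem_Dc]
    intro y
    rw [chk_apply]
    have e1 : ∑ p ∈ univ.filter (fun p => h p = y), z a p.1 =
        (g (∑ p ∈ univ.filter (fun p => h p = y), fun a' => W1 a'.1 p.1)).1 a := by
      rw [map_sum]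
      simp only [z, Submodule.coe_sum, Finset.sum_apply]
    have e2 : (∑ p ∈ univ.filter (fun p => h p = y),
        (fun a' : {a // a ∉ X1} => W1 a'.1 p.1)) = 0 := by
      funext a'
      rw [Finset.sum_apply, Pi.zero_apply]
      have := mem_Dc.1 (h1 a'.1) y
      rwa [chk_apply] at this
    rw [e1, e2, map_zero]
    rfl
  have hz2 : ∀ b, b ∉ X2 → (fun a => z a b) = fun a => W2 a b := by
    intro b hb
    have e1 : (fun a' : {a // a ∉ X1} => W1 a'.1 b) = ρ ⟨fun a => W2 a b, h2 b⟩ := by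
      funext a'
      exact hF a'.1 a'.2 b hb
    funext a
    show (g (fun a' => W1 a'.1 b)).1 a = W2 a b
    rw [e1, hg']
  have hz1 : ∀ a, a ∉ X1 → z a = W1 a := by
    intro a ha
    have h3 : z a - W1 a = 0 := by
      refine small_zero hE (Submodule.sub_mem _ (hzr a) (h1 a)) (X := X2) (by omega) ?_
      intro b hb
      have h4 : z a b = W2 a b := congrFun (hz2 b hb) a
      rw [Pi.sub_apply, h4, hF a ha b hb, sub_self]
    exact sub_eq_zero.1 h3
  refine ⟨z, hzr, hzc, ?_⟩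
  have r1 : (univ.filter fun a => z a ≠ W1 a).card ≤ X1.card := by
    refine card_le_card fun a ha => ?_
    by_contra hcon
    exact (mem_filter.1 ha).2 (hz1 a hcon)
  have r2 : (univ.filter fun b => (fun a => z a b) ≠ fun a => W2 a b).card ≤ X2.card := by
    refine card_le_card fun b hb => ?_
    by_contra hcon
    exact (mem_filter.1 hb).2 (hz2 b hcon)
  calc _ ≤ B * (Y1.card + Y2.card) := Nat.mul_le_mul_left B (by omega)
    _ = B * Y1.card + B * Y2.card := by ring
    _ ≤ 32 * Ec := by omega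

end

end Pool.Agent.K3h39.LT
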