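import Pool.Agent.K3h39.LT.Comp

/-!
# Local consistency on a left-right complex
-/

set_option autoImplicit false
set_option linter.unusedSectionVars false

namespace Pool.Agent.K3h39.LT

open Finset

section

variable {V A : Type} [Fintype V] [DecidableEq V] [Fintype A] [DecidableEq A]

/-- A left-right complex with expansion. -/
structure LRC (nA nB : A → V → V) (lam n0 : ℝ) : Prop where
  invA : ∀ a v, nA a (nA a v) = v
  invB : ∀ a v, nB a (nB a v) = v
  comm : ∀ a b v, nA a (nB b v) = nB b (nA a v)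
  neA : ∀ a v, nA a v ≠ v
  neB : ∀ a v, nB a v ≠ v
  mixA : ∀ f h : V → ℝ, (∀ v, 0 ≤ f v) → (∀ v, 0 ≤ h v) → ∑ a, ∑ v, f v * h (nA a v) ≤
    (Fintype.card A : ℝ) * (lam / 2 * (∑ v, f v ^ 2 + ∑ v, h v ^ 2) +
      (∑ v, f v) * (∑ v, h v) / n0)
  mixB : ∀ f h : V → ℝ, (∀ v, 0 ≤ f v) → (∀ v, 0 ≤ h v) → ∑ a, ∑ v, f v * h (nB a v) ≤
    (Fintype.card A : ℝ) * (lam / 2 * (∑ v, f v ^ 2 + ∑ v, h v ^ 2) +
      (∑ v, f v) * (∑ v, h v) / n0)

/-- an assignment of local matrices -/
abbrev Asg (V A : Type) : Type := V → A → A → ZMod 2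

/-- local matrices in the tensor square -/
def InT (D : Submodule (ZMod 2) (A → ZMod 2)) (x : A → A → ZMod 2) : Prop :=
  (∀ a, x a ∈ D) ∧ ∀ b, (fun a => x a b) ∈ D

variable (nA nB : A → V → V)

/-- number of disputed `A`-edges at `v` -/
def dA (z : Asg V A) (v : V) : ℕ := (univ.filter fun a => z v a ≠ z (nA a v) a).card
/-- number of disputed `B`-edges at `v` -/
def dB (z : Asg V A) (v : V) : ℕ :=
  (univ.filter fun b => (fun a => z v a b) ≠ fun a => z (nB b v) a b).card
/-- number of disputed edges at `v` -/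
def dd (z : Asg V A) (v : V) : ℕ := dA nA z v + dB nB z v
/-- total -/
def SS (z : Asg V A) : ℕ := ∑ v, dd nA nB z v

/-- indicator of a disputed edge -/
def iA (z : Asg V A) (a : A) (v : V) : ℕ := if z v a ≠ z (nA a v) a then 1 else 0
/-- indicator of a disputed edge -/
def iB (z : Asg V A) (b : A) (v : V) : ℕ :=
  if (fun a => z v a b) ≠ (fun a => z (nB b v) a b) then 1 else 0

theorem dA_eq (z : Asg V A) (v : V) : dA nA z v = ∑ a, iA nA z a v := by
  unfold dA iA; rw [card_filter]

theorem dB_eq (z : Asg V A) (v : V) : dB nB z v = ∑ a, iB nB z a v := by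
  unfold dB iB; rw [card_filter]

variable {nA nB} {lam n0 : ℝ}

theorem iA_symm (h : LRC nA nB lam n0) (z : Asg V A) (a : A) (v : V) :
    iA nA z a (nA a v) = iA nA z a v := by
  unfold iA
  rw [h.invA]
  by_cases e : z v a = z (nA a v) a
  · rw [if_neg (by rw [e]; simp), if_neg (by simpa using e)]
  · rw [if_pos (Ne.symm e), if_pos e]

theorem iB_symm (h : LRC nA nB lam n0) (z : Asg V A) (a : A) (v : V) :
    iB nB z a (nB a v) = iB nB z a v := by
  unfold iB
  rw [h.invB]
  by_cases e : (fun c => z v c a) = (fun c => z (nB a v) c a)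
  · rw [if_neg (by rw [e]; simp), if_neg (by simpa using e)]
  · rw [if_pos (Ne.symm e), if_pos e]

/-! ### local minimality -/

theorem two_points {F F' : V → ℕ} {v0 v1 : V} (hne : v1 ≠ v0) (h : F v1 = F v0)
    (h' : F' v1 = F' v0) (hout : ∀ v, v ≠ v0 → v ≠ v1 → F' v = F v) :
    ∑ v, F' v + 2 * F v0 = ∑ v, F v + 2 * F' v0 := by
  have e : ∀ H : V → ℕ, ∑ v, H v = H v0 + (H v1 + ∑ v ∈ (univ.erase v0).erase v1, H v) := by
    intro H
    rw [← add_sum_erase univ H (mem_univ v0), ← add_sum_erase (univ.erase v0) H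
      (mem_erase.2 ⟨hne, mem_univ v1⟩)]
  rw [e F, e F', h, h']
  have : ∑ v ∈ (univ.erase v0).erase v1, F' v = ∑ v ∈ (univ.erase v0).erase v1, F v := by
    refine sum_congr rfl fun v hv => ?_
    rw [mem_erase, mem_erase] at hv
    exact hout v hv.2.1 hv.1
  rw [this]
  ring

theorem SS_eq (z : Asg V A) : SS nA nB z = ∑ a, ∑ v, iA nA z a v + ∑ a, ∑ v, iB nB z a v := by
  unfold SS dd
  rw [sum_add_distrib]
  simp only [dA_eq, dB_eq]
  rw [sum_comm, sum_comm (s := univ) (t := univ) (f := fun v a => iB nB z a v)]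

theorem SS_update (h : LRC nA nB lam n0) (z : Asg V A) (v0 : V) (x : A → A → ZMod 2) :
    SS nA nB (Function.update z v0 x) + 2 * dd nA nB z v0 =
      SS nA nB z + 2 * dd nA nB (Function.update z v0 x) v0 := by
  set z' := Function.update z v0 x with hz'
  have e : ∀ v, v ≠ v0 → z' v = z v := fun v hv => Function.update_of_ne hv _ _
  have hA : ∀ a, ∑ v, iA nA z' a v + 2 * iA nA z a v0 = ∑ v, iA nA z a v + 2 * iA nA z' a v0 := by
    intro a
    refine two_points (h.neA a v0) (iA_symm h z a v0) (iA_symm h z' a v0) fun v h1 h2 => ?_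
    have h3 : nA a v ≠ v0 := fun h4 => h2 (by rw [← h4, h.invA])
    unfold iA
    rw [e v h1, e _ h3]
  have hB : ∀ a, ∑ v, iB nB z' a v + 2 * iB nB z a v0 = ∑ v, iB nB z a v + 2 * iB nB z' a v0 := by
    intro a
    refine two_points (h.neB a v0) (iB_symm h z a v0) (iB_symm h z' a v0) fun v h1 h2 => ?_
    have h3 : nB a v ≠ v0 := fun h4 => h2 (by rw [← h4, h.invB])
    unfold iB
    rw [e v h1, e _ h3]
  have sA := sum_congr (s₁ := (univ : Finset A)) rfl (fun a _ => hA a)
  have sB := sum_congr (s₁ := (univ : Finset A)) rfl (fun a _ => hB a)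
  simp only [sum_add_distrib, ← mul_sum] at sA sB
  rw [SS_eq, SS_eq]
  unfold dd
  rw [dA_eq, dB_eq, dA_eq, dB_eq]
  omega

theorem exists_min_asg (h : LRC nA nB lam n0) {D : Submodule (ZMod 2) (A → ZMod 2)} (z0 : Asg V A)
    (hz0 : ∀ v, InT D (z0 v)) : ∃ z : Asg V A, (∀ v, InT D (z v)) ∧
      SS nA nB z + (univ.filter fun v => z v ≠ z0 v).card ≤ SS nA nB z0 ∧
      ∀ v0 x, InT D x → dd nA nB z v0 ≤ dd nA nB (Function.update z v0 x) v0 := by
  classical
  have : Nonempty {z : Asg V A // ∀ v, InT D (z v)} := ⟨⟨z0, hz0⟩⟩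
  obtain ⟨⟨z, hz⟩, hmin⟩ := Finite.exists_min
    (fun z : {z : Asg V A // ∀ v, InT D (z v)} =>
      SS nA nB z.1 + (univ.filter fun v => z.1 v ≠ z0 v).card)
  refine ⟨z, hz, ?_, ?_⟩
  · have := hmin ⟨z0, hz0⟩
    simpa using this
  · intro v0 x hx
    have h1 := hmin ⟨Function.update z v0 x, fun v => by
      by_cases e : v = v0
      · subst e; rw [Function.update_self]; exact hx
      · rw [Function.update_of_ne e]; exact hz v⟩
    simp only at h1
    have h2 := SS_update h z v0 x
    have h3 : (univ.filter fun v => Function.update z v0 x v ≠ z0 v).card ≤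
        (univ.filter fun v => z v ≠ z0 v).card + 1 := by
      have : (univ.filter fun v => Function.update z v0 x v ≠ z0 v) ⊆
          insert v0 (univ.filter fun v => z v ≠ z0 v) := by
        intro v hv
        rw [mem_insert]
        by_cases e : v = v0
        · exact Or.inl e
        · right
          have := (mem_filter.1 hv).2
          rw [Function.update_of_ne e] at this
          exact mem_filter.2 ⟨mem_univ _, this⟩
      exact (card_le_card this).trans (card_insert_le _ _)
    omega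

/-! ### the analytic part -/

theorem part1 (h : LRC nA nB lam n0) (hn0 : 0 < n0) {z : Asg V A} {δ : ℝ}
    {D : Submodule (ZMod 2) (A → ZMod 2)} (hz : ∀ v, InT D (z v))
    (hδ : ∀ x ∈ D, x ≠ 0 → δ * Fintype.card A ≤ (sp x).card) :
    (δ - lam - SS nA nB z / n0) * Fintype.card A * SS nA nB z ≤
      ∑ v, (dd nA nB z v : ℝ) ^ 2 := by
  set d : ℝ := (Fintype.card A : ℝ) with hd
  set S : ℝ := (SS nA nB z : ℝ) with hS
  have hd0 : 0 ≤ d := by rw [hd]; positivity
  set jA : A → V → ℝ := fun a v => (iA nA z a v : ℝ) with hjA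
  set jB : A → V → ℝ := fun a v => (iB nB z a v : ℝ) with hjB
  have jA0 : ∀ a v, 0 ≤ jA a v := fun a v => by simp [hjA]
  have jB0 : ∀ a v, 0 ≤ jB a v := fun a v => by simp [hjB]
  have jAsq : ∀ a v, jA a v ^ 2 = jA a v := by
    intro a v; simp only [hjA, iA]; split_ifs <;> simp
  have jBsq : ∀ a v, jB a v ^ 2 = jB a v := by
    intro a v; simp only [hjB, iB]; split_ifs <;> simp
  have jAs : ∀ a v, jA a (nA a v) = jA a v := fun a v => by
    simp only [hjA]; rw [iA_symm h]
  have jBs : ∀ a v, jB a (nB a v) = jB a v := fun a v => by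
    simp only [hjB]; rw [iB_symm h]
  set DA : V → ℝ := fun v => ∑ a, jA a v with hDA
  set DB : V → ℝ := fun v => ∑ a, jB a v with hDB
  have hdd : ∀ v, (dd nA nB z v : ℝ) = DA v + DB v := by
    intro v
    unfold dd
    rw [dA_eq, dB_eq]
    push_cast
    rfl
  have hSsum : S = ∑ a, ∑ v, jA a v + ∑ a, ∑ v, jB a v := by
    rw [hS, SS_eq]; push_cast; rfl
  -- pointwise inequality, `A`-edges
  have ptA : ∀ a v, δ * d * jA a v ≤
      jA a v * DB v + jA a v * DB (nA a v) + ∑ b, jA a v * jA a (nB b v) := by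
    intro a v
    by_cases e : z v a = z (nA a v) a
    · have : jA a v = 0 := by simp only [hjA, iA]; rw [if_neg (by simpa using e)]; simp
      rw [this]; simp
    · have e1 : jA a v = 1 := by simp only [hjA, iA]; rw [if_pos e]; simp
      rw [e1]
      simp only [one_mul, mul_one]
      have h1 := hδ (z v a - z (nA a v) a) (Submodule.sub_mem _ ((hz v).1 a) ((hz _).1 a))
        (sub_ne_zero.2 e)
      refine h1.trans ?_
      have h2 : ∀ b, (if z v a b ≠ z (nA a v) a b then (1 : ℝ) else 0) ≤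
          jB b v + jB b (nA a v) + jA a (nB b v) := by
        intro b
        split_ifs with h3
        · by_contra hcon
          push Not at hcon
          have b1 : z v a b = z (nB b v) a b := by
            by_contra h4
            have : jB b v = 1 := by
              simp only [hjB, iB]; rw [if_pos fun h5 => h4 (congrFun h5 a)]; simp
            have := jB0 b (nA a v)
            have := jA0 a (nB b v)
            linarith
          have b2 : z (nA a v) a b = z (nB b (nA a v)) a b := by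
            by_contra h4
            have : jB b (nA a v) = 1 := by
              simp only [hjB, iB]; rw [if_pos fun h5 => h4 (congrFun h5 a)]; simp
            have := jB0 b v
            have := jA0 a (nB b v)
            linarith
          have b3 : z (nB b v) a b = z (nA a (nB b v)) a b := by
            by_contra h4
            have : jA a (nB b v) = 1 := by
              simp only [hjA, iA]; rw [if_pos fun h5 => h4 (congrFun h5 b)]; simp
            have := jB0 b v
            have := jB0 b (nA a v)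
            linarith
          apply h3
          rw [b1, b3, h.comm, b2]
        · have := jB0 b v
          have := jB0 b (nA a v)
          have := jA0 a (nB b v)
          linarith
      have h3 : ((sp (z v a - z (nA a v) a)).card : ℝ) =
          ∑ b, (if z v a b ≠ z (nA a v) a b then (1 : ℝ) else 0) := by
        unfold sp
        rw [card_filter]
        push_cast
        refine sum_congr rfl fun b _ => ?_
        simp only [Pi.sub_apply, ne_eq, sub_eq_zero]
      rw [h3, hDB]
      simp only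
      rw [← sum_add_distrib, ← sum_add_distrib]
      exact sum_le_sum fun b _ => h2 b
  have ptB : ∀ b v, δ * d * jB b v ≤
      jB b v * DA v + jB b v * DA (nB b v) + ∑ a, jB b v * jB b (nA a v) := by
    intro b v
    by_cases e : (fun a => z v a b) = (fun a => z (nB b v) a b)
    · have : jB b v = 0 := by simp only [hjB, iB]; rw [if_neg (by simpa using e)]; simp
      rw [this]; simp
    · have e1 : jB b v = 1 := by simp only [hjB, iB]; rw [if_pos e]; simp
      rw [e1]
      simp only [one_mul, mul_one]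
      have h1 := hδ ((fun a => z v a b) - (fun a => z (nB b v) a b))
        (Submodule.sub_mem _ ((hz v).2 b) ((hz _).2 b)) (sub_ne_zero.2 e)
      refine h1.trans ?_
      have h2 : ∀ a, (if z v a b ≠ z (nB b v) a b then (1 : ℝ) else 0) ≤
          jA a v + jA a (nB b v) + jB b (nA a v) := by
        intro a
        split_ifs with h3
        · by_contra hcon
          push Not at hcon
          have b1 : z v a b = z (nA a v) a b := by
            by_contra h4
            have : jA a v = 1 := by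
              simp only [hjA, iA]; rw [if_pos fun h5 => h4 (congrFun h5 b)]; simp
            have := jA0 a (nB b v)
            have := jB0 b (nA a v)
            linarith
          have b2 : z (nB b v) a b = z (nA a (nB b v)) a b := by
            by_contra h4
            have : jA a (nB b v) = 1 := by
              simp only [hjA, iA]; rw [if_pos fun h5 => h4 (congrFun h5 b)]; simp
            have := jA0 a v
            have := jB0 b (nA a v)
            linarith
          have b3 : z (nA a v) a b = z (nB b (nA a v)) a b := by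
            by_contra h4
            have : jB b (nA a v) = 1 := by
              simp only [hjB, iB]; rw [if_pos fun h5 => h4 (congrFun h5 a)]; simp
            have := jA0 a v
            have := jA0 a (nB b v)
            linarith
          apply h3
          rw [b1, b3, ← h.comm, b2]
        · have := jA0 a v
          have := jA0 a (nB b v)
          have := jB0 b (nA a v)
          linarith
      have h3 : ((sp ((fun a => z v a b) - (fun a => z (nB b v) a b))).card : ℝ) =
          ∑ a, (if z v a b ≠ z (nB b v) a b then (1 : ℝ) else 0) := by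
        unfold sp
        rw [card_filter]
        push_cast
        refine sum_congr rfl fun b _ => ?_
        simp only [Pi.sub_apply, ne_eq, sub_eq_zero]
      rw [h3, hDA]
      simp only
      rw [← sum_add_distrib, ← sum_add_distrib]
      exact sum_le_sum fun b _ => h2 b
  -- sums
  set SA : ℝ := ∑ a, ∑ v, jA a v with hSA
  set SB : ℝ := ∑ a, ∑ v, jB a v with hSB
  have SA0 : 0 ≤ SA := sum_nonneg fun a _ => sum_nonneg fun v _ => jA0 a v
  have SB0 : 0 ≤ SB := sum_nonneg fun a _ => sum_nonneg fun v _ => jB0 a v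
  have invsumA : ∀ (a : A) (F : V → ℝ), ∑ v, F (nA a v) = ∑ v, F v := fun a F =>
    Equiv.sum_comp (⟨nA a, nA a, h.invA a, h.invA a⟩ : V ≃ V) F
  have invsumB : ∀ (a : A) (F : V → ℝ), ∑ v, F (nB a v) = ∑ v, F v := fun a F =>
    Equiv.sum_comp (⟨nB a, nB a, h.invB a, h.invB a⟩ : V ≃ V) F
  have thirdA : ∀ a, ∑ b, ∑ v, jA a v * jA a (nB b v) ≤
      d * (lam + S / n0) * ∑ v, jA a v := by
    intro a
    refine (h.mixB (jA a) (jA a) (jA0 a) (jA0 a)).trans ?_
    simp only [jAsq]
    have h1 : ∑ v, jA a v ≤ S := by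
      have : ∑ v, jA a v ≤ SA :=
        single_le_sum (f := fun a => ∑ v, jA a v) (fun a _ => sum_nonneg fun v _ => jA0 a v)
          (mem_univ a)
      rw [hSsum]; linarith
    have h2 : 0 ≤ ∑ v, jA a v := sum_nonneg fun v _ => jA0 a v
    have h3 : (∑ v, jA a v) * (∑ v, jA a v) / n0 ≤ S / n0 * ∑ v, jA a v := by
      rw [div_mul_eq_mul_div]
      gcongr
    calc d * (lam / 2 * (∑ v, jA a v + ∑ v, jA a v) + (∑ v, jA a v) * (∑ v, jA a v) / n0)
        ≤ d * (lam / 2 * (∑ v, jA a v + ∑ v, jA a v) + S / n0 * ∑ v, jA a v) := by gcongr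
      _ = _ := by ring
  have thirdB : ∀ b, ∑ a, ∑ v, jB b v * jB b (nA a v) ≤
      d * (lam + S / n0) * ∑ v, jB b v := by
    intro a
    refine (h.mixA (jB a) (jB a) (jB0 a) (jB0 a)).trans ?_
    simp only [jBsq]
    have h1 : ∑ v, jB a v ≤ S := by
      have : ∑ v, jB a v ≤ SB :=
        single_le_sum (f := fun a => ∑ v, jB a v) (fun a _ => sum_nonneg fun v _ => jB0 a v)
          (mem_univ a)
      rw [hSsum]; linarith
    have h2 : 0 ≤ ∑ v, jB a v := sum_nonneg fun v _ => jB0 a v
    have h3 : (∑ v, jB a v) * (∑ v, jB a v) / n0 ≤ S / n0 * ∑ v, jB a v := by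
      rw [div_mul_eq_mul_div]
      gcongr
    calc d * (lam / 2 * (∑ v, jB a v + ∑ v, jB a v) + (∑ v, jB a v) * (∑ v, jB a v) / n0)
        ≤ d * (lam / 2 * (∑ v, jB a v + ∑ v, jB a v) + S / n0 * ∑ v, jB a v) := by gcongr
      _ = _ := by ring
  have totA : δ * d * SA ≤ 2 * ∑ v, DA v * DB v + d * (lam + S / n0) * SA := by
    have h1 : δ * d * SA ≤ ∑ a, ∑ v, (jA a v * DB v + jA a v * DB (nA a v) +
        ∑ b, jA a v * jA a (nB b v)) := by
      rw [hSA, mul_sum]
      refine sum_le_sum fun a _ => ?_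
      rw [mul_sum]
      exact sum_le_sum fun v _ => ptA a v
    have h2 : ∑ a, ∑ v, jA a v * DB v = ∑ v, DA v * DB v := by
      rw [sum_comm]
      refine sum_congr rfl fun v _ => ?_
      rw [hDA, sum_mul]
    have h3 : ∑ a, ∑ v, jA a v * DB (nA a v) = ∑ v, DA v * DB v := by
      rw [← h2]
      refine sum_congr rfl fun a _ => ?_
      rw [← invsumA a (fun v => jA a v * DB v)]
      refine sum_congr rfl fun v _ => ?_
      rw [jAs]
    have h4 : ∑ a, ∑ v, ∑ b, jA a v * jA a (nB b v) ≤ d * (lam + S / n0) * SA := by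
      rw [hSA, mul_sum]
      refine sum_le_sum fun a _ => ?_
      rw [sum_comm]
      exact thirdA a
    simp only [sum_add_distrib] at h1
    rw [h2, h3] at h1
    linarith
  have totB : δ * d * SB ≤ 2 * ∑ v, DA v * DB v + d * (lam + S / n0) * SB := by
    have h1 : δ * d * SB ≤ ∑ b, ∑ v, (jB b v * DA v + jB b v * DA (nB b v) +
        ∑ a, jB b v * jB b (nA a v)) := by
      rw [hSB, mul_sum]
      refine sum_le_sum fun a _ => ?_
      rw [mul_sum]
      exact sum_le_sum fun v _ => ptB a v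
    have h2 : ∑ a, ∑ v, jB a v * DA v = ∑ v, DA v * DB v := by
      rw [sum_comm]
      refine sum_congr rfl fun v _ => ?_
      rw [hDB, mul_sum]
      exact sum_congr rfl fun a _ => mul_comm _ _
    have h3 : ∑ a, ∑ v, jB a v * DA (nB a v) = ∑ v, DA v * DB v := by
      rw [← h2]
      refine sum_congr rfl fun a _ => ?_
      rw [← invsumB a (fun v => jB a v * DA v)]
      refine sum_congr rfl fun v _ => ?_
      rw [jBs]
    have h4 : ∑ b, ∑ v, ∑ a, jB b v * jB b (nA a v) ≤ d * (lam + S / n0) * SB := by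
      rw [hSB, mul_sum]
      refine sum_le_sum fun a _ => ?_
      rw [sum_comm]
      exact thirdB a
    simp only [sum_add_distrib] at h1
    rw [h2, h3] at h1
    linarith
  have hsq : 4 * ∑ v, DA v * DB v ≤ ∑ v, (dd nA nB z v : ℝ) ^ 2 := by
    rw [mul_sum]
    refine sum_le_sum fun v _ => ?_
    rw [hdd]
    nlinarith [sq_nonneg (DA v - DB v)]
  have hS2 : S = SA + SB := hSsum
  have : (δ - lam - S / n0) * d * S = (δ * d * SA - d * (lam + S / n0) * SA) +
      (δ * d * SB - d * (lam + S / n0) * SB) := by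
    rw [hS2]; ring
  linarith

theorem part2 (h : LRC nA nB lam n0) {z : Asg V A} {K : ℝ} (hK : 0 ≤ K)
    (hd : 0 < Fintype.card A)
    (hloc : ∀ v, (dd nA nB z v : ℝ) * Fintype.card A ≤
      K * (∑ a, (dd nA nB z (nA a v) : ℝ) + ∑ b, (dd nA nB z (nB b v) : ℝ)))
    (hlam : 4 * K * lam ≤ 1) :
    ∑ v, (dd nA nB z v : ℝ) ^ 2 ≤ 4 * K * (SS nA nB z : ℝ) ^ 2 / n0 := by
  set d : ℝ := (Fintype.card A : ℝ) with hd'
  have hd0 : 0 < d := by rw [hd']; exact_mod_cast hd
  set f : V → ℝ := fun v => (dd nA nB z v : ℝ) with hf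
  have f0 : ∀ v, 0 ≤ f v := fun v => by simp [hf]
  have hS : (SS nA nB z : ℝ) = ∑ v, f v := by unfold SS; push_cast; rfl
  have h1 : d * ∑ v, f v ^ 2 ≤ K * (∑ a, ∑ v, f v * f (nA a v) + ∑ b, ∑ v, f v * f (nB b v)) := by
    rw [sum_comm (f := fun a v => f v * f (nA a v)), sum_comm (f := fun a v => f v * f (nB a v)),
      ← sum_add_distrib, mul_sum, mul_sum]
    refine sum_le_sum fun v _ => ?_
    rw [← mul_sum, ← mul_sum]
    have := mul_le_mul_of_nonneg_left (hloc v) (f0 v)
    calc d * f v ^ 2 = f v * (f v * d) := by ring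
      _ ≤ _ := this
      _ = _ := by ring
  have h2 := h.mixA f f f0 f0
  have h3 := h.mixB f f f0 f0
  have h4 : d * ∑ v, f v ^ 2 ≤ K * (2 * (d * (lam * ∑ v, f v ^ 2 + (∑ v, f v) ^ 2 / n0))) := by
    refine h1.trans (mul_le_mul_of_nonneg_left ?_ hK)
    have e : d * (lam / 2 * (∑ v, f v ^ 2 + ∑ v, f v ^ 2) + (∑ v, f v) * (∑ v, f v) / n0) =
        d * (lam * ∑ v, f v ^ 2 + (∑ v, f v) ^ 2 / n0) := by ring
    rw [← hd', e] at h2 h3
    linarith
  have h5 : ∑ v, f v ^ 2 ≤ K * (2 * (lam * ∑ v, f v ^ 2 + (∑ v, f v) ^ 2 / n0)) := by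
    have : d * ∑ v, f v ^ 2 ≤ d * (K * (2 * (lam * ∑ v, f v ^ 2 + (∑ v, f v) ^ 2 / n0))) := by
      refine h4.trans (le_of_eq ?_); ring
    exact le_of_mul_le_mul_left this hd0
  have h6 : 0 ≤ ∑ v, f v ^ 2 := sum_nonneg fun v _ => sq_nonneg _
  have h7 : 4 * K * lam * ∑ v, f v ^ 2 ≤ ∑ v, f v ^ 2 := by
    calc _ ≤ 1 * ∑ v, f v ^ 2 := mul_le_mul_of_nonneg_right hlam h6
      _ = _ := one_mul _
  rw [hS]
  have h8 : 4 * K * (∑ v, f v) ^ 2 / n0 = 2 * (K * (2 * ((∑ v, f v) ^ 2 / n0))) := by ring
  rw [h8]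
  nlinarith

theorem zero_of_small (h : LRC nA nB lam n0) (hn0 : 0 < n0) {z : Asg V A} {δ K η : ℝ}
    {D : Submodule (ZMod 2) (A → ZMod 2)} (hz : ∀ v, InT D (z v))
    (hδ : ∀ x ∈ D, x ≠ 0 → δ * Fintype.card A ≤ (sp x).card) (hδ0 : 0 < δ)
    (hK : 0 ≤ K) (hd : 0 < Fintype.card A)
    (hloc : ∀ v, (dd nA nB z v : ℝ) * Fintype.card A ≤
      K * (∑ a, (dd nA nB z (nA a v) : ℝ) + ∑ b, (dd nA nB z (nB b v) : ℝ)))
    (hlam : 4 * K * lam ≤ 1) (hlam2 : lam ≤ δ / 4) (hη : η ≤ δ / 4) (hη2 : 8 * K * η < δ)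
    (hsmall : (SS nA nB z : ℝ) ≤ η * n0) : SS nA nB z = 0 := by
  by_contra hne
  have hpos : (0 : ℝ) < SS nA nB z := by exact_mod_cast Nat.pos_of_ne_zero hne
  have h1 := part1 h hn0 hz hδ
  have h2 := part2 h hK hd hloc hlam
  set S : ℝ := (SS nA nB z : ℝ) with hS
  have hd1 : (1 : ℝ) ≤ Fintype.card A := by exact_mod_cast hd
  set d : ℝ := (Fintype.card A : ℝ) with hd'
  have h3 : S / n0 ≤ η := by rw [div_le_iff₀ hn0]; exact hsmall
  have h4 : δ / 2 ≤ δ - lam - S / n0 := by linarith
  have h5 : δ / 2 * d * S ≤ 4 * K * S ^ 2 / n0 := by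
    refine le_trans ?_ (h1.trans h2)
    gcongr
  have h6 : 4 * K * S ^ 2 / n0 = 4 * K * (S / n0) * S := by ring
  have h7 : 4 * K * (S / n0) * S ≤ 4 * K * η * S := by gcongr
  have h8 : δ / 2 * d * S ≤ 4 * K * η * S := by rw [h6] at h5; exact h5.trans h7
  have h9 : δ / 2 * d ≤ 4 * K * η := le_of_mul_le_mul_right h8 hpos
  have h10 : δ / 2 ≤ δ / 2 * d := by
    have : 0 < δ / 2 := by positivity
    nlinarith
  linarith

end

end Pool.Agent.K3h39.LT
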