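import Pool.Agent.K3h39.LT.Cx

/-!
# Local minima and the consistency theorem
-/

set_option autoImplicit false
set_option linter.unusedSectionVars false

namespace Pool.Agent.K3h39.LT

open Finset

section

variable {V A Y : Type} [Fintype V] [DecidableEq V] [Fintype A] [DecidableEq A]
  [Fintype Y] [DecidableEq Y]
variable {nA nB : A → V → V} {lam n0 : ℝ}

theorem far_count (h : LRC nA nB lam n0) (z : Asg V A) (v : V) :
    (univ.filter fun p : A × A => z (nA p.1 v) p.1 p.2 ≠ z (nB p.2 v) p.1 p.2).card ≤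
      ∑ a, dd nA nB z (nA a v) + ∑ b, dd nA nB z (nB b v) := by
  have h1 : (univ.filter fun p : A × A => z (nA p.1 v) p.1 p.2 ≠ z (nB p.2 v) p.1 p.2) ⊆
      (univ.filter fun p : A × A => (fun a => z (nA p.1 v) a p.2) ≠
        fun a => z (nB p.2 (nA p.1 v)) a p.2) ∪
      (univ.filter fun p : A × A => z (nB p.2 v) p.1 ≠ z (nA p.1 (nB p.2 v)) p.1) := by
    rintro ⟨a, b⟩ hp
    have hp := (mem_filter.1 hp).2
    rw [mem_union, mem_filter, mem_filter]
    by_contra hcon
    rw [not_or, not_and, not_and, not_not, not_not] at hcon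
    have e1 := congrFun (hcon.1 (mem_univ _)) a
    have e2 := congrFun (hcon.2 (mem_univ _)) b
    simp only at e1 e2 hp
    apply hp
    rw [e1, e2, h.comm]
  have h2 : (univ.filter fun p : A × A => (fun a => z (nA p.1 v) a p.2) ≠
        fun a => z (nB p.2 (nA p.1 v)) a p.2).card = ∑ a, dB nB z (nA a v) := by
    rw [card_filter, Fintype.sum_prod_type]
    refine sum_congr rfl fun a _ => ?_
    unfold dB
    rw [card_filter]
  have h3 : (univ.filter fun p : A × A => z (nB p.2 v) p.1 ≠ z (nA p.1 (nB p.2 v)) p.1).card =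
      ∑ b, dA nA z (nB b v) := by
    rw [card_filter, Fintype.sum_prod_type, sum_comm]
    refine sum_congr rfl fun a _ => ?_
    unfold dA
    rw [card_filter]
  refine (card_le_card h1).trans ((card_union_le _ _).trans ?_)
  rw [h2, h3]
  unfold dd
  rw [sum_add_distrib, sum_add_distrib]
  omega

theorem dd_le (z : Asg V A) (v : V) : dd nA nB z v ≤ 2 * Fintype.card A := by
  unfold dd dA dB
  have h1 := card_le_univ (univ.filter fun a => z v a ≠ z (nA a v) a)
  have h2 := card_le_univ (univ.filter fun b => (fun a => z v a b) ≠ fun a => z (nB b v) a b)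
  omega

theorem loc_ineq (h : LRC nA nB lam n0) {hm : A × Fin 8 → Y} {B : ℕ} (hE : Expd hm B) (hB : 0 < B)
    {c0 : ℝ} (hc0 : 1 ≤ c0) (hc : (Fintype.card A : ℝ) ≤ c0 * B) {z : Asg V A}
    (hz : ∀ v, InT (Dc hm) (z v))
    (hmin : ∀ v0 x, InT (Dc hm) x → dd nA nB z v0 ≤ dd nA nB (Function.update z v0 x) v0) (v : V) :
    (dd nA nB z v : ℝ) * Fintype.card A ≤
      64 * c0 ^ 2 * (∑ a, (dd nA nB z (nA a v) : ℝ) + ∑ b, (dd nA nB z (nB b v) : ℝ)) := by
  set E := (univ.filter fun p : A × A => z (nA p.1 v) p.1 p.2 ≠ z (nB p.2 v) p.1 p.2).card with hEdef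
  have hfar := far_count h z v
  rw [← hEdef] at hfar
  have hfar' : (E : ℝ) ≤ ∑ a, (dd nA nB z (nA a v) : ℝ) + ∑ b, (dd nA nB z (nB b v) : ℝ) := by
    exact_mod_cast hfar
  have hB0 : (0 : ℝ) < B := by exact_mod_cast hB
  set d : ℝ := (Fintype.card A : ℝ) with hd
  have hd0 : 0 ≤ d := by rw [hd]; positivity
  have key : (dd nA nB z v : ℝ) * d ≤ 64 * c0 ^ 2 * E := by
    by_cases hs : 32 * E ≤ B ^ 2
    · obtain ⟨x, hx1, hx2, hx3⟩ := agree hE hB (W1 := fun a b => z (nA a v) a b)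
        (W2 := fun a b => z (nB b v) a b) (fun a => (hz _).1 a) (fun b => (hz _).2 b) hs
      have h1 := hmin v x ⟨hx1, hx2⟩
      have h2 : dd nA nB (Function.update z v x) v =
          (univ.filter fun a => x a ≠ (fun b => z (nA a v) a b)).card +
          (univ.filter fun b => (fun a => x a b) ≠ fun a => z (nB b v) a b).card := by
        unfold dd dA dB
        simp only [Function.update_self, Function.update_of_ne (h.neA _ _),
          Function.update_of_ne (h.neB _ _)]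
      rw [← h2] at hx3
      have h3 : B * dd nA nB z v ≤ 32 * E := (Nat.mul_le_mul_left B h1).trans hx3
      have h4 : (B : ℝ) * dd nA nB z v ≤ 32 * E := by exact_mod_cast h3
      have h5 : (0 : ℝ) ≤ (dd nA nB z v : ℝ) := by positivity
      calc (dd nA nB z v : ℝ) * d ≤ (dd nA nB z v : ℝ) * (c0 * B) :=
            mul_le_mul_of_nonneg_left hc h5
        _ = c0 * (B * dd nA nB z v) := by ring
        _ ≤ c0 * (32 * E) := mul_le_mul_of_nonneg_left h4 (by linarith)
        _ ≤ 64 * c0 ^ 2 * E := by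
            have : (0 : ℝ) ≤ E := by positivity
            nlinarith [mul_nonneg this (by linarith : (0:ℝ) ≤ c0 - 1),
              mul_nonneg this (by linarith : (0:ℝ) ≤ c0)]
    · push Not at hs
      have h1 : (dd nA nB z v : ℝ) ≤ 2 * d := by
        have := dd_le (nA := nA) (nB := nB) z v
        rw [hd]
        exact_mod_cast this
      have h2 : (B : ℝ) ^ 2 ≤ 32 * E := by exact_mod_cast hs.le
      calc (dd nA nB z v : ℝ) * d ≤ 2 * d * d := mul_le_mul_of_nonneg_right h1 hd0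
        _ = 2 * d ^ 2 := by ring
        _ ≤ 2 * (c0 * B) ^ 2 := by gcongr
        _ = 2 * c0 ^ 2 * B ^ 2 := by ring
        _ ≤ 2 * c0 ^ 2 * (32 * E) := by gcongr
        _ = 64 * c0 ^ 2 * E := by ring
  exact key.trans (mul_le_mul_of_nonneg_left hfar' (by positivity))

/-- the distance of the component code -/
theorem comp_dist {hm : A × Fin 8 → Y} {B : ℕ} (hE : Expd hm B)
    {c0 : ℝ} (hc0 : 1 ≤ c0) (hc : (Fintype.card A : ℝ) ≤ c0 * B) :
    ∀ x ∈ Dc hm, x ≠ 0 → 1 / (2 * c0) * Fintype.card A ≤ (sp x).card := by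
  intro x hx hne
  have h1 := dist_Dc hE hx hne
  have h2 : (B : ℝ) ≤ 2 * (sp x).card := by exact_mod_cast h1.le
  have h3 : 1 / (2 * c0) * Fintype.card A ≤ 1 / (2 * c0) * (c0 * B) :=
    mul_le_mul_of_nonneg_left hc (by positivity)
  have h4 : 1 / (2 * c0) * (c0 * B) = B / 2 := by field_simp
  linarith

/-- the consistency theorem -/
theorem consistency (h : LRC nA nB lam n0) (hn0 : 0 < n0) {hm : A × Fin 8 → Y} {B : ℕ}
    (hE : Expd hm B) (hB : 0 < B) {c0 : ℝ} (hc0 : 1 ≤ c0) (hc : (Fintype.card A : ℝ) ≤ c0 * B)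
    (hlam : 256 * c0 ^ 2 * lam ≤ 1) (hd : 0 < Fintype.card A)
    (z0 : Asg V A) (hz0 : ∀ v, InT (Dc hm) (z0 v))
    (hsmall : (SS nA nB z0 : ℝ) ≤ 1 / (2048 * c0 ^ 3) * n0) :
    ∃ z : Asg V A, (∀ v, InT (Dc hm) (z v)) ∧ SS nA nB z = 0 ∧
      (univ.filter fun v => z v ≠ z0 v).card ≤ SS nA nB z0 := by
  obtain ⟨z, hz, hle, hmin⟩ := exists_min_asg h z0 hz0
  refine ⟨z, hz, ?_, by omega⟩
  have hc00 : (0 : ℝ) < c0 := by linarith
  have hle' : (SS nA nB z : ℝ) ≤ SS nA nB z0 := by exact_mod_cast (by omega : SS nA nB z ≤ SS nA nB z0)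
  refine zero_of_small h hn0 (δ := 1 / (2 * c0)) (K := 64 * c0 ^ 2) (η := 1 / (2048 * c0 ^ 3)) hz
    (comp_dist hE hc0 hc) (by positivity) (by positivity) hd
    (loc_ineq h hE hB hc0 hc hz hmin) ?_ ?_ ?_ ?_ (hle'.trans hsmall)
  · linarith
  · have h1 : lam ≤ 1 / (256 * c0 ^ 2) := by
      rw [le_div_iff₀ (by positivity)]; linarith
    refine h1.trans ?_
    rw [div_div, div_le_div_iff₀ (by positivity) (by positivity)]
    nlinarith
  · rw [div_div, div_le_div_iff₀ (by positivity) (by positivity)]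
    nlinarith [pow_pos hc00 3, pow_pos hc00 2, mul_nonneg (sq_nonneg c0) (by linarith : (0:ℝ) ≤ c0 - 1),
      mul_nonneg hc00.le (by linarith : (0:ℝ) ≤ c0 - 1)]
  · have e : 8 * (64 * c0 ^ 2) * (1 / (2048 * c0 ^ 3)) = 1 / (4 * c0) := by field_simp; norm_num
    rw [e, div_lt_div_iff₀ (by positivity) (by positivity)]
    linarith

end

end Pool.Agent.K3h39.LT
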