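import Pool.Agent.K3h39.LT.Mask

/-!
# The masked encoding
-/

set_option autoImplicit false
set_option linter.unusedSectionVars false

namespace Pool.Agent.K3h39.LT

open Finset

section

variable {I J : Type} [Fintype I] [DecidableEq I] [Fintype J] [DecidableEq J] {q : ℕ}

/-- letters -/
abbrev Lt (G0 : Finset I) (J : Type) (q : ℕ) : Type :=
  ↥G0 ⊕ I ⊕ (J × Fin (q + 1)) ⊕ (J × Fin q)

/-- coordinates -/
abbrev Gm (G0 : Finset I) (J : Type) (q : ℕ) : Type := ZMod 3 × Lt G0 J q

/-- letter U -/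
abbrev lU {G0 : Finset I} (g : ↥G0) : Lt G0 J q := Sum.inl g
/-- letter M -/
abbrev lM {G0 : Finset I} (i : I) : Lt G0 J q := Sum.inr (Sum.inl i)
/-- letter P -/
abbrev lP {G0 : Finset I} (c : J) (l : Fin (q + 1)) : Lt G0 J q := Sum.inr (Sum.inr (Sum.inl (c, l)))
/-- letter R -/
abbrev lR {G0 : Finset I} (c : J) (l : Fin q) : Lt G0 J q := Sum.inr (Sum.inr (Sum.inr (c, l)))

instance instDecLt {G0 : Finset I} : DecidableEq (Lt G0 J q) := inferInstance

instance instDecGm {G0 : Finset I} : DecidableEq (Gm G0 J q) := instDecidableEqProd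

/-- partial sums -/
def par (f : J → Fin q → I) (ε : J → Fin q → ZMod 2) (x : I → ZMod 2) (c : J) (n : ℕ) : ZMod 2 :=
  ∑ l : Fin q, if l.1 < n then ε c l * x (f c l) else 0

theorem par_zero (f : J → Fin q → I) (ε : J → Fin q → ZMod 2) (x : I → ZMod 2) (c : J) :
    par f ε x c 0 = 0 := by
  simp [par]

theorem par_succ (f : J → Fin q → I) (ε : J → Fin q → ZMod 2) (x : I → ZMod 2) (c : J)
    (l : Fin q) : par f ε x c (l.1 + 1) = par f ε x c l.1 + ε c l * x (f c l) := by
  unfold par
  have h : ∀ l' : Fin q, (if l'.1 < l.1 + 1 then ε c l' * x (f c l') else 0) =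
      (if l'.1 < l.1 then ε c l' * x (f c l') else 0) +
      (if l' = l then ε c l' * x (f c l') else 0) := by
    intro l'
    by_cases h1 : l'.1 < l.1
    · have h2 : l' ≠ l := fun h => by rw [h] at h1; exact lt_irrefl _ h1
      rw [if_pos (by omega), if_pos h1, if_neg h2, add_zero]
    · by_cases h2 : l' = l
      · rw [if_pos (by rw [h2]; omega), if_neg h1, if_pos h2, zero_add]
      · have h3 : l'.1 ≠ l.1 := fun h => h2 (Fin.ext h)
        rw [if_neg (by omega), if_neg h1, if_neg h2, add_zero]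
  simp only [h, sum_add_distrib]
  congr 1
  rw [sum_ite_eq' univ l]
  simp

theorem par_full (f : J → Fin q → I) (ε : J → Fin q → ZMod 2) (x : I → ZMod 2) (c : J) :
    par f ε x c q = ∑ l, ε c l * x (f c l) := by
  unfold par
  exact sum_congr rfl fun l _ => if_pos l.2

theorem par_add (f : J → Fin q → I) (ε : J → Fin q → ZMod 2) (x y : I → ZMod 2) (c : J) (n : ℕ) :
    par f ε (x + y) c n = par f ε x c n + par f ε y c n := by
  unfold par
  rw [← sum_add_distrib]
  refine sum_congr rfl fun l _ => ?_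
  split_ifs
  · simp [mul_add]
  · simp

theorem par_smul (f : J → Fin q → I) (ε : J → Fin q → ZMod 2) (a : ZMod 2) (x : I → ZMod 2)
    (c : J) (n : ℕ) : par f ε (a • x) c n = a * par f ε x c n := by
  unfold par
  rw [mul_sum]
  refine sum_congr rfl fun l _ => ?_
  split_ifs
  · simp only [Pi.smul_apply, smul_eq_mul]; ring
  · simp

/-- value of a letter -/
def val {G0 : Finset I} (f : J → Fin q → I) (ε : J → Fin q → ZMod 2) (μ : I → ↥G0) (π : J → ↥G0)
    (x y : I → ZMod 2) : Lt G0 J q → ZMod 2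
  | Sum.inl g => y g
  | Sum.inr (Sum.inl i) => x i + y (μ i)
  | Sum.inr (Sum.inr (Sum.inl (c, l))) => par f ε x c l.1 + y (π c)
  | Sum.inr (Sum.inr (Sum.inr (c, l))) =>
    par f ε x c (l.1 + 1) + (y (π c) + ε c l * y (μ (f c l)))

/-- partial vector -/
def pv (f : J → Fin q → I) (ε : J → Fin q → ZMod 2) (c : J) (n : ℕ) : I → ZMod 2 :=
  fun i => ∑ l : Fin q, if l.1 < n then (if f c l = i then ε c l else 0) else 0

theorem sum_pv (f : J → Fin q → I) (ε : J → Fin q → ZMod 2) (x : I → ZMod 2) (c : J) (n : ℕ) :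
    ∑ i, pv f ε c n i * x i = par f ε x c n := by
  unfold pv par
  simp only [sum_mul]
  rw [sum_comm]
  refine sum_congr rfl fun l _ => ?_
  by_cases h : l.1 < n
  · simp only [if_pos h]
    rw [sum_eq_single (f c l)]
    · rw [if_pos rfl]
    · intro b _ hb; rw [if_neg hb.symm, zero_mul]
    · intro h; exact absurd (mem_univ _) h
  · simp only [if_neg h, zero_mul, sum_const_zero]

/-- word part -/
def vA {G0 : Finset I} (f : J → Fin q → I) (ε : J → Fin q → ZMod 2) : Lt G0 J q → I → ZMod 2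
  | Sum.inl _ => 0
  | Sum.inr (Sum.inl i) => ind {i}
  | Sum.inr (Sum.inr (Sum.inl (c, l))) => pv f ε c l.1
  | Sum.inr (Sum.inr (Sum.inr (c, l))) => pv f ε c (l.1 + 1)

/-- mask part -/
def vm {G0 : Finset I} (f : J → Fin q → I) (ε : J → Fin q → ZMod 2) (μ : I → ↥G0) (π : J → ↥G0) :
    Lt G0 J q → Finset I
  | Sum.inl g => {g.1}
  | Sum.inr (Sum.inl i) => {(μ i).1}
  | Sum.inr (Sum.inr (Sum.inl (c, _))) => {(π c).1}
  | Sum.inr (Sum.inr (Sum.inr (c, l))) => if ε c l = 0 then {(π c).1} else {(π c).1, (μ (f c l)).1}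

variable {G0 : Finset I} {f : J → Fin q → I} {ε : J → Fin q → ZMod 2} {μ : I → ↥G0} {π : J → ↥G0}
  {C : Submodule (ZMod 2) (I → ZMod 2)}

theorem val_eq (hd : ∀ i j, μ i ≠ π j) (x y : I → ZMod 2) (a : Lt G0 J q) :
    val f ε μ π x y a = ∑ i, vA f ε a i * x i + ∑ j ∈ vm f ε μ π a, y j := by
  rcases a with g | i | ⟨c, l⟩ | ⟨c, l⟩
  · simp [val, vA, vm]
  · simp only [val, vA, vm]
    rw [sum_ind, sum_singleton, sum_singleton]
  · simp only [val, vA, vm]
    rw [sum_pv, sum_singleton]
  · simp only [val, vA, vm]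
    rw [sum_pv]
    congr 1
    by_cases h : ε c l = 0
    · rw [if_pos h, h, sum_singleton]; ring
    · have h1 : ε c l = 1 := (zmod2_cases _).resolve_left h
      have h2 : (π c).1 ≠ (μ (f c l)).1 := fun he => hd _ _ (Subtype.ext he.symm)
      rw [if_neg h, sum_pair h2, h1, one_mul]

theorem card_split (p : Lt G0 J q → Prop) [DecidablePred p] :
    (univ.filter p).card = (univ.filter fun g => p (lU g)).card +
      (univ.filter fun i => p (lM i)).card +
      (univ.filter fun c : J × Fin (q + 1) => p (lP c.1 c.2)).card +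
      (univ.filter fun c : J × Fin q => p (lR c.1 c.2)).card := by
  simp only [card_filter, Fintype.sum_sum_type]
  ring

theorem mask_deg (hM : Mask C G0 μ π) {Δ : ℕ}
    (hdeg : ∀ i, (univ.filter fun p : J × Fin q => f p.1 p.2 = i).card ≤ Δ) (g : I) :
    (univ.filter fun a : Lt G0 J q => g ∈ vm f ε μ π a).card ≤ 2 * q + 3 * Δ + 5 := by
  rw [card_split]
  have h1 : (univ.filter fun g' : ↥G0 => g ∈ vm f ε μ π (lU g' : Lt G0 J q)).card ≤ 1 := by
    rw [card_le_one]
    intro a ha b hb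
    have ha := (mem_filter.1 ha).2
    have hb := (mem_filter.1 hb).2
    simp only [vm, mem_singleton] at ha hb
    exact Subtype.ext (ha.symm.trans hb)
  have h2 : (univ.filter fun i : I => g ∈ vm f ε μ π (lM i : Lt G0 J q)).card ≤ 3 := by
    by_cases hg : g ∈ G0
    · refine le_trans (card_le_card fun i hi => ?_) (hM.fmu ⟨g, hg⟩)
      have hi := (mem_filter.1 hi).2
      simp only [vm, mem_singleton] at hi
      exact mem_filter.2 ⟨mem_univ _, Subtype.ext hi.symm⟩
    · rw [filter_eq_empty_iff.2]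
      · simp
      · intro i _ hi
        simp only [vm, mem_singleton] at hi
        exact hg (hi ▸ (μ i).2)
  have h3' : (univ.filter fun c : J => g = (π c).1).card ≤ 1 := by
    rw [card_le_one]
    intro a ha b hb
    have ha := (mem_filter.1 ha).2
    have hb := (mem_filter.1 hb).2
    exact hM.ipi (Subtype.ext (ha.symm.trans hb))
  have h3 : (univ.filter fun c : J × Fin (q + 1) =>
      g ∈ vm f ε μ π (lP c.1 c.2 : Lt G0 J q)).card ≤ q + 1 := by
    have : (univ.filter fun c : J × Fin (q + 1) =>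
      g ∈ vm f ε μ π (lP c.1 c.2 : Lt G0 J q)) ⊆
        (univ.filter fun c : J => g = (π c).1) ×ˢ univ := by
      intro c hc
      have hc := (mem_filter.1 hc).2
      simp only [vm, mem_singleton] at hc
      rw [mem_product]
      exact ⟨mem_filter.2 ⟨mem_univ _, hc⟩, mem_univ _⟩
    refine (card_le_card this).trans ?_
    rw [card_product, card_univ, Fintype.card_fin]
    calc _ ≤ 1 * (q + 1) := Nat.mul_le_mul_right _ h3'
      _ = _ := one_mul _
  have h4 : (univ.filter fun c : J × Fin q =>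
      g ∈ vm f ε μ π (lR c.1 c.2 : Lt G0 J q)).card ≤ q + 3 * Δ := by
    have : (univ.filter fun c : J × Fin q =>
      g ∈ vm f ε μ π (lR c.1 c.2 : Lt G0 J q)) ⊆
        (univ.filter fun c : J => g = (π c).1) ×ˢ univ ∪
        (univ.filter fun i : I => g ∈ vm f ε μ π (lM i : Lt G0 J q)).biUnion fun i =>
          univ.filter fun p : J × Fin q => f p.1 p.2 = i := by
      intro c hc
      have hc := (mem_filter.1 hc).2
      simp only [vm] at hc
      rw [mem_union]
      split_ifs at hc with he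
      · left
        rw [mem_singleton] at hc
        rw [mem_product]
        exact ⟨mem_filter.2 ⟨mem_univ _, hc⟩, mem_univ _⟩
      · rw [mem_insert, mem_singleton] at hc
        rcases hc with hc | hc
        · left
          rw [mem_product]
          exact ⟨mem_filter.2 ⟨mem_univ _, hc⟩, mem_univ _⟩
        · right
          rw [mem_biUnion]
          refine ⟨f c.1 c.2, mem_filter.2 ⟨mem_univ _, ?_⟩, mem_filter.2 ⟨mem_univ _, rfl⟩⟩
          simp only [vm, mem_singleton]
          exact hc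
    refine (card_le_card this).trans ((card_union_le _ _).trans ?_)
    refine add_le_add ?_ ?_
    · rw [card_product, card_univ, Fintype.card_fin]
      calc _ ≤ 1 * q := Nat.mul_le_mul_right _ h3'
        _ = _ := one_mul _
    · refine card_biUnion_le.trans ?_
      calc _ ≤ ∑ i ∈ univ.filter fun i : I => g ∈ vm f ε μ π (lM i : Lt G0 J q), Δ :=
            sum_le_sum fun i _ => hdeg i
        _ = _ := by rw [sum_const, smul_eq_mul]
        _ ≤ _ := Nat.mul_le_mul_right _ h2
  omega

theorem vm_le2 (a : Lt G0 J q) : (vm f ε μ π a).card ≤ 2 := by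
  rcases a with g | i | ⟨c, l⟩ | ⟨c, l⟩
  · simp [vm]
  · simp [vm]
  · simp [vm]
  · simp only [vm]
    split_ifs
    · simp
    · exact card_le_two

theorem vm_ne (a : Lt G0 J q) : (vm f ε μ π a).Nonempty := by
  rcases a with g | i | ⟨c, l⟩ | ⟨c, l⟩
  · simp [vm]
  · simp [vm]
  · simp [vm]
  · simp only [vm]
    split_ifs
    · simp
    · simp

theorem vm_sub (a : Lt G0 J q) : vm f ε μ π a ⊆ G0 := by
  rcases a with g | i | ⟨c, l⟩ | ⟨c, l⟩
  · simp [vm]
  · simp [vm]
  · simp [vm]
  · simp only [vm]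
    split_ifs
    · simp
    · intro x hx
      rw [mem_insert, mem_singleton] at hx
      rcases hx with rfl | rfl
      · exact (π c).2
      · exact (μ _).2

theorem sys_of (hM : Mask C G0 μ π) {Δ : ℕ}
    (hdeg : ∀ i, (univ.filter fun p : J × Fin q => f p.1 p.2 = i).card ≤ Δ) :
    Sys C G0 (Prod.fst : Gm G0 J q → ZMod 3) (fun γ => vA f ε γ.2) (fun γ => vm f ε μ π γ.2)
      (2 * (2 * q + 3 * Δ + 5)) where
  good := hM.good
  sub γ := vm_sub _
  ne γ := vm_ne _
  le2 γ := vm_le2 _
  sh γ := by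
    have : (univ.filter fun γ' : Gm G0 J q => γ'.1 = γ.1 ∧
        ¬ Disjoint (vm f ε μ π γ.2) (vm f ε μ π γ'.2)) ⊆
        (vm f ε μ π γ.2).biUnion fun g =>
          (univ.filter fun a : Lt G0 J q => g ∈ vm f ε μ π a).image fun a => (γ.1, a) := by
      intro γ' hγ'
      obtain ⟨-, h1, h2⟩ := mem_filter.1 hγ'
      rw [not_disjoint_iff] at h2
      obtain ⟨g, hg, hg'⟩ := h2
      rw [mem_biUnion]
      refine ⟨g, hg, ?_⟩
      rw [mem_image]
      exact ⟨γ'.2, mem_filter.2 ⟨mem_univ _, hg'⟩, Prod.ext h1.symm rfl⟩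
    refine (card_le_card this).trans (card_biUnion_le.trans ?_)
    calc _ ≤ ∑ g ∈ vm f ε μ π γ.2, (2 * q + 3 * Δ + 5) :=
          sum_le_sum fun g _ => card_image_le.trans (mask_deg hM hdeg g)
      _ = (vm f ε μ π γ.2).card * (2 * q + 3 * Δ + 5) := by rw [sum_const, smul_eq_mul]
      _ ≤ _ := Nat.mul_le_mul_right _ (vm_le2 _)

/-- the encoding -/
def enc (f : J → Fin q → I) (ε : J → Fin q → ZMod 2) (μ : I → ↥G0) (π : J → ↥G0)
    (x : ZMod 3 → I → ZMod 2) : Gm G0 J q → ZMod 2 :=
  fun γ => val f ε μ π (x γ.1) (x (γ.1 + 1)) γ.2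

theorem val_add (x y x' y' : I → ZMod 2) (a : Lt G0 J q) :
    val f ε μ π (x + x') (y + y') a = val f ε μ π x y a + val f ε μ π x' y' a := by
  rcases a with g | i | ⟨c, l⟩ | ⟨c, l⟩
  · simp [val]
  · simp only [val, Pi.add_apply]; ring
  · simp only [val, par_add, Pi.add_apply]; ring
  · simp only [val, par_add, Pi.add_apply]; ring

theorem val_smul (r : ZMod 2) (x y : I → ZMod 2) (a : Lt G0 J q) :
    val f ε μ π (r • x) (r • y) a = r * val f ε μ π x y a := by
  rcases a with g | i | ⟨c, l⟩ | ⟨c, l⟩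
  · simp [val]
  · simp only [val, Pi.smul_apply, smul_eq_mul]; ring
  · simp only [val, par_smul, Pi.smul_apply, smul_eq_mul]; ring
  · simp only [val, par_smul, Pi.smul_apply, smul_eq_mul]; ring

/-- the encoding as a linear map -/
def encL (C : Submodule (ZMod 2) (I → ZMod 2)) (f : J → Fin q → I) (ε : J → Fin q → ZMod 2)
    (μ : I → ↥G0) (π : J → ↥G0) : (ZMod 3 → ↥C) →ₗ[ZMod 2] (Gm G0 J q → ZMod 2) where
  toFun x := enc f ε μ π fun t => (x t).1
  map_add' x y := by
    funext γ
    exact val_add _ _ _ _ _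
  map_smul' r x := by
    funext γ
    exact val_smul _ _ _ _

/-- the code -/
def codeE (C : Submodule (ZMod 2) (I → ZMod 2)) (f : J → Fin q → I) (ε : J → Fin q → ZMod 2)
    (μ : I → ↥G0) (π : J → ↥G0) : Submodule (ZMod 2) (Gm G0 J q → ZMod 2) :=
  LinearMap.range (encL C f ε μ π)

theorem mem_codeE {w : Gm G0 J q → ZMod 2} : w ∈ codeE C f ε μ π ↔
    ∃ x : ZMod 3 → I → ZMod 2, (∀ t, x t ∈ C) ∧ enc f ε μ π x = w := by
  unfold codeE
  rw [LinearMap.mem_range]
  constructor
  · rintro ⟨x, rfl⟩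
    exact ⟨fun t => (x t).1, fun t => (x t).2, rfl⟩
  · rintro ⟨x, hx, rfl⟩
    exact ⟨fun t => ⟨x t, hx t⟩, rfl⟩

theorem enc_MU (x : ZMod 3 → I → ZMod 2) (t : ZMod 3) (i : I) :
    enc f ε μ π x (t, lM i) + enc f ε μ π x (t, lU (μ i)) = x t i := by
  simp only [enc, val]
  rw [add_assoc, zmod2_add_self, add_zero]

theorem finrank_codeE : Module.finrank (ZMod 2) (codeE C f ε μ π) =
    3 * Module.finrank (ZMod 2) C := by
  unfold codeE
  rw [LinearMap.finrank_range_of_inj, Module.finrank_pi_fintype]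
  · simp [ZMod.card]
  · rw [← LinearMap.ker_eq_bot, LinearMap.ker_eq_bot']
    intro x hx
    funext t
    apply Subtype.ext
    funext i
    have := enc_MU (f := f) (ε := ε) (μ := μ) (π := π) (fun t => (x t).1) t i
    have h0 : enc f ε μ π (fun t => (x t).1) = 0 := hx
    rw [h0] at this
    simpa using this.symm

theorem dual_count (hM : Mask C G0 μ π) {Δ : ℕ}
    (hdeg : ∀ i, (univ.filter fun p : J × Fin q => f p.1 p.2 = i).card ≤ Δ) :
    {u : Gm G0 J q → ZMod 2 | (∀ c ∈ codeE C f ε μ π, ∑ i, u i * c i = 0) ∧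
              0 < hammingNorm u ∧ hammingNorm u ≤ 3}.ncard ≤
      8 * (2 * (2 * q + 3 * Δ + 5)) ^ 2 * Fintype.card (Gm G0 J q) := by
  classical
  refine le_trans ?_ (sys_of (ε := ε) hM hdeg).count
  rw [← Set.ncard_coe_finset]
  refine Set.ncard_le_ncard_of_injOn (fun u => univ.filter fun γ => u γ ≠ 0) ?_ ?_
    (Finset.finite_toSet _)
  · rintro u ⟨h1, h2, h3⟩
    rw [mem_coe, mem_filter]
    refine ⟨mem_univ _, ?_, h3, ?_⟩
    · rw [← card_pos]; exact h2
    · intro x hx
      have := h1 _ (mem_codeE.2 ⟨x, hx, rfl⟩)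
      refine Eq.trans ?_ this
      rw [sum_filter]
      refine sum_congr rfl fun γ _ => ?_
      rcases zmod2_cases (u γ) with h | h
      · rw [h]; simp
      · rw [h, if_pos (by decide), one_mul]
        exact (val_eq hM.disj _ _ _).symm
  · intro u _ u' _ heq
    funext γ
    have h := congrArg (fun S => γ ∈ S) heq
    simp only [mem_filter, mem_univ, true_and, eq_iff_iff] at h
    rcases zmod2_cases (u γ) with h1 | h1 <;> rcases zmod2_cases (u' γ) with h2 | h2
    · rw [h1, h2]
    · rw [h1, h2] at h; simp at h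
    · rw [h1, h2] at h; simp at h
    · rw [h1, h2]

theorem dist_codeE (hM : Mask C G0 μ π) {δ1 : ℝ}
    (hd : ∀ x ∈ C, x ≠ 0 → δ1 ≤ (univ.filter fun i => x i ≠ 0).card)
    {w : Gm G0 J q → ZMod 2} (hw : w ∈ codeE C f ε μ π) (hne : w ≠ 0) :
    δ1 ≤ 4 * hammingNorm w := by
  classical
  obtain ⟨x, hx, rfl⟩ := mem_codeE.1 hw
  have : ∃ t, x t ≠ 0 := by
    by_contra hcon
    push Not at hcon
    apply hne
    funext γ
    have h1 := val_smul (f := f) (ε := ε) (μ := μ) (π := π) 0 0 0 γ.2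
    simp only [smul_zero, zero_mul] at h1
    unfold enc
    rw [hcon, hcon]
    exact h1
  obtain ⟨t, ht⟩ := this
  refine (hd _ (hx t) ht).trans ?_
  set w := enc f ε μ π x with hwdef
  have h1 : (univ.filter fun i => x t i ≠ 0) ⊆ (univ.filter fun i => w (t, lM i) ≠ 0) ∪
      (univ.filter fun i => w (t, lU (μ i)) ≠ 0) := by
    intro i hi
    have hi := (mem_filter.1 hi).2
    rw [mem_union, mem_filter, mem_filter]
    by_contra hcon
    push Not at hcon
    simp only [mem_univ, true_implies] at hcon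
    apply hi
    rw [← enc_MU (f := f) (ε := ε) (μ := μ) (π := π) x t i, ← hwdef, hcon.1, hcon.2, add_zero]
  have h2 : (univ.filter fun i => w (t, lM i) ≠ 0).card ≤ hammingNorm w := by
    unfold hammingNorm
    refine card_le_card_of_injOn (fun i => (t, lM i)) ?_ ?_
    · intro i hi
      have hi := (mem_filter.1 (mem_coe.1 hi)).2
      exact mem_coe.2 (mem_filter.2 ⟨mem_univ _, hi⟩)
    · intro a _ b _ hab
      simpa using hab
  have h3 : (univ.filter fun g => w (t, lU g) ≠ 0).card ≤ hammingNorm w := by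
    unfold hammingNorm
    refine card_le_card_of_injOn (fun g => (t, lU g)) ?_ ?_
    · intro i hi
      have hi := (mem_filter.1 (mem_coe.1 hi)).2
      exact mem_coe.2 (mem_filter.2 ⟨mem_univ _, hi⟩)
    · intro a _ b _ hab
      simpa using hab
  have h4 : (univ.filter fun i => w (t, lU (μ i)) ≠ 0).card ≤
      (univ.filter fun g => w (t, lU g) ≠ 0).card * 3 := by
    have : (univ.filter fun i => w (t, lU (μ i)) ≠ 0) ⊆
        (univ.filter fun g => w (t, lU g) ≠ 0).biUnion fun g => univ.filter fun i => μ i = g := by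
      intro i hi
      have hi := (mem_filter.1 hi).2
      rw [mem_biUnion]
      exact ⟨μ i, mem_filter.2 ⟨mem_univ _, hi⟩, mem_filter.2 ⟨mem_univ _, rfl⟩⟩
    refine (card_le_card this).trans (card_biUnion_le.trans ?_)
    calc _ ≤ ∑ g ∈ univ.filter fun g => w (t, lU g) ≠ 0, 3 := sum_le_sum fun g _ => hM.fmu g
      _ = _ := by rw [sum_const, smul_eq_mul]
  have h5 := (card_le_card h1).trans (card_union_le _ _)
  have h6 : (univ.filter fun i => x t i ≠ 0).card ≤ 4 * hammingNorm w := by omega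
  exact_mod_cast h6

end

end Pool.Agent.K3h39.LT
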