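import Pool.Agent.H494R3.GT.Heis
import Pool.Agent.H494R3.GT.Grp

/-!
# Finite groups with a spectral gap
-/

set_option autoImplicit false

open scoped CStarAlgebra ComplexOrder

namespace Pool.Agent.K3h39.LT

open Pool.Agent.H494R3.GT

/-- the gap constant -/
noncomputable def lam0 : ℝ := 1 - (1 - 2 * ep) / 3

theorem lam0_lt : lam0 < 1 := by unfold lam0; linarith [ep_lt]
theorem lam0_pos : 0 < lam0 := by unfold lam0; linarith [ep_pos]

theorem compl_star {A : Type*} [CStarAlgebra A] {p : A} (h : star p = p) :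
    star (1 - p) = 1 - p := by
  rw [star_sub, star_one, h]

theorem compl_mul {A : Type*} [CStarAlgebra A] {p : A} (h : p * p = p) :
    (1 - p) * (1 - p) = 1 - p := by
  have : (1 - p) * (1 - p) = 1 - p - p + p * p := by noncomm_ring
  rw [this, h]; abel

section
variable {G : Type} [Group G] [Fintype G]

/-- Hilbert space of functions -/
abbrev Hs (G : Type) [Fintype G] : Type := EuclideanSpace ℂ G

/-- left regular representation -/
noncomputable def U (g : G) : Hs G →L[ℂ] Hs G :=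
  ((LinearIsometryEquiv.piLpCongrLeft 2 ℂ ℂ (Equiv.mulLeft g)).toContinuousLinearEquiv :
    Hs G →L[ℂ] Hs G)

theorem U_apply (g : G) (f : Hs G) (x : G) : U g f x = f (g⁻¹ * x) := rfl

theorem U_one : U (1 : G) = 1 := by
  ext f x
  rw [U_apply, inv_one, one_mul]; rfl

theorem U_mul (g h : G) : U (g * h) = U g * U h := by
  ext f x
  rw [ContinuousLinearMap.mul_apply, U_apply, U_apply, U_apply, mul_inv_rev, mul_assoc]

theorem U_star (g : G) : star (U g) = U g⁻¹ := by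
  rw [ContinuousLinearMap.star_eq_adjoint]
  symm
  rw [ContinuousLinearMap.eq_adjoint_iff]
  intro f h
  simp only [PiLp.inner_apply, U_apply, inv_inv]
  rw [← Equiv.sum_comp (Equiv.mulLeft g⁻¹)]
  simp

/-- the data: three copies of `ZMod 5` with Heisenberg relations generating `G` -/
structure Tri (w z : Fin 3 → ZMod 5 → G) : Prop where
  w0 : ∀ i, w i 0 = 1
  wadd : ∀ i a b, w i (a + b) = w i a * w i b
  z0 : ∀ i, z i 0 = 1
  zadd : ∀ i a b, z i (a + b) = z i a * z i b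
  rel0 : ∀ a b, w 0 a * w 1 b = z 0 (a * b) * (w 1 b * w 0 a)
  rel1 : ∀ a b, w 1 a * w 2 b = z 1 (a * b) * (w 2 b * w 1 a)
  rel2 : ∀ a b, w 2 a * w 0 b = z 2 (a * b) * (w 0 b * w 2 a)
  zw : ∀ i a b, z i a * w i b = w i b * z i a
  zw' : ∀ i a b, z i a * w (i + 1) b = w (i + 1) b * z i a
  gen : Subgroup.closure (Set.range fun p : Fin 3 × ZMod 5 => w p.1 p.2) = ⊤

variable {w z : Fin 3 → ZMod 5 → G}

theorem isRep {u : ZMod 5 → G} (h0 : u 0 = 1) (ha : ∀ a b, u (a + b) = u a * u b) :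
    IsRep (fun a => U (u a)) where
  zero := by simp only [h0, U_one]
  add i j := by simp only [ha, U_mul]
  st i := by
    simp only [U_star]
    congr 1
    have := ha i (-i)
    rw [add_neg_cancel, h0] at this
    exact inv_eq_of_mul_eq_one_right this.symm

theorem heis {u v y : ZMod 5 → G} (hu0 : u 0 = 1) (hua : ∀ a b, u (a + b) = u a * u b)
    (hv0 : v 0 = 1) (hva : ∀ a b, v (a + b) = v a * v b)
    (hy0 : y 0 = 1) (hya : ∀ a b, y (a + b) = y a * y b)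
    (rel : ∀ a b, u a * v b = y (a * b) * (v b * u a))
    (yu : ∀ a b, y a * u b = u b * y a) (yv : ∀ a b, y a * v b = v b * y a) :
    IsHeis (fun a => U (u a)) (fun a => U (v a)) (fun a => U (y a)) where
  hu := isRep hu0 hua
  hv := isRep hv0 hva
  hz := isRep hy0 hya
  rel i j := by simp only [← U_mul, rel i j]
  zu i j := by simp only [← U_mul, yu i j]
  zv i j := by simp only [← U_mul, yv i j]

/-- the averages -/
noncomputable def Pr (w : Fin 3 → ZMod 5 → G) (i : Fin 3) : Hs G →L[ℂ] Hs G :=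
  avg (fun a => U (w i a))

theorem Tri.rep (h : Tri w z) (i : Fin 3) : IsRep (fun a => U (w i a)) :=
  isRep (h.w0 i) (h.wadd i)

theorem Tri.gap (h : Tri w z) :
    (((1 - 2 * ep) : ℝ) : ℂ) • (∑ i, (1 - Pr w i)) ≤ (∑ i, (1 - Pr w i)) * (∑ i, (1 - Pr w i)) := by
  refine three_gap (w := fun i a => U (w i a)) (z0 := fun a => U (z 0 a))
    (z1 := fun a => U (z 1 a)) (z2 := fun a => U (z 2 a)) ?_ ?_ ?_
  · exact heis (h.w0 0) (h.wadd 0) (h.w0 1) (h.wadd 1) (h.z0 0) (h.zadd 0) h.rel0 (h.zw 0)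
      (h.zw' 0)
  · exact heis (h.w0 1) (h.wadd 1) (h.w0 2) (h.wadd 2) (h.z0 1) (h.zadd 1) h.rel1 (h.zw 1)
      (h.zw' 1)
  · exact heis (h.w0 2) (h.wadd 2) (h.w0 0) (h.wadd 0) (h.z0 2) (h.zadd 2) h.rel2 (h.zw 2)
      (h.zw' 2)

theorem Tri.compl_proj (h : Tri w z) (i : Fin 3) :
    (1 - Pr w i) * (1 - Pr w i) = 1 - Pr w i ∧ star (1 - Pr w i) = 1 - Pr w i := by
  have h1 : Pr w i * Pr w i = Pr w i := (h.rep i).avg_avg
  have h2 : star (Pr w i) = Pr w i := (h.rep i).star_avg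
  exact ⟨compl_mul h1, compl_star h2⟩

/-- `⟨(1 - P_i) f, f⟩ = ‖(1 - P_i) f‖²` -/
theorem Tri.inner_compl (h : Tri w z) (i : Fin 3) (f : Hs G) :
    inner ℂ ((1 - Pr w i) f) f = ((‖(1 - Pr w i) f‖ ^ 2 : ℝ) : ℂ) := by
  obtain ⟨h1, h2⟩ := h.compl_proj i
  have h3 : (1 - Pr w i) f = (1 - Pr w i) ((1 - Pr w i) f) := by
    conv_lhs => rw [← h1]
    rfl
  conv_lhs => rw [h3]
  rw [← ContinuousLinearMap.adjoint_inner_right, ← ContinuousLinearMap.star_eq_adjoint, h2,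
    inner_self_eq_norm_sq_to_K]
  push_cast
  rfl

theorem Tri.inner_pr (h : Tri w z) (i : Fin 3) (f : Hs G) :
    inner ℂ (Pr w i f) f = ((‖Pr w i f‖ ^ 2 : ℝ) : ℂ) := by
  have h1 : Pr w i * Pr w i = Pr w i := (h.rep i).avg_avg
  have h2 : star (Pr w i) = Pr w i := (h.rep i).star_avg
  have h3 : Pr w i f = Pr w i (Pr w i f) := by
    conv_lhs => rw [← h1]
    rfl
  conv_lhs => rw [h3]
  rw [← ContinuousLinearMap.adjoint_inner_right, ← ContinuousLinearMap.star_eq_adjoint, h2,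
    inner_self_eq_norm_sq_to_K]
  push_cast
  rfl

/-- vectors killed by the Laplacian are constant -/
theorem Tri.const (h : Tri w z) {f : Hs G} (hf : (∑ i, (1 - Pr w i)) f = 0) (x y : G) :
    f x = f y := by
  have h1 : ∀ i, (1 - Pr w i) f = 0 := by
    have h2 : inner ℂ ((∑ i, (1 - Pr w i)) f) f = (0 : ℂ) := by rw [hf, inner_zero_left]
    rw [ContinuousLinearMap.sum_apply, sum_inner] at h2
    simp only [h.inner_compl] at h2
    have h3 : ∑ i, ‖(1 - Pr w i) f‖ ^ 2 = 0 := by exact_mod_cast h2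
    have h4 := (Finset.sum_eq_zero_iff_of_nonneg (fun i _ => sq_nonneg ‖(1 - Pr w i) f‖)).1 h3
    intro i
    have := h4 i (Finset.mem_univ _)
    exact norm_eq_zero.1 (pow_eq_zero_iff (two_ne_zero) |>.1 this)
  have h2 : ∀ i a, U (w i a) f = f := by
    intro i a
    have h3 : Pr w i f = f := by
      have := h1 i
      rw [ContinuousLinearMap.sub_apply, ContinuousLinearMap.one_apply, sub_eq_zero] at this
      exact this.symm
    have h4 : U (w i a) * Pr w i = Pr w i := (h.rep i).mul_avg a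
    calc U (w i a) f = U (w i a) (Pr w i f) := by rw [h3]
      _ = (U (w i a) * Pr w i) f := rfl
      _ = f := by rw [h4, h3]
  have h3 : ∀ g : G, U g f = f := by
    intro g
    have hg : g ∈ Subgroup.closure (Set.range fun p : Fin 3 × ZMod 5 => w p.1 p.2) := by
      rw [h.gen]; trivial
    induction hg using Subgroup.closure_induction with
    | mem x hx => obtain ⟨p, rfl⟩ := hx; exact h2 p.1 p.2
    | one => rw [U_one]; rfl
    | mul x y _ _ hx hy => rw [U_mul, ContinuousLinearMap.mul_apply, hy, hx]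
    | inv x _ hx =>
      have : U x⁻¹ (U x f) = f := by
        rw [← ContinuousLinearMap.mul_apply, ← U_mul, inv_mul_cancel, U_one]; rfl
      rwa [hx] at this
  have h4 := congrArg (fun v : Hs G => v x) (h3 (x * y⁻¹))
  simp only [U_apply] at h4
  rw [← h4]
  have h5 : (x * y⁻¹)⁻¹ * x = y := by group
  rw [h5]

theorem Tri.laplace (h : Tri w z) {f : Hs G} (hf : ∑ x, f x = 0) :
    (1 - 2 * ep) * ‖f‖ ^ 2 ≤ ∑ i, ‖(1 - Pr w i) f‖ ^ 2 := by
  have ha : (0 : Hs G →L[ℂ] Hs G) ≤ ∑ i, (1 - Pr w i) :=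
    Finset.sum_nonneg fun i _ => proj_nonneg (h.compl_proj i).1 (h.compl_proj i).2
  obtain ⟨P, hP, hPs, haP, hc⟩ := exists_proj (c := 1 - 2 * ep) (by linarith [ep_lt]) ha h.gap
  have hPf : P f = 0 := by
    have h1 : (∑ i, (1 - Pr w i)) (P f) = 0 := by
      have := congrArg (fun T : Hs G →L[ℂ] Hs G => T f) haP
      exact this
    have h2 : inner ℂ (P f) (P f) = inner ℂ (P f) f := by
      have : P f = P (P f) := by
        conv_lhs => rw [← hP]
        rfl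
      calc inner ℂ (P f) (P f) = inner ℂ (P f) ((ContinuousLinearMap.adjoint P) f) := by
            rw [← ContinuousLinearMap.star_eq_adjoint, hPs]
        _ = inner ℂ (P (P f)) f := by rw [ContinuousLinearMap.adjoint_inner_right]
        _ = inner ℂ (P f) f := by rw [← this]
    have h3 : inner ℂ (P f) f = (0 : ℂ) := by
      rw [PiLp.inner_apply]
      have h4 : ∀ x, inner ℂ ((P f) x) (f x) = f x * (starRingEnd ℂ) ((P f) 1) := by
        intro x
        rw [h.const h1 x 1]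
        simp
      rw [Finset.sum_congr rfl fun x _ => h4 x, ← Finset.sum_mul, hf, zero_mul]
    rw [h3] at h2
    exact inner_self_eq_zero.1 h2
  -- c ‖f‖² ≤ ⟨a f, f⟩
  have h5 := (ContinuousLinearMap.le_def _ _).1 hc
  have h6 := h5.inner_nonneg_left f
  rw [ContinuousLinearMap.sub_apply, ContinuousLinearMap.smul_apply,
    ContinuousLinearMap.sub_apply, ContinuousLinearMap.one_apply, hPf, sub_zero, inner_sub_left,
    ContinuousLinearMap.sum_apply, sum_inner] at h6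
  simp only [h.inner_compl] at h6
  rw [inner_smul_left, inner_self_eq_norm_sq_to_K, Complex.conj_ofReal] at h6
  have h7 : (0 : ℂ) ≤ ((∑ i, ‖(1 - Pr w i) f‖ ^ 2 - (1 - 2 * ep) * ‖f‖ ^ 2 : ℝ) : ℂ) := by
    convert h6 using 1
    push_cast
    rfl
  have h8 : 0 ≤ ∑ i, ‖(1 - Pr w i) f‖ ^ 2 - (1 - 2 * ep) * ‖f‖ ^ 2 := by exact_mod_cast h7
  linarith

theorem Tri.pyth (h : Tri w z) (i : Fin 3) (f : Hs G) :
    ‖(1 - Pr w i) f‖ ^ 2 + ‖Pr w i f‖ ^ 2 = ‖f‖ ^ 2 := by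
  have h1 := h.inner_compl i f
  have h2 := h.inner_pr i f
  have h3 : inner ℂ ((1 - Pr w i) f) f + inner ℂ (Pr w i f) f = inner ℂ f f := by
    rw [← inner_add_left, ContinuousLinearMap.sub_apply, ContinuousLinearMap.one_apply,
      sub_add_cancel]
  rw [h1, h2, inner_self_eq_norm_sq_to_K] at h3
  have h4 : ((‖(1 - Pr w i) f‖ ^ 2 + ‖Pr w i f‖ ^ 2 : ℝ) : ℂ) = ((‖f‖ ^ 2 : ℝ) : ℂ) := by
    push_cast
    push_cast at h3
    exact h3
  exact Complex.ofReal_injective h4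

/-- the averaging operator -/
theorem Tri.avg_bound (h : Tri w z) {f : Hs G} (hf : ∑ x, f x = 0) :
    ‖((1 / 3 : ℝ) : ℂ) • ∑ i, Pr w i f‖ ^ 2 ≤ lam0 * ‖f‖ ^ 2 := by
  have h1 := h.laplace hf
  have h2 : ∑ i, ‖Pr w i f‖ ^ 2 ≤ 3 * lam0 * ‖f‖ ^ 2 := by
    have h3 : ∑ i, ‖Pr w i f‖ ^ 2 = ∑ i : Fin 3, (‖f‖ ^ 2 - ‖(1 - Pr w i) f‖ ^ 2) :=
      Finset.sum_congr rfl fun i _ => by rw [← h.pyth i f]; ring
    have h4 : ∑ i : Fin 3, (‖f‖ ^ 2 - ‖(1 - Pr w i) f‖ ^ 2) =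
        3 * ‖f‖ ^ 2 - ∑ i, ‖(1 - Pr w i) f‖ ^ 2 := by
      rw [Finset.sum_sub_distrib, Finset.sum_const, Finset.card_univ, Fintype.card_fin,
        nsmul_eq_mul]
      norm_num
    rw [h3, h4]
    unfold lam0
    nlinarith
  have h4 : ‖((1 / 3 : ℝ) : ℂ) • ∑ i, Pr w i f‖ ≤ (1/3) * ∑ i, ‖Pr w i f‖ := by
    rw [norm_smul]
    have : ‖((1 / 3 : ℝ) : ℂ)‖ = 1/3 := by
      rw [Complex.norm_real, Real.norm_eq_abs, abs_of_pos (by norm_num)]
    rw [this]
    exact mul_le_mul_of_nonneg_left (norm_sum_le _ _) (by norm_num)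
  have h5 : (∑ i, ‖Pr w i f‖) ^ 2 ≤ 3 * ∑ i, ‖Pr w i f‖ ^ 2 := by
    have := sq_sum_le_card_mul_sum_sq (s := (Finset.univ : Finset (Fin 3)))
      (f := fun i => ‖Pr w i f‖)
    simpa using this
  have h6 : 0 ≤ ∑ i, ‖Pr w i f‖ := Finset.sum_nonneg fun i _ => norm_nonneg _
  calc ‖((1 / 3 : ℝ) : ℂ) • ∑ i, Pr w i f‖ ^ 2 ≤ ((1/3) * ∑ i, ‖Pr w i f‖) ^ 2 :=
        pow_le_pow_left₀ (norm_nonneg _) h4 2
    _ = (1/9) * (∑ i, ‖Pr w i f‖) ^ 2 := by ring
    _ ≤ (1/9) * (3 * (3 * lam0 * ‖f‖ ^ 2)) := by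
        refine mul_le_mul_of_nonneg_left (h5.trans ?_) (by norm_num)
        linarith
    _ = lam0 * ‖f‖ ^ 2 := by ring

/-- real form -/
theorem Tri.real_bound (h : Tri w z) (f : G → ℝ) (hf : ∑ x, f x = 0) :
    ∑ x, (∑ p : Fin 3 × ZMod 5, f (w p.1 p.2 * x)) ^ 2 ≤ 225 * lam0 * ∑ x, (f x) ^ 2 := by
  let F : Hs G := WithLp.toLp 2 (fun x => (f x : ℂ))
  have hF : ∑ x, F x = 0 := by
    show ∑ x, ((f x : ℝ) : ℂ) = 0
    rw [← Complex.ofReal_sum, hf, Complex.ofReal_zero]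
  have h1 := h.avg_bound hF
  have h2 : ‖F‖ ^ 2 = ∑ x, (f x) ^ 2 := by
    rw [EuclideanSpace.norm_sq_eq]
    refine Finset.sum_congr rfl fun x _ => ?_
    show ‖((f x : ℝ) : ℂ)‖ ^ 2 = _
    rw [Complex.norm_real, Real.norm_eq_abs, sq_abs]
  have h3 : ∀ x, (((1 / 3 : ℝ) : ℂ) • ∑ i, Pr w i F) x =
      (((1/15) * ∑ p : Fin 3 × ZMod 5, f (w p.1 p.2 * x) : ℝ) : ℂ) := by
    intro x
    have h4 : ∀ i, (Pr w i F) x = ((1 / 5 : ℝ) : ℂ) * ∑ a, ((f (w i a * x) : ℝ) : ℂ) := by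
      intro i
      have : (Pr w i F) = ((1 / 5 : ℝ) : ℂ) • ∑ a, U (w i a) F := by
        unfold Pr avg
        rw [ContinuousLinearMap.smul_apply, ContinuousLinearMap.sum_apply]
      rw [this, PiLp.smul_apply, smul_eq_mul]
      congr 1
      have h5 : (∑ a, U (w i a) F) x = ∑ a, (U (w i a) F) x := by
        simp
      rw [h5, ← Equiv.sum_comp (Equiv.neg (ZMod 5))]
      refine Finset.sum_congr rfl fun a _ => ?_
      rw [U_apply]
      have h6 : (w i ((Equiv.neg (ZMod 5)) a))⁻¹ = w i a := by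
        have := h.wadd i (-a) a
        rw [neg_add_cancel, h.w0] at this
        exact (eq_inv_of_mul_eq_one_right this.symm).symm
      rw [h6]
    rw [PiLp.smul_apply]
    have h5 : (∑ i, Pr w i F) x = ∑ i, (Pr w i F) x := by simp
    rw [h5, smul_eq_mul]
    simp only [h4]
    rw [← Finset.mul_sum, Fintype.sum_prod_type]
    push_cast
    ring
  have h4 : ‖((1 / 3 : ℝ) : ℂ) • ∑ i, Pr w i F‖ ^ 2 =
      ∑ x, ((1/15) * ∑ p : Fin 3 × ZMod 5, f (w p.1 p.2 * x)) ^ 2 := by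
    rw [EuclideanSpace.norm_sq_eq]
    refine Finset.sum_congr rfl fun x _ => ?_
    rw [h3, Complex.norm_real, Real.norm_eq_abs, sq_abs]
  rw [h4, h2] at h1
  simp only [mul_pow] at h1
  rw [← Finset.mul_sum] at h1
  linarith

end

end Pool.Agent.K3h39.LT
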