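import Pool.Agent.K3h39.LT.Tst

/-!
# The family of 3-query codes with linearly many short dual words
-/

set_option autoImplicit false
set_option linter.unusedSectionVars false

namespace Pool.Agent.K3h39.LT

open Finset

section

variable {Γ Γ' : Type} [Fintype Γ] [DecidableEq Γ] [Fintype Γ'] [DecidableEq Γ']

/-- transported code -/
def trC (e : Γ ≃ Γ') (C : Submodule (ZMod 2) (Γ → ZMod 2)) : Submodule (ZMod 2) (Γ' → ZMod 2) :=
  C.comap (LinearEquiv.funCongrLeft (ZMod 2) (ZMod 2) e : (Γ' → ZMod 2) →ₗ[ZMod 2] (Γ → ZMod 2))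

theorem mem_trC {e : Γ ≃ Γ'} {C : Submodule (ZMod 2) (Γ → ZMod 2)} {w : Γ' → ZMod 2} :
    w ∈ trC e C ↔ w ∘ e ∈ C := Iff.rfl

theorem finrank_trC (e : Γ ≃ Γ') (C : Submodule (ZMod 2) (Γ → ZMod 2)) :
    Module.finrank (ZMod 2) (trC e C) = Module.finrank (ZMod 2) C := by
  unfold trC
  rw [Submodule.comap_equiv_eq_map_symm]
  exact LinearEquiv.finrank_map_eq _ _

theorem norm_comp (e : Γ ≃ Γ') (w : Γ' → ZMod 2) : hammingNorm (w ∘ e) = hammingNorm w := by
  unfold hammingNorm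
  rw [card_filter, card_filter]
  exact Equiv.sum_comp e (fun i => if w i ≠ 0 then 1 else 0)

theorem dist_comp (e : Γ ≃ Γ') (w c : Γ' → ZMod 2) :
    hammingDist (w ∘ e) (c ∘ e) = hammingDist w c := by
  unfold hammingDist
  rw [card_filter, card_filter]
  exact Equiv.sum_comp e (fun i => if w i ≠ c i then 1 else 0)

theorem sum_comp' (e : Γ ≃ Γ') (u w : Γ' → ZMod 2) :
    ∑ i, (u ∘ e) i * (w ∘ e) i = ∑ i, u i * w i :=
  Equiv.sum_comp e (fun i => u i * w i)

theorem dual_trC (e : Γ ≃ Γ') (C : Submodule (ZMod 2) (Γ → ZMod 2)) {u : Γ' → ZMod 2}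
    (h : ∀ c ∈ trC e C, ∑ i, u i * c i = 0) : ∀ c ∈ C, ∑ i, (u ∘ e) i * c i = 0 := by
  intro c hc
  have h1 : (c ∘ e.symm) ∘ e = c := by funext i; simp
  have h2 := h (c ∘ e.symm) (mem_trC.2 (by rw [h1]; exact hc))
  rw [← sum_comp' e, h1] at h2
  exact h2

theorem dual_trC' (e : Γ ≃ Γ') (C : Submodule (ZMod 2) (Γ → ZMod 2)) {u : Γ → ZMod 2}
    (h : ∀ c ∈ C, ∑ i, u i * c i = 0) : ∀ c ∈ trC e C, ∑ i, (u ∘ e.symm) i * c i = 0 := by
  intro c hc
  have h1 : (u ∘ e.symm) ∘ e = u := by funext i; simp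
  rw [← sum_comp' e, h1]
  exact h _ (mem_trC.1 hc)

theorem count_trC (e : Γ ≃ Γ') (C : Submodule (ZMod 2) (Γ → ZMod 2)) :
    {u : Γ' → ZMod 2 | (∀ c ∈ trC e C, ∑ i, u i * c i = 0) ∧
              0 < hammingNorm u ∧ hammingNorm u ≤ 3}.ncard ≤
    {u : Γ → ZMod 2 | (∀ c ∈ C, ∑ i, u i * c i = 0) ∧
              0 < hammingNorm u ∧ hammingNorm u ≤ 3}.ncard := by
  refine Set.ncard_le_ncard_of_injOn (fun u => u ∘ e) ?_ ?_ (Set.toFinite _)
  · rintro u ⟨h1, h2, h3⟩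
    refine ⟨dual_trC e C h1, ?_, ?_⟩
    · rw [norm_comp]; exact h2
    · rw [norm_comp]; exact h3
  · intro u _ u' _ h
    exact e.surjective.injective_comp_right h

theorem viol_trC (e : Γ ≃ Γ') (C : Submodule (ZMod 2) (Γ → ZMod 2)) (w : Γ' → ZMod 2) :
    violN C (w ∘ e) ≤
    {u : Γ' → ZMod 2 | (∀ c ∈ trC e C, ∑ i, u i * c i = 0) ∧
              0 < hammingNorm u ∧ hammingNorm u ≤ 3 ∧ ∑ i, u i * w i ≠ 0}.ncard := by
  unfold violN
  refine Set.ncard_le_ncard_of_injOn (fun u => u ∘ e.symm) ?_ ?_ (Set.toFinite _)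
  · rintro u ⟨h1, h2, h3, h4⟩
    have h5 : (u ∘ e.symm) ∘ e = u := by funext i; simp
    refine ⟨dual_trC' e C h1, ?_, ?_, ?_⟩
    · rw [norm_comp]; exact h2
    · rw [norm_comp]; exact h3
    · rw [← sum_comp' e, h5]; exact h4
  · intro u _ u' _ h
    exact e.symm.surjective.injective_comp_right h

end

theorem Base.reindex {I J Q Q' : Type} [Fintype I] [DecidableEq I] [Fintype J] [Fintype Q]
    [Fintype Q'] {f : J → Q → I} {ε : J → Q → ZMod 2} {Δ : ℕ} {δ0 K0 : ℝ} (e : Q' ≃ Q)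
    (h : Base I J Q f ε Δ δ0 K0) :
    Base I J Q' (fun j l => f j (e l)) (fun j l => ε j (e l)) Δ δ0 K0 where
  card := h.card
  deg i := by
    refine le_trans ?_ (h.deg i)
    refine card_le_card_of_injOn (fun p => (p.1, e p.2)) ?_ ?_
    · intro p hp
      have hp := (mem_filter.1 (mem_coe.1 hp)).2
      exact mem_coe.2 (mem_filter.2 ⟨mem_univ _, hp⟩)
    · rintro ⟨a, b⟩ _ ⟨a', b'⟩ _ heq
      simp only [Prod.mk.injEq, EmbeddingLike.apply_eq_iff_eq] at heq
      rw [heq.1, heq.2]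
  dist x hx hne := h.dist x (fun j => by
    rw [← hx j]
    exact (Equiv.sum_comp e (fun q => ε j q * x (f j q))).symm) hne
  ltc w := by
    obtain ⟨c, h1, h2⟩ := h.ltc w
    refine ⟨c, fun j => ?_, ?_⟩
    · rw [← h1 j]
      exact Equiv.sum_comp e (fun q => ε j q * c (f j q))
    · refine h2.trans (le_of_eq ?_)
      congr 2
      congr 1
      ext j
      simp only [mem_filter, mem_univ, true_and]
      rw [Equiv.sum_comp e (fun q => ε j q * w (f j q))]

/-- conditions on a code of length `n` -/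
structure GoodC (r δ K Qc : ℝ) (n : ℕ) (C : Submodule (ZMod 2) (Fin n → ZMod 2)) : Prop where
  rate : r * (n : ℝ) ≤ (Module.finrank (ZMod 2) C : ℝ)
  dist : ∀ c ∈ C, c ≠ 0 → δ * (n : ℝ) ≤ (hammingNorm c : ℝ)
  test : ∀ w : Fin n → ZMod 2, ∃ c ∈ C, (hammingDist w c : ℝ) ≤
    K * ({u : Fin n → ZMod 2 | (∀ c ∈ C, ∑ i, u i * c i = 0) ∧
              0 < hammingNorm u ∧ hammingNorm u ≤ 3 ∧ ∑ i, u i * w i ≠ 0}.ncard : ℝ)
  count : ({u : Fin n → ZMod 2 | (∀ c ∈ C, ∑ i, u i * c i = 0) ∧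
              0 < hammingNorm u ∧ hammingNorm u ≤ 3}.ncard : ℝ) ≤ Qc * n

theorem family : ∃ r δ K Qc : ℝ, 0 < r ∧ 0 < δ ∧ 0 < K ∧ 0 < Qc ∧ ∀ N : ℕ, ∃ n : ℕ, N ≤ n ∧
    ∃ C : Submodule (ZMod 2) (Fin n → ZMod 2), GoodC r δ K Qc n C := by
  classical
  obtain ⟨Q, hQ, Δ, δ0, K0, hδ0, hK0, hex⟩ := exists_base
  set q := Fintype.card Q with hq
  let eQ : Fin q ≃ Q := (Fintype.equivFin Q).symm
  have hq0 : (0 : ℝ) ≤ q := Nat.cast_nonneg _
  refine ⟨1 / (2 * (2 * q + 3)), δ0 / (12 * (2 * q + 3)), K2 q Δ K0,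
    8 * (2 * (2 * q + 3 * Δ + 5)) ^ 2, by positivity, by positivity, K2_pos q Δ hK0,
    by positivity, fun N => ?_⟩
  obtain ⟨I, J, fI, dI, fJ, f', ε', hN, hB'⟩ := hex N
  have hB := hB'.reindex eQ
  set f : J → Fin q → I := fun j l => f' j (eQ l) with hf
  set ε : J → Fin q → ZMod 2 := fun j l => ε' j (eQ l) with hε
  have hfr := finrank_codeB f ε
  obtain ⟨G0, μ, π, hM⟩ := exists_mask (J := J) (codeB f ε) hfr hB.card
  have hcardΓ : Fintype.card (Gm G0 J q) =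
      3 * (G0.card + (Fintype.card I + (Fintype.card J * (q + 1) + Fintype.card J * q))) := by
    simp only [Fintype.card_prod, Fintype.card_sum, ZMod.card, Fintype.card_fin, Fintype.card_coe]
  have hG0 : G0.card ≤ Fintype.card I := card_le_univ _
  have hJ := hB.card
  have hup : Fintype.card (Gm G0 J q) ≤ 3 * (2 * q + 3) * Fintype.card I := by
    rw [hcardΓ]
    have : Fintype.card J * (q + 1) + Fintype.card J * q ≤ (2 * q + 1) * Fintype.card I := by
      have h1 : Fintype.card J ≤ Fintype.card I := by omega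
      calc _ = (2 * q + 1) * Fintype.card J := by ring
        _ ≤ _ := Nat.mul_le_mul_left _ h1
    calc _ ≤ 3 * (Fintype.card I + (Fintype.card I + (2 * q + 1) * Fintype.card I)) := by omega
      _ = _ := by ring
  have hlow : Fintype.card I ≤ Fintype.card (Gm G0 J q) := by rw [hcardΓ]; omega
  have hup' : (Fintype.card (Gm G0 J q) : ℝ) ≤ 3 * (2 * q + 3) * Fintype.card I := by
    exact_mod_cast hup
  set e : Gm G0 J q ≃ Fin (Fintype.card (Gm G0 J q)) := Fintype.equivFin _ with he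
  refine ⟨Fintype.card (Gm G0 J q), hN.trans hlow, trC e (codeE (codeB f ε) f ε μ π), ?_⟩
  constructor
  · rw [finrank_trC, finrank_codeE]
    have h1 : Fintype.card I ≤ 2 * Module.finrank (ZMod 2) (codeB f ε) := by omega
    have h2 : (Fintype.card I : ℝ) ≤ 2 * Module.finrank (ZMod 2) (codeB f ε) := by
      exact_mod_cast h1
    push_cast
    have h3 : 1 / (2 * (2 * (q : ℝ) + 3)) * (Fintype.card (Gm G0 J q) : ℝ) ≤
        1 / (2 * (2 * (q : ℝ) + 3)) * (3 * (2 * q + 3) * Fintype.card I) := by gcongr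
    refine h3.trans ?_
    have h4 : 1 / (2 * (2 * (q : ℝ) + 3)) * (3 * (2 * q + 3) * Fintype.card I) =
        3 / 2 * Fintype.card I := by
      rw [div_mul_eq_mul_div, div_eq_iff (by positivity)]; ring
    rw [h4]
    linarith
  · intro c hc hne
    have h1 := dist_codeE (δ1 := δ0 * Fintype.card I) hM
      (fun x hx hx0 => hB.dist x (mem_codeB.1 hx) hx0) (mem_trC.1 hc) (fun h0 => hne (by
        funext i
        have := congrFun h0 (e.symm i)
        simpa using this))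
    rw [norm_comp] at h1
    have h3 : δ0 / (12 * (2 * (q : ℝ) + 3)) * (Fintype.card (Gm G0 J q) : ℝ) ≤
        δ0 / (12 * (2 * (q : ℝ) + 3)) * (3 * (2 * q + 3) * Fintype.card I) := by gcongr
    refine h3.trans ?_
    have h4 : δ0 / (12 * (2 * (q : ℝ) + 3)) * (3 * (2 * q + 3) * Fintype.card I) =
        δ0 * Fintype.card I / 4 := by
      rw [div_mul_eq_mul_div, div_eq_iff (by positivity)]; ring
    rw [h4]
    linarith
  · intro w
    obtain ⟨c, hc, hd⟩ := test_codeE hM hB hK0 (w ∘ e)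
    have h1 : (c ∘ e.symm) ∘ e = c := by funext i; simp
    refine ⟨c ∘ e.symm, mem_trC.2 (by rw [h1]; exact hc), ?_⟩
    rw [← dist_comp e, h1]
    refine hd.trans ?_
    refine mul_le_mul_of_nonneg_left ?_ (K2_pos q Δ hK0).le
    exact_mod_cast viol_trC e _ w
  · have h1 := (count_trC e (codeE (codeB f ε) f ε μ π)).trans (dual_count hM hB.deg)
    have h2 : ({u : Fin (Fintype.card (Gm G0 J q)) → ZMod 2 |
        (∀ c ∈ trC e (codeE (codeB f ε) f ε μ π), ∑ i, u i * c i = 0) ∧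
              0 < hammingNorm u ∧ hammingNorm u ≤ 3}.ncard : ℝ) ≤
        ((8 * (2 * (2 * q + 3 * Δ + 5)) ^ 2 * Fintype.card (Gm G0 J q) : ℕ) : ℝ) := by
      exact_mod_cast h1
    refine h2.trans (le_of_eq ?_)
    push_cast
    ring

end Pool.Agent.K3h39.LT
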