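import Pool.Agent.K3h39.LT.Base
import Pool.Agent.K3h39.LT.Cnt

/-!
# Good coordinates and masks
-/

set_option autoImplicit false
set_option linter.unusedSectionVars false

namespace Pool.Agent.K3h39.LT

open Finset

section

variable {I J Q : Type} [Fintype I] [DecidableEq I] [Fintype J] [DecidableEq J] [Fintype Q]

/-- the code of a system of checks -/
def codeB (f : J → Q → I) (ε : J → Q → ZMod 2) : Submodule (ZMod 2) (I → ZMod 2) :=
  LinearMap.ker (LinearMap.pi fun j => ∑ q, ε j q • (LinearMap.proj (f j q) :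
    (I → ZMod 2) →ₗ[ZMod 2] ZMod 2))

theorem mem_codeB {f : J → Q → I} {ε : J → Q → ZMod 2} {x : I → ZMod 2} :
    x ∈ codeB f ε ↔ ∀ j, ∑ q, ε j q * x (f j q) = 0 := by
  unfold codeB
  rw [LinearMap.mem_ker, funext_iff]
  refine forall_congr' fun j => ?_
  simp [LinearMap.sum_apply]

theorem finrank_codeB (f : J → Q → I) (ε : J → Q → ZMod 2) :
    Fintype.card I ≤ Module.finrank (ZMod 2) (codeB f ε) + Fintype.card J := by
  have h := LinearMap.finrank_range_add_finrank_ker (LinearMap.pi fun j => ∑ q, ε j q •
    (LinearMap.proj (f j q) : (I → ZMod 2) →ₗ[ZMod 2] ZMod 2))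
  rw [Module.finrank_fintype_fun_eq_card] at h
  have h2 : Module.finrank (ZMod 2) (LinearMap.range (LinearMap.pi fun j => ∑ q, ε j q •
    (LinearMap.proj (f j q) : (I → ZMod 2) →ₗ[ZMod 2] ZMod 2))) ≤ Fintype.card J := by
    have := Submodule.finrank_le (LinearMap.range (LinearMap.pi fun j => ∑ q, ε j q •
      (LinearMap.proj (f j q) : (I → ZMod 2) →ₗ[ZMod 2] ZMod 2)))
    rwa [Module.finrank_fintype_fun_eq_card] at this
  unfold codeB
  omega

theorem family_card (C : Submodule (ZMod 2) (I → ZMod 2)) (T : Finset (Finset I))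
    (hne : ∀ t ∈ T, t.Nonempty) (hp : ∀ t ∈ T, Perp C (ind t))
    (hd : ∀ t ∈ T, ∀ t' ∈ T, t ≠ t' → Disjoint t t') :
    Module.finrank (ZMod 2) C + T.card ≤ Fintype.card I := by
  classical
  choose p hpm using hne
  let φ1 : (↥T → ZMod 2) →ₗ[ZMod 2] (I → ZMod 2) :=
    ∑ t : ↥T, (LinearMap.toSpanSingleton (ZMod 2) (I → ZMod 2)
      (Pi.single (p t.1 t.2) (1 : ZMod 2))).comp (LinearMap.proj t)
  let φ : (C × (↥T → ZMod 2)) →ₗ[ZMod 2] (I → ZMod 2) := C.subtype.coprod φ1
  have hφ : ∀ x y, φ (x, y) = (x : I → ZMod 2) +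
      ∑ t : ↥T, y t • Pi.single (p t.1 t.2) (1 : ZMod 2) := by
    intro x y
    simp only [φ, φ1, LinearMap.coprod_apply, Submodule.subtype_apply, LinearMap.sum_apply,
      LinearMap.comp_apply, LinearMap.proj_apply, LinearMap.toSpanSingleton_apply]
  have hmem : ∀ t t' : ↥T, p t.1 t.2 ∈ t'.1 ↔ t = t' := by
    intro t t'
    constructor
    · intro h
      by_contra hne
      have := hd t.1 t.2 t'.1 t'.2 (fun h => hne (Subtype.ext h))
      exact (disjoint_left.1 this) (hpm t.1 t.2) h
    · rintro rfl; exact hpm _ _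
  have hinj : Function.Injective φ := by
    rw [← LinearMap.ker_eq_bot, LinearMap.ker_eq_bot']
    rintro ⟨x, y⟩ h0
    rw [hφ] at h0
    have hy : y = 0 := by
      funext t
      have h1 : ∑ i, ind t.1 i * ((x : I → ZMod 2) +
          ∑ t : ↥T, y t • (Pi.single (p t.1 t.2) (1 : ZMod 2) : I → ZMod 2)) i = 0 := by
        rw [h0]; simp
      simp only [Pi.add_apply, mul_add, sum_add_distrib, Finset.sum_apply, Pi.smul_apply,
        smul_eq_mul] at h1
      rw [hp t.1 t.2 x.1 x.2, zero_add] at h1
      have h2 : ∑ i, ind t.1 i * ∑ t' : ↥T, y t' *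
          (Pi.single (p t'.1 t'.2) (1 : ZMod 2) : I → ZMod 2) i = y t := by
        simp only [mul_sum]
        rw [sum_comm, sum_eq_single t]
        · rw [sum_eq_single (p t.1 t.2)]
          · simp [ind, hpm]
          · intro b _ hb
            rw [Pi.single_eq_of_ne hb]; simp
          · intro h; exact absurd (mem_univ _) h
        · intro t' _ hne
          rw [sum_eq_single (p t'.1 t'.2)]
          · have : p t'.1 t'.2 ∉ t.1 := fun h => hne ((hmem t' t).1 h)
            simp [ind, this]
          · intro b _ hb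
            rw [Pi.single_eq_of_ne hb]; simp
          · intro h; exact absurd (mem_univ _) h
        · intro h; exact absurd (mem_univ _) h
      rw [h2] at h1
      exact h1
    subst hy
    simp only [Pi.zero_apply, zero_smul, sum_const_zero, add_zero] at h0
    have : x = 0 := Subtype.ext h0
    rw [this]; rfl
  have h := LinearMap.finrank_le_finrank_of_injective hinj
  rw [Module.finrank_prod, Module.finrank_fintype_fun_eq_card,
    Module.finrank_fintype_fun_eq_card, Fintype.card_coe] at h
  exact h

theorem exists_G0 (C : Submodule (ZMod 2) (I → ZMod 2)) : ∃ G0 : Finset I,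
    (∀ T : I → ZMod 2, (∀ i, T i ≠ 0 → i ∈ G0) → hammingNorm T ≤ 6 → Perp C T → T = 0) ∧
    Fintype.card I ≤ G0.card + 6 * (Fintype.card I - Module.finrank (ZMod 2) C) := by
  classical
  set P : Finset (Finset I) → Prop := fun T => (∀ t ∈ T, t.Nonempty ∧ t.card ≤ 6 ∧ Perp C (ind t)) ∧
    ∀ t ∈ T, ∀ t' ∈ T, t ≠ t' → Disjoint t t' with hP
  have hne : (univ.filter P).Nonempty := ⟨∅, by
    rw [mem_filter]
    exact ⟨mem_univ _, by simp [hP]⟩⟩
  obtain ⟨T, hT, hmax⟩ := exists_max_image (univ.filter P) Finset.card hne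
  have hT := (mem_filter.1 hT).2
  have hcard := family_card C T (fun t ht => (hT.1 t ht).1) (fun t ht => (hT.1 t ht).2.2) hT.2
  refine ⟨univ \ T.biUnion id, ?_, ?_⟩
  · intro X hX hn hp
    by_contra hX0
    set t : Finset I := univ.filter fun i => X i ≠ 0 with ht
    have hind : ind t = X := by
      funext i
      unfold ind
      rcases zmod2_cases (X i) with h | h
      · have : i ∉ t := by rw [ht, mem_filter, not_and_or]; right; rw [h]; simp
        rw [if_neg this, h]
      · have : i ∈ t := by rw [ht, mem_filter]; refine ⟨mem_univ _, ?_⟩; rw [h]; decide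
        rw [if_pos this, h]
    have htne : t.Nonempty := by
      rw [nonempty_iff_ne_empty]
      intro h0
      apply hX0
      rw [← hind, h0]
      funext i; simp [ind]
    have htd : ∀ s ∈ T, Disjoint t s := by
      intro s hs
      rw [disjoint_left]
      intro i hi his
      have := hX i (mem_filter.1 hi).2
      rw [mem_sdiff, mem_biUnion] at this
      exact this.2 ⟨s, hs, his⟩
    have htT : t ∉ T := by
      intro h
      have := htd t h
      rw [disjoint_self] at this
      exact htne.ne_empty this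
    have hins : insert t T ∈ univ.filter P := by
      rw [mem_filter]
      refine ⟨mem_univ _, ?_, ?_⟩
      · intro s hs
        rcases mem_insert.1 hs with rfl | hs
        · exact ⟨htne, hn, by rw [hind]; exact hp⟩
        · exact hT.1 s hs
      · intro s hs s' hs' hne
        rcases mem_insert.1 hs with rfl | hs
        · rcases mem_insert.1 hs' with rfl | hs'
          · exact absurd rfl hne
          · exact htd s' hs'
        · rcases mem_insert.1 hs' with rfl | hs'
          · exact (htd s hs).symm
          · exact hT.2 s hs s' hs' hne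
    have := hmax _ hins
    rw [card_insert_of_notMem htT] at this
    omega
  · rw [card_sdiff, card_univ]
    have h1 : (T.biUnion id).card ≤ T.card * 6 := by
      refine card_biUnion_le.trans ?_
      calc ∑ u ∈ T, (id u).card ≤ ∑ u ∈ T, 6 := sum_le_sum fun u hu => (hT.1 u hu).2.1
        _ = T.card * 6 := by rw [sum_const, smul_eq_mul]
    have h2 : (T.biUnion id ∩ univ).card = (T.biUnion id).card := by rw [inter_univ]
    rw [h2]
    omega

/-- masks -/
structure Mask (C : Submodule (ZMod 2) (I → ZMod 2)) (G0 : Finset I)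
    (μ : I → ↥G0) (π : J → ↥G0) : Prop where
  good : ∀ T : I → ZMod 2, (∀ i, T i ≠ 0 → i ∈ G0) → hammingNorm T ≤ 6 → Perp C T → T = 0
  fmu : ∀ g, (univ.filter fun i => μ i = g).card ≤ 3
  ipi : Function.Injective π
  disj : ∀ i j, μ i ≠ π j

theorem exists_mask (C : Submodule (ZMod 2) (I → ZMod 2))
    (h : Fintype.card I ≤ Module.finrank (ZMod 2) C + Fintype.card J)
    (h12 : 12 * Fintype.card J ≤ Fintype.card I) :
    ∃ (G0 : Finset I) (μ : I → ↥G0) (π : J → ↥G0), Mask C G0 μ π := by
  classical
  obtain ⟨G0, hgood, hcard⟩ := exists_G0 C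
  have h1 : Fintype.card I ≤ G0.card + 6 * Fintype.card J := by omega
  have h2 : Fintype.card J ≤ Fintype.card ↥G0 := by rw [Fintype.card_coe]; omega
  obtain ⟨π⟩ := Function.Embedding.nonempty_of_card_le h2
  have h3 : Fintype.card {g : ↥G0 // g ∉ univ.image π} = G0.card - Fintype.card J := by
    rw [Fintype.card_subtype_compl, Fintype.card_coe, Fintype.card_coe,
      card_image_of_injective _ π.injective, card_univ]
  have h4 : Fintype.card I ≤ Fintype.card ({g : ↥G0 // g ∉ univ.image π} × Fin 3) := by
    rw [Fintype.card_prod, h3, Fintype.card_fin]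
    omega
  obtain ⟨e⟩ := Function.Embedding.nonempty_of_card_le h4
  refine ⟨G0, fun i => (e i).1.1, π, hgood, ?_, π.injective, ?_⟩
  · intro g
    have : (univ.filter fun i => ((e i).1.1 : ↥G0) = g).card ≤ (univ : Finset (Fin 3)).card := by
      refine card_le_card_of_injOn (fun i => (e i).2) (fun _ _ => mem_coe.2 (mem_univ _)) ?_
      intro i hi i' hi' heq
      have hi := (mem_filter.1 (mem_coe.1 hi)).2
      have hi' := (mem_filter.1 (mem_coe.1 hi')).2
      apply e.injective
      refine Prod.ext (Subtype.ext (hi.trans hi'.symm)) heq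
    simpa using this
  · intro i j hij
    apply (e i).1.2
    rw [hij]
    exact mem_image_of_mem _ (mem_univ _)

end

end Pool.Agent.K3h39.LT
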