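import Pool.Agent.K3h39.LT.Enc

/-!
# Testing the masked code with three queries
-/

set_option autoImplicit false
set_option linter.unusedSectionVars false

namespace Pool.Agent.K3h39.LT

open Finset

section

variable {Γ : Type} [Fintype Γ] [DecidableEq Γ]

/-- number of violated short dual words -/
noncomputable def violN (C : Submodule (ZMod 2) (Γ → ZMod 2)) (w : Γ → ZMod 2) : ℕ :=
  {u : Γ → ZMod 2 | (∀ c ∈ C, ∑ i, u i * c i = 0) ∧
    0 < hammingNorm u ∧ hammingNorm u ≤ 3 ∧ ∑ i, u i * w i ≠ 0}.ncard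

/-- a word of weight at most three -/
def wd (a b c : Γ) (e : ZMod 2) : Γ → ZMod 2 := Pi.single a 1 + Pi.single b e + Pi.single c 1

theorem sum_wd (a b c : Γ) (e : ZMod 2) (w : Γ → ZMod 2) :
    ∑ i, wd a b c e i * w i = w a + e * w b + w c := by
  unfold wd
  simp only [Pi.add_apply, add_mul, sum_add_distrib]
  have h : ∀ (a : Γ) (e : ZMod 2), ∑ i, (Pi.single a e : Γ → ZMod 2) i * w i = e * w a := by
    intro a e
    rw [sum_eq_single a]
    · rw [Pi.single_eq_same]
    · intro b _ hb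
      rw [Pi.single_eq_of_ne hb, zero_mul]
    · intro h; exact absurd (mem_univ _) h
  rw [h, h, h, one_mul, one_mul]

theorem norm_single_le (a : Γ) (e : ZMod 2) : hammingNorm (Pi.single a e : Γ → ZMod 2) ≤ 1 := by
  unfold hammingNorm
  rw [card_le_one]
  intro x hx y hy
  have hx := (mem_filter.1 hx).2
  have hy := (mem_filter.1 hy).2
  have h1 : x = a := by
    by_contra h; exact hx (Pi.single_eq_of_ne h _)
  have h2 : y = a := by
    by_contra h; exact hy (Pi.single_eq_of_ne h _)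
  rw [h1, h2]

theorem norm_wd (a b c : Γ) (e : ZMod 2) : hammingNorm (wd a b c e) ≤ 3 := by
  unfold wd
  have h1 := norm_add_le (Pi.single a 1 + Pi.single b e) (Pi.single c 1 : Γ → ZMod 2)
  have h2 := norm_add_le (Pi.single a 1) (Pi.single b e : Γ → ZMod 2)
  have h3 := norm_single_le a (1 : ZMod 2)
  have h4 := norm_single_le b e
  have h5 := norm_single_le c (1 : ZMod 2)
  omega

theorem viol_le {K : Type} [Fintype K] [DecidableEq K] {C : Submodule (ZMod 2) (Γ → ZMod 2)}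
    (word : K → Γ → ZMod 2) (z : K → Γ) (h1 : ∀ κ, word κ (z κ) ≠ 0)
    (h2 : ∀ κ κ', word κ (z κ') ≠ 0 → κ = κ') (hdual : ∀ κ, ∀ c ∈ C, ∑ i, word κ i * c i = 0)
    (h3 : ∀ κ, hammingNorm (word κ) ≤ 3) (w : Γ → ZMod 2) :
    (univ.filter fun κ => ∑ i, word κ i * w i ≠ 0).card ≤ violN C w := by
  classical
  unfold violN
  rw [← Set.ncard_coe_finset]
  refine Set.ncard_le_ncard_of_injOn word ?_ ?_ (Set.toFinite _)
  · intro κ hκ
    have hκ := (mem_filter.1 (mem_coe.1 hκ)).2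
    refine ⟨hdual κ, ?_, h3 κ, hκ⟩
    rw [hammingNorm_pos_iff]
    intro h0
    apply h1 κ
    rw [h0]; rfl
  · intro κ _ κ' _ heq
    apply h2
    rw [heq]
    exact h1 κ'

end

section

variable {I J : Type} [Fintype I] [DecidableEq I] [Fintype J] [DecidableEq J] {q : ℕ}
variable {G0 : Finset I} {f : J → Fin q → I} {ε : J → Fin q → ZMod 2} {μ : I → ↥G0} {π : J → ↥G0}
  {C : Submodule (ZMod 2) (I → ZMod 2)}

theorem z2a (a b : ZMod 2) (h : a + b = 0) : a = b := by revert a b; decide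

theorem z2b (a b c : ZMod 2) (h : a + b + c = 0) : c = a + b := by revert a b c; decide

theorem v0_le (w : Gm G0 J q → ZMod 2) :
    (univ.filter fun κ : ZMod 3 × J => w (κ.1, lU (π κ.2)) ≠ w (κ.1, lP κ.2 0)).card ≤
      violN (codeE C f ε μ π) w := by
  classical
  refine le_trans (card_le_card ?_) (viol_le (C := codeE C f ε μ π)
    (fun κ : ZMod 3 × J => wd ((κ.1, lU (π κ.2)) : Gm G0 J q) (κ.1, lU (π κ.2)) (κ.1, lP κ.2 0) 0)
    (fun κ => (κ.1, lP κ.2 0)) ?_ ?_ ?_ (fun κ => norm_wd _ _ _ _) w)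
  · intro κ hκ
    have hκ := (mem_filter.1 hκ).2
    rw [mem_filter]
    refine ⟨mem_univ _, ?_⟩
    rw [sum_wd]
    intro h
    apply hκ
    apply z2a
    rw [← h]; ring
  · rintro ⟨t, c⟩
    simp [wd, Pi.single_apply]
  · rintro ⟨t, c⟩ ⟨t', c'⟩ h
    by_contra hne
    apply h
    have : ¬ (t' = t ∧ c' = c) := fun h => hne (by rw [h.1, h.2])
    simp [wd, Pi.single_apply, this]
  · rintro ⟨t, c⟩ w hw
    obtain ⟨x, hx, rfl⟩ := mem_codeE.1 hw
    rw [sum_wd]
    simp only [enc, val, Fin.val_zero, par_zero]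
    ring_nf
    exact (by decide : ∀ a : ZMod 2, a * 2 = 0) _

theorem v3_le (hC : C ≤ codeB f ε) (w : Gm G0 J q → ZMod 2) :
    (univ.filter fun κ : ZMod 3 × J => w (κ.1, lU (π κ.2)) ≠ w (κ.1, lP κ.2 (Fin.last q))).card ≤
      violN (codeE C f ε μ π) w := by
  classical
  refine le_trans (card_le_card ?_) (viol_le (C := codeE C f ε μ π)
    (fun κ : ZMod 3 × J => wd ((κ.1, lU (π κ.2)) : Gm G0 J q) (κ.1, lU (π κ.2))
      (κ.1, lP κ.2 (Fin.last q)) 0)
    (fun κ => (κ.1, lP κ.2 (Fin.last q))) ?_ ?_ ?_ (fun κ => norm_wd _ _ _ _) w)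
  · intro κ hκ
    have hκ := (mem_filter.1 hκ).2
    rw [mem_filter]
    refine ⟨mem_univ _, ?_⟩
    rw [sum_wd]
    intro h
    apply hκ
    apply z2a
    rw [← h]; ring
  · rintro ⟨t, c⟩
    simp [wd, Pi.single_apply]
  · rintro ⟨t, c⟩ ⟨t', c'⟩ h
    by_contra hne
    apply h
    have : ¬ (t' = t ∧ c' = c) := fun h => hne (by rw [h.1, h.2])
    simp [wd, Pi.single_apply, this]
  · rintro ⟨t, c⟩ w hw
    obtain ⟨x, hx, rfl⟩ := mem_codeE.1 hw
    rw [sum_wd]
    simp only [enc, val, Fin.val_last, par_full]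
    rw [mem_codeB.1 (hC (hx t)) c]
    ring_nf
    exact (by decide : ∀ a : ZMod 2, a * 2 = 0) _

theorem v1_le (w : Gm G0 J q → ZMod 2) :
    (univ.filter fun κ : ZMod 3 × J × Fin q => w (κ.1, lR κ.2.1 κ.2.2) ≠
      w (κ.1, lP κ.2.1 κ.2.2.castSucc) + ε κ.2.1 κ.2.2 * w (κ.1, lM (f κ.2.1 κ.2.2))).card ≤
      violN (codeE C f ε μ π) w := by
  classical
  refine le_trans (card_le_card ?_) (viol_le (C := codeE C f ε μ π)
    (fun κ : ZMod 3 × J × Fin q => wd ((κ.1, lP κ.2.1 κ.2.2.castSucc) : Gm G0 J q)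
      (κ.1, lM (f κ.2.1 κ.2.2)) (κ.1, lR κ.2.1 κ.2.2) (ε κ.2.1 κ.2.2))
    (fun κ => (κ.1, lR κ.2.1 κ.2.2)) ?_ ?_ ?_ (fun κ => norm_wd _ _ _ _) w)
  · intro κ hκ
    have hκ := (mem_filter.1 hκ).2
    rw [mem_filter]
    refine ⟨mem_univ _, ?_⟩
    rw [sum_wd]
    intro h
    apply hκ
    exact z2b _ _ _ h
  · rintro ⟨t, c, l⟩
    simp [wd, Pi.single_apply]
  · rintro ⟨t, c, l⟩ ⟨t', c', l'⟩ h
    by_contra hne
    apply h
    have : ¬ (t' = t ∧ c' = c ∧ l' = l) := fun h => hne (by rw [h.1, h.2.1, h.2.2])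
    simp [wd, Pi.single_apply, this]
  · rintro ⟨t, c, l⟩ w hw
    obtain ⟨x, hx, rfl⟩ := mem_codeE.1 hw
    rw [sum_wd]
    simp only [enc, val, Fin.val_castSucc, par_succ]
    ring_nf
    have : ∀ a b c d e : ZMod 2, a * 2 + b * 2 + c * d * 2 + c * e * 2 = 0 := by decide
    rw [← this]

theorem v2_le (w : Gm G0 J q → ZMod 2) :
    (univ.filter fun κ : ZMod 3 × J × Fin q => w (κ.1, lP κ.2.1 κ.2.2.succ) ≠
      w (κ.1, lR κ.2.1 κ.2.2) + ε κ.2.1 κ.2.2 * w (κ.1, lU (μ (f κ.2.1 κ.2.2)))).card ≤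
      violN (codeE C f ε μ π) w := by
  classical
  refine le_trans (card_le_card ?_) (viol_le (C := codeE C f ε μ π)
    (fun κ : ZMod 3 × J × Fin q => wd ((κ.1, lR κ.2.1 κ.2.2) : Gm G0 J q)
      (κ.1, lU (μ (f κ.2.1 κ.2.2))) (κ.1, lP κ.2.1 κ.2.2.succ) (ε κ.2.1 κ.2.2))
    (fun κ => (κ.1, lR κ.2.1 κ.2.2)) ?_ ?_ ?_ (fun κ => norm_wd _ _ _ _) w)
  · intro κ hκ
    have hκ := (mem_filter.1 hκ).2
    rw [mem_filter]
    refine ⟨mem_univ _, ?_⟩
    rw [sum_wd]
    intro h
    apply hκ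
    exact z2b _ _ _ h
  · rintro ⟨t, c, l⟩
    simp [wd, Pi.single_apply]
  · rintro ⟨t, c, l⟩ ⟨t', c', l'⟩ h
    by_contra hne
    apply h
    have : ¬ (t' = t ∧ c' = c ∧ l' = l) := fun h => hne (by rw [h.1, h.2.1, h.2.2])
    simp [wd, Pi.single_apply, this]
  · rintro ⟨t, c, l⟩ w hw
    obtain ⟨x, hx, rfl⟩ := mem_codeE.1 hw
    rw [sum_wd]
    simp only [enc, val, Fin.val_succ]
    generalize par f ε (x t) c (↑l + 1) = a
    generalize x (t + 1) (π c) = b
    generalize x (t + 1) (μ (f c l)) = d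
    generalize ε c l = e
    revert a b d e
    decide

theorem v4_le (w : Gm G0 J q → ZMod 2) :
    (univ.filter fun κ : ZMod 3 × ↥G0 => w (κ.1 - 1, lU κ.2) ≠
      w (κ.1, lM κ.2.1) + w (κ.1, lU (μ κ.2.1))).card ≤
      violN (codeE C f ε μ π) w := by
  classical
  refine le_trans (card_le_card ?_) (viol_le (C := codeE C f ε μ π)
    (fun κ : ZMod 3 × ↥G0 => wd ((κ.1, lM κ.2.1) : Gm G0 J q)
      (κ.1, lU (μ κ.2.1)) (κ.1 - 1, lU κ.2) 1)
    (fun κ => (κ.1, lM κ.2.1)) ?_ ?_ ?_ (fun κ => norm_wd _ _ _ _) w)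
  · intro κ hκ
    have hκ := (mem_filter.1 hκ).2
    rw [mem_filter]
    refine ⟨mem_univ _, ?_⟩
    rw [sum_wd, one_mul]
    intro h
    apply hκ
    exact z2b _ _ _ h
  · rintro ⟨t, c⟩
    simp [wd, Pi.single_apply]
  · rintro ⟨t, c⟩ ⟨t', c'⟩ h
    by_contra hne
    apply h
    have : ¬ (t' = t ∧ c' = c) := fun h => hne (by rw [h.1, h.2])
    have this : t' = t → ¬ c' = c := fun h1 h2 => this ⟨h1, h2⟩
    simpa [wd, Pi.single_apply] using this
  · rintro ⟨t, c⟩ w hw
    obtain ⟨x, hx, rfl⟩ := mem_codeE.1 hw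
    rw [sum_wd]
    simp only [enc, val, sub_add_cancel]
    generalize x t c.1 = a
    generalize x (t + 1) (μ c.1) = b
    revert a b
    decide

/-- slices -/
theorem slice_le {K : Type} [Fintype K] (p : ZMod 3 → K → Prop)
    [∀ t, DecidablePred (p t)] [DecidablePred fun κ : ZMod 3 × K => p κ.1 κ.2] (t : ZMod 3) :
    (univ.filter fun k => p t k).card ≤ (univ.filter fun κ : ZMod 3 × K => p κ.1 κ.2).card := by
  refine card_le_card_of_injOn (fun k => (t, k)) ?_ ?_
  · intro k hk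
    have hk := (mem_filter.1 (mem_coe.1 hk)).2
    exact mem_coe.2 (mem_filter.2 ⟨mem_univ _, hk⟩)
  · intro a _ b _ hab
    simpa using hab

theorem par_congr {x y : I → ZMod 2} {c : J} (h : ∀ l, x (f c l) = y (f c l)) (n : ℕ) :
    par f ε x c n = par f ε y c n := by
  unfold par
  refine sum_congr rfl fun l _ => ?_
  rw [h l]

theorem chain {w : Gm G0 J q → ZMod 2} {t : ZMod 3} {j : J}
    (h1 : ∀ l, w (t, lR j l) = w (t, lP j l.castSucc) + ε j l * w (t, lM (f j l)))
    (h2 : ∀ l, w (t, lP j l.succ) = w (t, lR j l) + ε j l * w (t, lU (μ (f j l))))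
    (l : Fin (q + 1)) : w (t, lP j l) = w (t, lP j 0) +
      par f ε (fun i => w (t, lM i) + w (t, lU (μ i))) j l.1 := by
  induction l using Fin.induction with
  | zero => rw [Fin.val_zero, par_zero, add_zero]
  | succ l ih =>
    rw [h2, h1, ih, Fin.val_succ, par_succ, Fin.val_castSucc]
    ring

/-- the constant of the three query test -/
noncomputable def K2 (q Δ : ℕ) (K0 : ℝ) : ℝ :=
  3 * ((1 + 4 * K0) + (3 + 16 * K0) + (2 * q + 1) * (3 + (1 + 4 * K0) + Δ * (4 * K0) +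
    Δ * (3 + 16 * K0)))

theorem K2_pos (q Δ : ℕ) {K0 : ℝ} (h : 0 ≤ K0) : 0 < K2 q Δ K0 := by
  unfold K2; positivity

theorem reach_le {Δ : ℕ} (hdeg : ∀ i, (univ.filter fun p : J × Fin q => f p.1 p.2 = i).card ≤ Δ)
    (X : Finset I) : (univ.filter fun j => ∃ l, f j l ∈ X).card ≤ X.card * Δ := by
  have : (univ.filter fun j => ∃ l, f j l ∈ X) ⊆
      X.biUnion fun i => (univ.filter fun p : J × Fin q => f p.1 p.2 = i).image Prod.fst := by
    intro j hj
    obtain ⟨l, hl⟩ := (mem_filter.1 hj).2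
    rw [mem_biUnion]
    refine ⟨f j l, hl, ?_⟩
    rw [mem_image]
    exact ⟨(j, l), mem_filter.2 ⟨mem_univ _, rfl⟩, rfl⟩
  refine (card_le_card this).trans (card_biUnion_le.trans ?_)
  calc _ ≤ ∑ i ∈ X, Δ := sum_le_sum fun i _ => card_image_le.trans (hdeg i)
    _ = _ := by rw [sum_const, smul_eq_mul]

theorem test_codeE {Δ : ℕ} {δ0 K0 : ℝ} (hM : Mask (codeB f ε) G0 μ π)
    (hB : Base I J (Fin q) f ε Δ δ0 K0) (hK0 : 0 ≤ K0) (w : Gm G0 J q → ZMod 2) :
    ∃ c ∈ codeE (codeB f ε) f ε μ π,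
      (hammingDist w c : ℝ) ≤ K2 q Δ K0 * violN (codeE (codeB f ε) f ε μ π) w := by
  classical
  set v := violN (codeE (codeB f ε) f ε μ π) w with hv
  set xt : ZMod 3 → I → ZMod 2 := fun t i => w (t, lM i) + w (t, lU (μ i)) with hxt
  -- violated local checks
  set A0 : ZMod 3 → Finset J := fun t => univ.filter fun j => w (t, lU (π j)) ≠ w (t, lP j 0)
    with hA0
  set A3 : ZMod 3 → Finset J := fun t => univ.filter fun j =>
    w (t, lU (π j)) ≠ w (t, lP j (Fin.last q)) with hA3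
  set A1 : ZMod 3 → Finset J := fun t => univ.filter fun j => ∃ l : Fin q, w (t, lR j l) ≠
      w (t, lP j l.castSucc) + ε j l * w (t, lM (f j l)) with hA1
  set A2 : ZMod 3 → Finset J := fun t => univ.filter fun j => ∃ l : Fin q, w (t, lP j l.succ) ≠
      w (t, lR j l) + ε j l * w (t, lU (μ (f j l))) with hA2
  have c0 : ∀ t, (A0 t).card ≤ v := fun t =>
    (slice_le (fun t j => w (t, lU (π j)) ≠ w (t, lP j 0)) t).trans (v0_le w)
  have c3 : ∀ t, (A3 t).card ≤ v := fun t =>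
    (slice_le (fun t j => w (t, lU (π j)) ≠ w (t, lP j (Fin.last q))) t).trans (v3_le le_rfl w)
  have c1 : ∀ t, (A1 t).card ≤ v := by
    intro t
    refine le_trans ?_ (v1_le (f := f) (ε := ε) (μ := μ) (π := π) (C := codeB f ε) w)
    refine le_trans (card_le_card (t := (univ.filter fun κ : ZMod 3 × J × Fin q =>
      w (κ.1, lR κ.2.1 κ.2.2) ≠ w (κ.1, lP κ.2.1 κ.2.2.castSucc) +
        ε κ.2.1 κ.2.2 * w (κ.1, lM (f κ.2.1 κ.2.2))).image fun κ => κ.2.1) ?_) card_image_le
    intro j hj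
    obtain ⟨l, hl⟩ := (mem_filter.1 hj).2
    rw [mem_image]
    exact ⟨(t, j, l), mem_filter.2 ⟨mem_univ _, hl⟩, rfl⟩
  have c2 : ∀ t, (A2 t).card ≤ v := by
    intro t
    refine le_trans ?_ (v2_le (f := f) (ε := ε) (μ := μ) (π := π) (C := codeB f ε) w)
    refine le_trans (card_le_card (t := (univ.filter fun κ : ZMod 3 × J × Fin q =>
      w (κ.1, lP κ.2.1 κ.2.2.succ) ≠ w (κ.1, lR κ.2.1 κ.2.2) +
        ε κ.2.1 κ.2.2 * w (κ.1, lU (μ (f κ.2.1 κ.2.2)))).image fun κ => κ.2.1) ?_) card_image_le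
    intro j hj
    obtain ⟨l, hl⟩ := (mem_filter.1 hj).2
    rw [mem_image]
    exact ⟨(t, j, l), mem_filter.2 ⟨mem_univ _, hl⟩, rfl⟩
  have good1 : ∀ t j, j ∉ A1 t → ∀ l : Fin q, w (t, lR j l) =
      w (t, lP j l.castSucc) + ε j l * w (t, lM (f j l)) := by
    intro t j hj l
    by_contra h
    exact hj (mem_filter.2 ⟨mem_univ _, l, h⟩)
  have good2 : ∀ t j, j ∉ A2 t → ∀ l : Fin q, w (t, lP j l.succ) =
      w (t, lR j l) + ε j l * w (t, lU (μ (f j l))) := by
    intro t j hj l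
    by_contra h
    exact hj (mem_filter.2 ⟨mem_univ _, l, h⟩)
  have good0 : ∀ t j, j ∉ A0 t → w (t, lU (π j)) = w (t, lP j 0) := by
    intro t j hj
    by_contra h
    exact hj (mem_filter.2 ⟨mem_univ _, h⟩)
  have good3 : ∀ t j, j ∉ A3 t → w (t, lU (π j)) = w (t, lP j (Fin.last q)) := by
    intro t j hj
    by_contra h
    exact hj (mem_filter.2 ⟨mem_univ _, h⟩)
  have hbase : ∀ t, (univ.filter fun j => ∑ l, ε j l * xt t (f j l) ≠ 0).card ≤ 4 * v := by
    intro t
    have hsub : (univ.filter fun j => ∑ l, ε j l * xt t (f j l) ≠ 0) ⊆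
        A0 t ∪ A1 t ∪ A2 t ∪ A3 t := by
      intro j hj
      have hj := (mem_filter.1 hj).2
      by_contra hcon
      simp only [mem_union, not_or] at hcon
      obtain ⟨⟨⟨h0, h1⟩, h2⟩, h3⟩ := hcon
      apply hj
      have hch := chain (good1 t j h1) (good2 t j h2) (Fin.last q)
      rw [← good3 t j h3, good0 t j h0, Fin.val_last, par_full] at hch
      have := (by decide : ∀ a b : ZMod 2, a = a + b → b = 0) _ _ hch
      exact this
    have e1 := card_le_card hsub
    have e2 := card_union_le (A0 t ∪ A1 t ∪ A2 t) (A3 t)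
    have e3 := card_union_le (A0 t ∪ A1 t) (A2 t)
    have e4 := card_union_le (A0 t) (A1 t)
    have := c0 t
    have := c1 t
    have := c2 t
    have := c3 t
    omega
  choose x hx1 hx2 using fun t => hB.ltc (xt t)
  set D : ZMod 3 → Finset I := fun t => univ.filter fun i => xt t i ≠ x t i with hD
  have hDc : ∀ t, ((D t).card : ℝ) ≤ 4 * K0 * v := by
    intro t
    refine (hx2 t).trans ?_
    have : ((univ.filter fun j => ∑ l, ε j l * xt t (f j l) ≠ 0).card : ℝ) ≤ 4 * v := by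
      exact_mod_cast hbase t
    nlinarith
  set EU : ZMod 3 → Finset ↥G0 := fun t => univ.filter fun g => w (t, lU g) ≠ x (t + 1) g with hEU
  have hEUc : ∀ t, (EU t).card ≤ v + (D (t + 1)).card := by
    intro t
    have hsub : EU t ⊆ (univ.filter fun g : ↥G0 => w (t + 1 - 1, lU g) ≠
        w (t + 1, lM g.1) + w (t + 1, lU (μ g.1))) ∪ (univ.filter fun g : ↥G0 => g.1 ∈ D (t + 1)) := by
      intro g hg
      have hg := (mem_filter.1 hg).2
      by_contra hcon
      rw [mem_union, not_or, mem_filter, mem_filter] at hcon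
      obtain ⟨h1, h2⟩ := hcon
      simp only [mem_univ, true_and, not_not] at h1 h2
      apply hg
      have h3 : xt (t + 1) g.1 = x (t + 1) g.1 := by
        by_contra h; exact h2 (mem_filter.2 ⟨mem_univ _, h⟩)
      rw [add_sub_cancel_right] at h1
      rw [h1, ← h3]
    refine (card_le_card hsub).trans ((card_union_le _ _).trans (add_le_add ?_ ?_))
    · exact (slice_le (fun t (g : ↥G0) => w (t - 1, lU g) ≠
        w (t, lM g.1) + w (t, lU (μ g.1))) (t + 1)).trans
        (v4_le (f := f) (ε := ε) (μ := μ) (π := π) (C := codeB f ε) w)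
    · refine card_le_card_of_injOn (fun g => g.1) ?_ ?_
      · intro g hg
        exact mem_coe.2 (mem_filter.1 (mem_coe.1 hg)).2
      · intro a _ b _ h
        exact Subtype.ext h
  set EM : ZMod 3 → Finset I := fun t => univ.filter fun i => w (t, lM i) ≠
    x t i + x (t + 1) (μ i) with hEM
  have hEMc : ∀ t, (EM t).card ≤ (D t).card + 3 * (EU t).card := by
    intro t
    have hsub : EM t ⊆ D t ∪ (EU t).biUnion fun g => univ.filter fun i => μ i = g := by
      intro i hi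
      have hi := (mem_filter.1 hi).2
      by_contra hcon
      rw [mem_union, not_or, mem_biUnion] at hcon
      obtain ⟨h1, h2⟩ := hcon
      apply hi
      have h3 : xt t i = x t i := by
        by_contra h; exact h1 (mem_filter.2 ⟨mem_univ _, h⟩)
      have h4 : w (t, lU (μ i)) = x (t + 1) (μ i) := by
        by_contra h
        exact h2 ⟨μ i, mem_filter.2 ⟨mem_univ _, h⟩, mem_filter.2 ⟨mem_univ _, rfl⟩⟩
      rw [← h3, ← h4]
      exact ((by decide : ∀ a b : ZMod 2, a = a + b + b) _ _)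
    refine (card_le_card hsub).trans ((card_union_le _ _).trans (Nat.add_le_add_left ?_ _))
    refine card_biUnion_le.trans ?_
    calc _ ≤ ∑ g ∈ EU t, 3 := sum_le_sum fun g _ => hM.fmu g
      _ = _ := by rw [sum_const, smul_eq_mul, mul_comm]
  set BD : ZMod 3 → Finset J := fun t => A0 t ∪ A1 t ∪ A2 t ∪ (univ.filter fun j => π j ∈ EU t) ∪
    (univ.filter fun j => ∃ l, f j l ∈ D t) ∪ (univ.filter fun j => ∃ l, f j l ∈ EM t) with hBD
  have hBDc : ∀ t, (BD t).card ≤ 3 * v + (EU t).card + (D t).card * Δ + (EM t).card * Δ := by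
    intro t
    have e1 := card_union_le (A0 t ∪ A1 t ∪ A2 t ∪ (univ.filter fun j => π j ∈ EU t) ∪
      (univ.filter fun j => ∃ l, f j l ∈ D t)) (univ.filter fun j => ∃ l, f j l ∈ EM t)
    have e2 := card_union_le (A0 t ∪ A1 t ∪ A2 t ∪ (univ.filter fun j => π j ∈ EU t))
      (univ.filter fun j => ∃ l, f j l ∈ D t)
    have e3 := card_union_le (A0 t ∪ A1 t ∪ A2 t) (univ.filter fun j => π j ∈ EU t)
    have e4 := card_union_le (A0 t ∪ A1 t) (A2 t)
    have e5 := card_union_le (A0 t) (A1 t)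
    have r1 := reach_le hB.deg (D t)
    have r2 := reach_le hB.deg (EM t)
    have r3 : (univ.filter fun j => π j ∈ EU t).card ≤ (EU t).card := by
      refine card_le_card_of_injOn π ?_ ?_
      · intro j hj
        exact mem_coe.2 (mem_filter.1 (mem_coe.1 hj)).2
      · exact hM.ipi.injOn
    have := c0 t
    have := c1 t
    have := c2 t
    have hB' : (BD t).card = (A0 t ∪ A1 t ∪ A2 t ∪ (univ.filter fun j => π j ∈ EU t) ∪
      (univ.filter fun j => ∃ l, f j l ∈ D t) ∪ (univ.filter fun j => ∃ l, f j l ∈ EM t)).card := rfl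
    omega
  have hP : ∀ t j, j ∉ BD t → ∀ l : Fin (q + 1), w (t, lP j l) =
      par f ε (x t) j l.1 + x (t + 1) (π j) := by
    intro t j hj l
    simp only [hBD, mem_union, not_or, mem_filter, mem_univ, true_and] at hj
    obtain ⟨⟨⟨⟨⟨h0, h1⟩, h2⟩, h3⟩, h4⟩, h5⟩ := hj
    rw [chain (good1 t j h1) (good2 t j h2) l, ← good0 t j h0]
    have h6 : w (t, lU (π j)) = x (t + 1) (π j) := by
      by_contra h; exact h3 (mem_filter.2 ⟨mem_univ _, h⟩)
    rw [h6, add_comm]
    congr 1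
    refine par_congr (fun l => ?_) _
    by_contra h
    exact h4 ⟨l, mem_filter.2 ⟨mem_univ _, h⟩⟩
  have hR : ∀ t j, j ∉ BD t → ∀ l : Fin q, w (t, lR j l) =
      par f ε (x t) j (l.1 + 1) + (x (t + 1) (π j) + ε j l * x (t + 1) (μ (f j l))) := by
    intro t j hj l
    have hp := hP t j hj l.castSucc
    simp only [hBD, mem_union, not_or, mem_filter, mem_univ, true_and] at hj
    obtain ⟨⟨⟨⟨⟨h0, h1⟩, h2⟩, h3⟩, h4⟩, h5⟩ := hj
    have h6 : w (t, lM (f j l)) = x t (f j l) + x (t + 1) (μ (f j l)) := by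
      by_contra h
      exact h5 ⟨l, mem_filter.2 ⟨mem_univ _, h⟩⟩
    rw [good1 t j h1 l, hp, par_succ, h6, Fin.val_castSucc]
    ring
  refine ⟨enc f ε μ π x, mem_codeE.2 ⟨x, fun t => mem_codeB.2 (hx1 t), rfl⟩, ?_⟩
  have hdist : hammingDist w (enc f ε μ π x) ≤
      ∑ t, ((EU t).card + (EM t).card + (BD t).card * (q + 1) + (BD t).card * q) := by
    unfold hammingDist
    rw [card_filter, Fintype.sum_prod_type]
    refine sum_le_sum fun t _ => ?_
    rw [← card_filter, card_split]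
    refine add_le_add (add_le_add (add_le_add ?_ ?_) ?_) ?_
    · exact le_rfl
    · exact le_rfl
    · have : (univ.filter fun c : J × Fin (q + 1) => w (t, lP c.1 c.2) ≠
          enc f ε μ π x (t, lP c.1 c.2)) ⊆ BD t ×ˢ univ := by
        intro c hc
        have hc := (mem_filter.1 hc).2
        rw [mem_product]
        refine ⟨?_, mem_univ _⟩
        by_contra h
        exact hc (hP t c.1 h c.2)
      refine (card_le_card this).trans (le_of_eq ?_)
      rw [card_product, card_univ, Fintype.card_fin]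
    · have : (univ.filter fun c : J × Fin q => w (t, lR c.1 c.2) ≠
          enc f ε μ π x (t, lR c.1 c.2)) ⊆ BD t ×ˢ univ := by
        intro c hc
        have hc := (mem_filter.1 hc).2
        rw [mem_product]
        refine ⟨?_, mem_univ _⟩
        by_contra h
        exact hc (hR t c.1 h c.2)
      refine (card_le_card this).trans (le_of_eq ?_)
      rw [card_product, card_univ, Fintype.card_fin]
  have hdist' : (hammingDist w (enc f ε μ π x) : ℝ) ≤
      ∑ t : ZMod 3, (((EU t).card : ℝ) + (EM t).card + (BD t).card * (q + 1) + (BD t).card * q) := by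
    exact_mod_cast hdist
  refine hdist'.trans ?_
  have hv0 : (0 : ℝ) ≤ v := Nat.cast_nonneg _
  have b1 : ∀ t, ((EU t).card : ℝ) ≤ (1 + 4 * K0) * v := by
    intro t
    have h1 : ((EU t).card : ℝ) ≤ v + (D (t + 1)).card := by exact_mod_cast hEUc t
    have h2 := hDc (t + 1)
    linarith
  have b2 : ∀ t, ((EM t).card : ℝ) ≤ (3 + 16 * K0) * v := by
    intro t
    have h1 : ((EM t).card : ℝ) ≤ (D t).card + 3 * (EU t).card := by exact_mod_cast hEMc t
    have h2 := hDc t
    have h3 := b1 t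
    linarith
  have b3 : ∀ t, ((BD t).card : ℝ) ≤ (3 + (1 + 4 * K0) + Δ * (4 * K0) +
    Δ * (3 + 16 * K0)) * v := by
    intro t
    have h1 : ((BD t).card : ℝ) ≤ 3 * v + (EU t).card + (D t).card * Δ + (EM t).card * Δ := by
      exact_mod_cast hBDc t
    have h2 := hDc t
    have h3 := b1 t
    have h4 := b2 t
    have hΔ : (0 : ℝ) ≤ Δ := Nat.cast_nonneg _
    have h5 := mul_le_mul_of_nonneg_right h2 hΔ
    have h6 := mul_le_mul_of_nonneg_right h4 hΔ
    linarith
  have hq : (0 : ℝ) ≤ q := Nat.cast_nonneg _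
  calc _ ≤ ∑ t : ZMod 3, ((1 + 4 * K0) * v + (3 + 16 * K0) * v +
        ((3 + (1 + 4 * K0) + Δ * (4 * K0) + Δ * (3 + 16 * K0)) * v) * (q + 1) +
        ((3 + (1 + 4 * K0) + Δ * (4 * K0) + Δ * (3 + 16 * K0)) * v) * q) := by
        refine sum_le_sum fun t _ => ?_
        have h1 := b1 t
        have h2 := b2 t
        have h3 := b3 t
        gcongr
    _ = K2 q Δ K0 * v := by
        rw [sum_const, card_univ, ZMod.card, nsmul_eq_mul]
        unfold K2
        push_cast
        ring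

end

end Pool.Agent.K3h39.LT
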